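import Pool.Agent.Lib.IXD.Sys

/-!
# Row CSa: splitting derivations of systems, counts of products

Words: (split/join) induction on the derivation / on the first word. (pf) the list of productions determines where the
derivation of the first word ends: if l1 ++ l2 = l1' ++ l2' and l1, l1' both rewrite w to the empty word then l1 = l1'
(induction on CD S w l1 n1). -/

set_option autoImplicit false

namespace Pool.Agent.Lib.IXD

variable {N R : Type} {S : Sys N R}

private theorem cd_nil_inv {l : List R} {n : ℕ} (h : CD S [] l n) : l = [] ∧ n = 0 := by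
  cases h
  exact ⟨rfl, rfl⟩

private theorem cd_cons_inv {X : N} {w : List N} {l : List R} {n : ℕ} (h : CD S (X :: w) l n) :
    ∃ r l' n', X = S.lhs r ∧ l = r :: l' ∧ n = S.wt r + n' ∧ CD S (S.rhs r ++ w) l' n' := by
  cases h with
  | cons h => exact ⟨_, _, _, rfl, rfl, rfl, h⟩

theorem cd_append {w w' : List N} {l l' : List R} {n n' : ℕ} (h : CD S w l n) (h' : CD S w' l' n') :
    CD S (w ++ w') (l ++ l') (n + n') := by
  induction h with
  | nil => simpa using h'
  | @cons r w l n h ih =>
    rw [List.append_assoc] at ih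
    rw [Nat.add_assoc]
    exact CD.cons ih

theorem cd_split {w w' : List N} {l : List R} {n : ℕ} (h : CD S (w ++ w') l n) :
    ∃ l1 l2 n1 n2, l = l1 ++ l2 ∧ n = n1 + n2 ∧ CD S w l1 n1 ∧ CD S w' l2 n2 := by
  obtain ⟨u, hu⟩ : ∃ u, u = w ++ w' := ⟨_, rfl⟩
  rw [← hu] at h
  induction h generalizing w with
  | nil =>
    obtain ⟨h1, h2⟩ := List.append_eq_nil_iff.1 hu.symm
    subst h1 h2
    exact ⟨[], [], 0, 0, rfl, rfl, CD.nil, CD.nil⟩
  | @cons r v l n h ih =>
    cases w with
    | nil =>
      rw [List.nil_append] at hu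
      rw [← hu]
      exact ⟨[], r :: l, 0, S.wt r + n, rfl, (Nat.zero_add _).symm, CD.nil, CD.cons h⟩
    | cons a w0 =>
      rw [List.cons_append, List.cons.injEq] at hu
      obtain ⟨h1, h2⟩ := hu
      obtain ⟨l1, l2, n1, n2, e1, e2, c1, c2⟩ := ih (w := S.rhs r ++ w0) (by rw [h2, List.append_assoc])
      refine ⟨r :: l1, l2, S.wt r + n1, n2, by rw [e1, List.cons_append], by rw [e2, Nat.add_assoc], ?_, c2⟩
      rw [← h1]
      exact CD.cons c1

theorem cd_pf {w : List N} {l1 l1' l2 l2' : List R} {n1 n1' : ℕ} (h : CD S w l1 n1) (h' : CD S w l1' n1')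
    (e : l1 ++ l2 = l1' ++ l2') : l1 = l1' ∧ n1 = n1' := by
  induction h generalizing l1' n1' with
  | nil =>
    obtain ⟨h1, h2⟩ := cd_nil_inv h'
    exact ⟨h1.symm, h2.symm⟩
  | @cons r w l n h ih =>
    obtain ⟨r', l', n', e1, e2, e3, h3⟩ := cd_cons_inv h'
    subst e2 e3
    rw [List.cons_append, List.cons_append, List.cons.injEq] at e
    obtain ⟨e4, e5⟩ := e
    subst e4
    obtain ⟨e6, e7⟩ := ih h3 e5
    exact ⟨by rw [e6], by rw [e7]⟩

end Pool.Agent.Lib.IXD
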