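import Pool.Agent.Lib.IXD.CSa

/-!
# Row CSb: the equations of the generating series

Words: a derivation of [X] of weight n is r :: l with lhs r = X, wt r ≤ n and CD S (rhs r) l (n - wt r); compare coefficients
(`PowerSeries.coeff_X_pow_mul'`), the set is the disjoint union over r of the images under `r :: ·`.
-/

set_option autoImplicit false

namespace Pool.Agent.Lib.IXD

private theorem cd_cases {N R : Type} {S : Sys N R} {w : List N} {l : List R} {n : ℕ} (h : CD S w l n) :
    ∀ X : N, w = [X] → ∃ r l', l = r :: l' ∧ S.lhs r = X ∧ S.wt r ≤ n ∧ CD S (S.rhs r) l' (n - S.wt r) := by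
  cases h with
  | nil => intro X e; cases e
  | @cons r w' l' n' h' =>
    intro X e
    rw [List.cons.injEq] at e
    obtain ⟨e1, e2⟩ := e
    subst e2
    rw [List.append_nil] at h'
    refine ⟨r, l', rfl, e1, Nat.le_add_right _ _, ?_⟩
    rw [Nat.add_sub_cancel_left]
    exact h'

private theorem cd_mk {N R : Type} {S : Sys N R} {r : R} {l : List R} {n : ℕ} (hn : S.wt r ≤ n)
    (h : CD S (S.rhs r) l (n - S.wt r)) : CD S [S.lhs r] (r :: l) n := by
  have h1 : CD S (S.rhs r ++ []) l (n - S.wt r) := by rw [List.append_nil]; exact h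
  have h2 := CD.cons h1
  rw [Nat.add_sub_cancel' hn] at h2
  exact h2

open Classical in
theorem gf_eq {N R : Type} [Fintype R] {S : Sys N R} (hS : AllFin S) (X : N) :
    gf S [X] = ∑ r ∈ Finset.univ.filter (fun r => S.lhs r = X), (PowerSeries.X ^ S.wt r) * gf S (S.rhs r) := by
  ext n
  rw [map_sum]
  have hA : ∀ r : R, S.lhs r = X → ({l : List R | CD S (S.rhs r) l (n - S.wt r) ∧ S.wt r ≤ n}).Finite := by
    intro r hr
    have hsub : (fun l => r :: l) '' {l : List R | CD S (S.rhs r) l (n - S.wt r) ∧ S.wt r ≤ n} ⊆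
        {l : List R | CD S [X] l n} := by
      rintro _ ⟨l, ⟨hl, hn⟩, rfl⟩
      have := cd_mk hn hl
      rw [hr] at this
      exact this
    exact Set.Finite.of_finite_image ((hS X n).subset hsub) (fun a _ b _ hab => (List.cons.injEq _ _ _ _ ▸ hab).2)
  let F : R → Finset (List R) := fun r =>
    if h : ({l : List R | CD S (S.rhs r) l (n - S.wt r) ∧ S.wt r ≤ n}).Finite then h.toFinset else ∅
  have hF : ∀ r : R, S.lhs r = X → ∀ l, l ∈ F r ↔ (CD S (S.rhs r) l (n - S.wt r) ∧ S.wt r ≤ n) := by
    intro r hr l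
    simp only [F, dif_pos (hA r hr), Set.Finite.mem_toFinset, Set.mem_setOf_eq]
  have hcard : ∀ r : R, S.lhs r = X →
      ((F r).card : ZMod 3) = PowerSeries.coeff n ((PowerSeries.X ^ S.wt r) * gf S (S.rhs r)) := by
    intro r hr
    rw [PowerSeries.coeff_X_pow_mul']
    split_ifs with hn
    · simp only [gf, PowerSeries.coeff_mk]
      congr 1
      rw [← Set.ncard_coe_finset]
      congr 1
      ext l
      rw [Finset.mem_coe, hF r hr]
      simp [hn]
    · have : F r = ∅ := by
        ext l
        rw [hF r hr]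
        simp [hn]
      rw [this]
      simp
  have hT : {l : List R | CD S [X] l n} =
      (((Finset.univ.filter (fun r => S.lhs r = X)).biUnion (fun r => (F r).image (fun l => r :: l)) : Finset (List R)) : Set (List R)) := by
    ext l
    simp only [Set.mem_setOf_eq, Finset.coe_biUnion, Finset.coe_image, Set.mem_iUnion, Finset.mem_coe,
      Finset.mem_filter, Finset.mem_univ, true_and, Set.mem_image, exists_prop]
    constructor
    · intro h
      obtain ⟨r, l', e, h1, h2, h3⟩ := cd_cases h X rfl
      exact ⟨r, h1, l', (hF r h1 l').2 ⟨h3, h2⟩, e.symm⟩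
    · rintro ⟨r, h1, l', h2, rfl⟩
      have h3 := (hF r h1 l').1 h2
      have := cd_mk h3.2 h3.1
      rw [h1] at this
      exact this
  have h0 : PowerSeries.coeff n (gf S [X]) = (({l : List R | CD S [X] l n}.ncard : ℕ) : ZMod 3) := by
    simp only [gf, PowerSeries.coeff_mk]
  rw [h0, hT, Set.ncard_coe_finset, Finset.card_biUnion, Nat.cast_sum]
  · refine Finset.sum_congr rfl (fun r hr => ?_)
    rw [Finset.card_image_of_injective _ (fun a b hab => (List.cons.injEq _ _ _ _ ▸ hab).2)]
    exact hcard r (Finset.mem_filter.1 hr).2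
  · intro r _ r' _ hne
    rw [Function.onFun_apply] 
    rw [Finset.disjoint_left]
    intro l hl hl'
    obtain ⟨a, _, ha⟩ := Finset.mem_image.1 hl
    obtain ⟨b, _, hb⟩ := Finset.mem_image.1 hl'
    rw [← hb] at ha
    exact hne ((List.cons.injEq _ _ _ _ ▸ ha).1)

/-- a nonzero constant coefficient comes from a derivation of weight 0 -/
theorem gf_const {N R : Type} {S : Sys N R} {X : N} (h : PowerSeries.constantCoeff (gf S [X]) ≠ 0) :
    ∃ l, CD S [X] l 0 := by
  by_contra hc
  push Not at hc
  apply h
  rw [← PowerSeries.coeff_zero_eq_constantCoeff_apply]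
  simp only [gf, PowerSeries.coeff_mk]
  have : {l : List R | CD S [X] l 0} = ∅ := by
    ext l
    simp [hc l]
  rw [this]
  simp

end Pool.Agent.Lib.IXD
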