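import Pool.Agent.Lib.IXD.CSa

/-!
# Row CSc: a rank function for the productions of weight 0

Words: say Y below X if some production r with lhs r = X has weight 0, rhs r = u ++ Y :: v and all z in u ++ v have a
derivation of weight 0. If Y is below X (also for the transitive closure) there are lists p ≠ [] and q such that CD S [Y] l n
implies CD S [X] (p ++ l ++ q) n for all l, n. If X were below X in the transitive closure, starting from one derivation
of X (AllProd) one would get infinitely many of the same weight (their lengths grow), against AllFin. So the transitive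
closure is irreflexive, and ρ X := number of the Y with TransGen Y X works (N is finite).
-/

set_option autoImplicit false

namespace Pool.Agent.Lib.IXD

/-- `Y` is below `X` -/
private def Below {N R : Type} (S : Sys N R) (Y X : N) : Prop :=
  ∃ (r : R) (u v : List N), S.wt r = 0 ∧ S.lhs r = X ∧ S.rhs r = u ++ Y :: v ∧ ∀ z ∈ u ++ v, ∃ l, CD S [z] l 0

/-- derivations of `Y` extend to derivations of `X` of the same weight -/
private def Ext {N R : Type} (S : Sys N R) (Y X : N) : Prop :=
  ∃ p q : List R, p ≠ [] ∧ ∀ l n, CD S [Y] l n → CD S [X] (p ++ l ++ q) n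

private theorem word0 {N R : Type} {S : Sys N R} (w : List N) (h : ∀ z ∈ w, ∃ l, CD S [z] l 0) :
    ∃ l, CD S w l 0 := by
  induction w with
  | nil => exact ⟨[], CD.nil⟩
  | cons z w ih =>
    obtain ⟨l1, h1⟩ := h z (by simp)
    obtain ⟨l2, h2⟩ := ih fun y hy => h y (by simp [hy])
    exact ⟨l1 ++ l2, cd_append h1 h2⟩

private theorem ext_of_below {N R : Type} {S : Sys N R} {Y X : N} (h : Below S Y X) : Ext S Y X := by
  obtain ⟨r, u, v, hw, rfl, hr, hz⟩ := h
  obtain ⟨lu, hu⟩ := word0 u fun z hz' => hz z (by simp [hz'])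
  obtain ⟨lv, hv⟩ := word0 v fun z hz' => hz z (by simp [hz'])
  refine ⟨r :: lu, lv, by simp, fun l n hl => ?_⟩
  have h1 : CD S (u ++ ([Y] ++ v)) (lu ++ (l ++ lv)) (0 + (n + 0)) := cd_append hu (cd_append hl hv)
  have h2 : CD S (S.rhs r ++ []) (lu ++ (l ++ lv)) (0 + (n + 0)) := by
    rw [List.append_nil, hr]
    exact h1
  have h3 := CD.cons h2
  rw [hw] at h3
  have e : (0 : ℕ) + (0 + (n + 0)) = n := by omega
  rw [e] at h3
  have e2 : (r :: lu) ++ l ++ lv = r :: (lu ++ (l ++ lv)) := by simp
  rw [e2]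
  exact h3

private theorem ext_trans {N R : Type} {S : Sys N R} {Z Y X : N} (h : Ext S Z Y) (h' : Ext S Y X) : Ext S Z X := by
  obtain ⟨p, q, hp, h⟩ := h
  obtain ⟨p', q', hp', h'⟩ := h'
  refine ⟨p' ++ p, q ++ q', by simp [hp], fun l n hl => ?_⟩
  have h1 := h' _ _ (h _ _ hl)
  have e : p' ++ p ++ l ++ (q ++ q') = p' ++ (p ++ l ++ q) ++ q' := by simp
  rw [e]
  exact h1

private theorem ext_of_trans {N R : Type} {S : Sys N R} {Y X : N} (h : Relation.TransGen (Below S) Y X) :
    Ext S Y X := by
  induction h with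
  | single h => exact ext_of_below h
  | tail _ h ih => exact ext_trans ih (ext_of_below h)

private theorem ext_irrefl {N R : Type} {S : Sys N R} (hS : AllFin S) (hp : AllProd S) (X : N) : ¬ Ext S X X := by
  rintro ⟨p, q, hpne, h⟩
  obtain ⟨l0, n0, h0⟩ := hp X
  obtain ⟨a, ha, hmax⟩ := Set.exists_max_image {l : List R | CD S [X] l n0} List.length (hS X n0) ⟨l0, h0⟩
  have h1 := hmax _ (h a n0 ha)
  have h2 : 0 < p.length := List.length_pos_iff.2 hpne
  simp only [List.length_append] at h1
  omega

theorem rank_ex {N R : Type} [Finite N] {S : Sys N R} (hS : AllFin S) (hp : AllProd S) :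
    ∃ ρ : N → ℕ, ∀ (r : R) (u v : List N) (Y : N), S.wt r = 0 → S.rhs r = u ++ Y :: v →
      (∀ z ∈ u ++ v, ∃ l, CD S [z] l 0) → ρ Y < ρ (S.lhs r) := by
  refine ⟨fun X => {Y | Relation.TransGen (Below S) Y X}.ncard, fun r u v Y hw hr hz => ?_⟩
  have hb : Below S Y (S.lhs r) := ⟨r, u, v, hw, rfl, hr, hz⟩
  refine Set.ncard_lt_ncard ?_ (Set.toFinite _)
  refine ⟨fun Z hZ => Relation.TransGen.tail hZ hb, fun hsub => ?_⟩
  have h1 : Y ∈ {Z | Relation.TransGen (Below S) Z Y} := hsub (Relation.TransGen.single hb)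
  exact ext_irrefl hS hp Y (ext_of_trans h1)

end Pool.Agent.Lib.IXD
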