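import Pool.Agent.Lib.IXD.CSa

/-!
# Row CSd: removing useless symbols

Words: call X good if there are p, w, m such that CD S (X :: w) l n implies CD S [X₀] (p ++ l) (m + n) for all l, n, and some
derivation of X :: w exists. N' = the good symbols (subtype), R' = the productions r with good lhs r and all symbols of
rhs r good (subtype). X₀ is good (p = [], w = [], m = 0). If X is good and CD S [X] l n then all productions in l are in R'
(induction: for r :: l deriving X :: w, lhs r = X is good, and each symbol of rhs r is good, because it becomes the first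
symbol at some moment: prove it for words, with context). For good X the derivations of [X] of weight n inject into those
of [X₀] of weight m + n + n₀ (l goes to p ++ (l ++ l₀), l₀ a derivation of w), so they are finitely many. The derivations of [X₀] in
S and S' correspond by `List.map Subtype.val`.
-/

set_option autoImplicit false

namespace Pool.Agent.Lib.IXD

/-- words which occur at the front of sentential forms -/
private def GoodW {N R : Type} (S : Sys N R) (X₀ : N) (v : List N) : Prop :=
  ∃ (p : List R) (w : List N) (m : ℕ),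
    (∀ l n, CD S (v ++ w) l n → CD S [X₀] (p ++ l) (m + n)) ∧ ∃ l n, CD S (v ++ w) l n

private theorem good_left {N R : Type} {S : Sys N R} {X₀ : N} {v w : List N} (h : GoodW S X₀ (v ++ w)) :
    GoodW S X₀ v := by
  obtain ⟨p, u, m, h1, l, n, h2⟩ := h
  refine ⟨p, w ++ u, m, ?_, l, n, ?_⟩
  · intro l n h3
    rw [← List.append_assoc] at h3
    exact h1 l n h3
  · rwa [← List.append_assoc]

private theorem good_right {N R : Type} {S : Sys N R} {X₀ : N} {v w : List N} (h : GoodW S X₀ (v ++ w)) :
    GoodW S X₀ w := by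
  obtain ⟨p, u, m, h1, l, n, h2⟩ := h
  rw [List.append_assoc] at h2
  obtain ⟨l1, l2, n1, n2, -, -, h3, h4⟩ := cd_split h2
  refine ⟨p ++ l1, u, m + n1, ?_, l2, n2, h4⟩
  intro l' n' h5
  have h6 := cd_append h3 h5
  rw [← List.append_assoc] at h6
  have h7 := h1 _ _ h6
  rwa [← List.append_assoc, ← Nat.add_assoc] at h7

private theorem good_step {N R : Type} {S : Sys N R} {X₀ : N} {r : R} {w : List N} {l : List R} {n : ℕ}
    (h : GoodW S X₀ (S.lhs r :: w)) (hd : CD S (S.rhs r ++ w) l n) : GoodW S X₀ (S.rhs r ++ w) := by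
  obtain ⟨p, u, m, h1, l', n', h2⟩ := h
  obtain ⟨l1, l2, n1, n2, -, -, -, h4⟩ := cd_split h2
  refine ⟨p ++ [r], u, m + S.wt r, ?_, l ++ l2, n + n2, cd_append hd h4⟩
  intro l3 n3 h5
  rw [List.append_assoc] at h5
  have h6 : CD S (S.lhs r :: (w ++ u)) (r :: l3) (S.wt r + n3) := CD.cons h5
  have h7 := h1 (r :: l3) (S.wt r + n3) h6
  rwa [List.append_cons, ← Nat.add_assoc] at h7

/-- good symbols -/
private abbrev GN {N R : Type} (S : Sys N R) (X₀ : N) : Type := {X : N // GoodW S X₀ [X]}

/-- good productions -/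
private abbrev GR {N R : Type} (S : Sys N R) (X₀ : N) : Type :=
  {r : R // GoodW S X₀ [S.lhs r] ∧ ∀ y ∈ S.rhs r, GoodW S X₀ [y]}

/-- the trimmed system -/
private def tr {N R : Type} (S : Sys N R) (X₀ : N) : Sys (GN S X₀) (GR S X₀) where
  lhs r := ⟨S.lhs r.1, r.2.1⟩
  wt r := S.wt r.1
  rhs r := (S.rhs r.1).pmap Subtype.mk r.2.2

private theorem tr_rhs {N R : Type} (S : Sys N R) (X₀ : N) (r : GR S X₀) :
    ((tr S X₀).rhs r).map Subtype.val = S.rhs r.1 := by
  unfold tr
  simp only
  rw [List.map_pmap]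
  simp

private theorem cd_of_tr {N R : Type} {S : Sys N R} {X₀ : N} {w : List (GN S X₀)} {l : List (GR S X₀)} {n : ℕ}
    (h : CD (tr S X₀) w l n) : CD S (w.map Subtype.val) (l.map Subtype.val) n := by
  induction h with
  | nil => exact CD.nil
  | @cons r w l n _ ih =>
    rw [List.map_append, tr_rhs] at ih
    exact CD.cons ih

private theorem tr_of_cd {N R : Type} {S : Sys N R} {X₀ : N} {v : List N} {l : List R} {n : ℕ}
    (h : CD S v l n) (hg : GoodW S X₀ v) : ∃ (w' : List (GN S X₀)) (l' : List (GR S X₀)),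
      w'.map Subtype.val = v ∧ l'.map Subtype.val = l ∧ CD (tr S X₀) w' l' n := by
  induction h with
  | nil => exact ⟨[], [], rfl, rfl, CD.nil⟩
  | @cons r w l n hd ih =>
    obtain ⟨w', l', h1, h2, h3⟩ := ih (good_step hg hd)
    rw [List.map_eq_append_iff] at h1
    obtain ⟨a, b, rfl, ha, hb⟩ := h1
    have hl : GoodW S X₀ [S.lhs r] := good_left (v := [S.lhs r]) (w := w) hg
    have hr : ∀ y ∈ S.rhs r, GoodW S X₀ [y] := by
      intro y hy
      rw [← ha, List.mem_map] at hy
      obtain ⟨z, -, rfl⟩ := hy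
      exact z.2
    obtain ⟨r', hr'⟩ : ∃ r' : GR S X₀, r' = ⟨r, hl, hr⟩ := ⟨_, rfl⟩
    have ha' : a = (tr S X₀).rhs r' := by
      apply List.map_injective_iff.mpr Subtype.val_injective
      rw [ha, tr_rhs, hr']
    subst ha'
    refine ⟨(tr S X₀).lhs r' :: b, r' :: l', ?_, ?_, ?_⟩
    · rw [List.map_cons, hb, hr']
      rfl
    · rw [List.map_cons, h2, hr']
    · have h4 := CD.cons h3
      have h5 : (tr S X₀).wt r' = S.wt r := by rw [hr']; rfl
      rwa [h5] at h4

private theorem set_eq {N R : Type} {S : Sys N R} {X₀ : N} (X : GN S X₀) (n : ℕ) :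
    {l : List R | CD S [X.1] l n} = List.map Subtype.val '' {l : List (GR S X₀) | CD (tr S X₀) [X] l n} := by
  ext l
  constructor
  · intro h
    obtain ⟨w', l', h1, h2, h3⟩ := tr_of_cd (X₀ := X₀) (h : CD S [X.1] l n) X.2
    have h4 : w' = [X] := by
      apply List.map_injective_iff.mpr Subtype.val_injective
      rw [h1]
      rfl
    subst h4
    exact ⟨l', h3, h2⟩
  · rintro ⟨l', h1, rfl⟩
    exact cd_of_tr (h1 : CD (tr S X₀) [X] l' n)

private theorem fin_good {N R : Type} {S : Sys N R} {X₀ : N} (hfin : ∀ n, {l : List R | CD S [X₀] l n}.Finite)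
    {X : N} (hX : GoodW S X₀ [X]) (n : ℕ) : {l : List R | CD S [X] l n}.Finite := by
  obtain ⟨p, w, m, h1, l, n', h2⟩ := hX
  obtain ⟨l1, l2, n1, n2, -, -, h3, h4⟩ := cd_split h2
  have hinj : Function.Injective fun l : List R => p ++ (l ++ l2) := by
    intro a b hab
    exact List.append_cancel_right (List.append_cancel_left hab)
  refine ((hfin (m + (n + n2))).preimage hinj.injOn).subset ?_
  intro l' h5
  exact h1 _ _ (cd_append (h5 : CD S [X] l' n) h4)

theorem trim {N R : Type} [Finite N] [Finite R] (S : Sys N R) (X₀ : N)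
    (hfin : ∀ n, {l : List R | CD S [X₀] l n}.Finite) (hex : ∃ l n, CD S [X₀] l n) :
    ∃ (N' R' : Type) (_ : Finite N') (_ : Finite R') (S' : Sys N' R') (X₀' : N'), AllFin S' ∧ AllProd S' ∧
      ∀ n, cnt3 S' X₀' n = cnt3 S X₀ n := by
  have h0 : GoodW S X₀ [X₀] := by
    obtain ⟨l, n, h⟩ := hex
    refine ⟨[], [], 0, ?_, l, n, h⟩
    intro l n h
    rw [Nat.zero_add]
    exact h
  refine ⟨GN S X₀, GR S X₀, inferInstance, inferInstance, tr S X₀, ⟨X₀, h0⟩, ?_, ?_, ?_⟩
  · intro X n
    have h1 := fin_good hfin X.2 n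
    rw [set_eq X n] at h1
    exact h1.of_finite_image (List.map_injective_iff.mpr Subtype.val_injective).injOn
  · intro X
    obtain ⟨p, w, m, -, l, n, h2⟩ := X.2
    obtain ⟨l1, l2, n1, n2, -, -, h3, -⟩ := cd_split h2
    have h4 : l1 ∈ {l : List R | CD S [X.1] l n1} := h3
    rw [set_eq X n1] at h4
    obtain ⟨l', h5, -⟩ := h4
    exact ⟨l', n1, h5⟩
  · intro n
    unfold cnt3
    have h1 := set_eq (S := S) (X₀ := X₀) ⟨X₀, h0⟩ n
    simp only at h1
    rw [h1, Set.ncard_image_of_injective _ (List.map_injective_iff.mpr Subtype.val_injective)]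

end Pool.Agent.Lib.IXD
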