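import Mathlib

/-!
# Row CSe: the Jacobian criterion for algebraicity

Words: `E = K(f X : X in N)`, an intermediate field of `L`. In the module of differentials of `E` over `K` the relations `f X = P_X(f)` give
`(1 - M) d f = 0` with an invertible matrix `1 - M`, so all `d (f X)` are `0`, so `d = 0` (`E` is generated by the `f X` as a field), so `E` is
formally unramified over `K` and essentially of finite type, hence separable algebraic.
-/

set_option autoImplicit false

namespace Pool.Agent.Lib.IXD

open KaehlerDifferential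

private theorem cse_aeval {K E N M : Type} [Field K] [Field E] [Algebra K E] [Fintype N] [DecidableEq N] [AddCommGroup M] [Module E M]
    [Module K M] (D : Derivation K E M) (f : N → E) (p : MvPolynomial N K) :
    D (MvPolynomial.aeval f p) = ∑ Y, MvPolynomial.aeval f (MvPolynomial.pderiv Y p) • D (f Y) := by
  induction p using MvPolynomial.induction_on with
  | C c =>
    rw [MvPolynomial.aeval_C, D.map_algebraMap]
    symm
    apply Finset.sum_eq_zero
    intro Y _
    rw [MvPolynomial.pderiv_C, map_zero, zero_smul]
  | add p q hp hq =>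
    rw [map_add, map_add, hp, hq, ← Finset.sum_add_distrib]
    refine Finset.sum_congr rfl fun Y _ => ?_
    rw [map_add, map_add, add_smul]
  | mul_X p i hp =>
    rw [map_mul, MvPolynomial.aeval_X, D.leibniz, hp, Finset.smul_sum]
    have h1 : MvPolynomial.aeval f p • D (f i) =
        ∑ Y, (MvPolynomial.aeval f p * (if Y = i then 1 else 0)) • D (f Y) := by
      rw [Finset.sum_eq_single i]
      · rw [if_pos rfl, mul_one]
      · intro Y _ hY
        rw [if_neg hY, mul_zero, zero_smul]
      · intro h
        exact absurd (Finset.mem_univ i) h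
    rw [h1, ← Finset.sum_add_distrib]
    refine Finset.sum_congr rfl fun Y _ => ?_
    rw [smul_smul, ← add_smul]
    congr 1
    rw [Derivation.leibniz, smul_eq_mul, smul_eq_mul, map_add, map_mul, map_mul, MvPolynomial.aeval_X]
    congr 1
    congr 1
    by_cases h : Y = i
    · subst h
      rw [MvPolynomial.pderiv_X_self, map_one, if_pos rfl]
    · rw [MvPolynomial.pderiv_X_of_ne (Ne.symm h), map_zero, if_neg h]

/-- the field version -/
theorem alg_of_jac_field {K L N : Type} [Field K] [Field L] [Algebra K L] [Fintype N] [DecidableEq N] (f : N → L)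
    (P : N → MvPolynomial N K) (hP : ∀ X, MvPolynomial.aeval f (P X) = f X)
    (hJ : ((1 : Matrix N N L) - Matrix.of fun X Y => MvPolynomial.aeval f (MvPolynomial.pderiv Y (P X))).det ≠ 0) (X : N) :
    IsAlgebraic K (f X) := by
  set E : IntermediateField K L := IntermediateField.adjoin K (Set.range f) with hE
  set g : N → E := fun X => ⟨f X, IntermediateField.subset_adjoin K _ ⟨X, rfl⟩⟩ with hg
  have hag : ∀ p : MvPolynomial N K, algebraMap E L (MvPolynomial.aeval g p) = MvPolynomial.aeval f p := by
    intro p
    have h1 := MvPolynomial.aeval_algebraMap_apply (R := K) L g p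
    rw [← h1]
    rfl
  have hPg : ∀ X, MvPolynomial.aeval g (P X) = g X := by
    intro X
    apply (algebraMap E L).injective
    rw [hag, hP]
    rfl
  set A : Matrix N N E := (1 : Matrix N N E) - Matrix.of fun X Y => MvPolynomial.aeval g (MvPolynomial.pderiv Y (P X)) with hA
  have hdet : A.det ≠ 0 := by
    intro h0
    apply hJ
    have h1 : ((1 : Matrix N N L) - Matrix.of fun X Y => MvPolynomial.aeval f (MvPolynomial.pderiv Y (P X))) =
        (algebraMap E L).mapMatrix A := by
      ext X Y
      rw [RingHom.mapMatrix_apply, Matrix.map_apply, hA, Matrix.sub_apply, Matrix.sub_apply, Matrix.of_apply, Matrix.of_apply,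
        map_sub, hag, Matrix.one_apply, Matrix.one_apply]
      congr 1
      split_ifs
      · rw [map_one]
      · rw [map_zero]
    rw [h1, ← RingHom.map_det, h0, map_zero]
  have hrel : ∀ X, ∑ Y, A X Y • D K E (g Y) = 0 := by
    intro X
    have h1 := cse_aeval (D K E) g (P X)
    rw [hPg] at h1
    have h2 : ∑ Y, A X Y • D K E (g Y) = (∑ Y, (if X = Y then (1 : E) else 0) • D K E (g Y)) -
        ∑ Y, MvPolynomial.aeval g (MvPolynomial.pderiv Y (P X)) • D K E (g Y) := by
      rw [← Finset.sum_sub_distrib]
      refine Finset.sum_congr rfl fun Y _ => ?_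
      rw [hA, Matrix.sub_apply, Matrix.of_apply, Matrix.one_apply, sub_smul]
    rw [h2, ← h1, Finset.sum_eq_single X]
    · rw [if_pos rfl, one_smul, sub_self]
    · intro Y _ hY
      rw [if_neg (Ne.symm hY), zero_smul]
    · intro h
      exact absurd (Finset.mem_univ X) h
  have hdg : ∀ Z, D K E (g Z) = 0 := by
    intro Z
    have h1 : ∑ Y, (A.adjugate * A) Z Y • D K E (g Y) = 0 := by
      simp_rw [Matrix.mul_apply, Finset.sum_smul]
      rw [Finset.sum_comm]
      apply Finset.sum_eq_zero
      intro X _
      simp_rw [← smul_smul]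
      rw [← Finset.smul_sum, hrel X, smul_zero]
    rw [Matrix.adjugate_mul, Finset.sum_eq_single Z] at h1
    · rw [Matrix.smul_apply, Matrix.one_apply_eq, smul_eq_mul, mul_one] at h1
      exact (smul_eq_zero.1 h1).resolve_left hdet
    · intro Y _ hY
      rw [Matrix.smul_apply, Matrix.one_apply_ne (Ne.symm hY), smul_zero, zero_smul]
    · intro h
      exact absurd (Finset.mem_univ Z) h
  have hD : ∀ (x : L) (hx : x ∈ E), D K E ⟨x, hx⟩ = 0 := by
    intro x hx
    induction hx using IntermediateField.adjoin_induction with
    | mem x hx =>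
      obtain ⟨Z, rfl⟩ := hx
      exact hdg Z
    | algebraMap x => exact (D K E).map_algebraMap x
    | add x y hx hy h1 h2 =>
      have h3 : (⟨x + y, add_mem hx hy⟩ : E) = ⟨x, hx⟩ + ⟨y, hy⟩ := rfl
      rw [h3, map_add, h1, h2, add_zero]
    | inv x hx h1 =>
      have h3 : (⟨x⁻¹, inv_mem hx⟩ : E) = (⟨x, hx⟩ : E)⁻¹ := rfl
      rw [h3, Derivation.leibniz_inv, h1, smul_zero]
    | mul x y hx hy h1 h2 =>
      have h3 : (⟨x * y, mul_mem hx hy⟩ : E) = ⟨x, hx⟩ * ⟨y, hy⟩ := rfl
      rw [h3, Derivation.leibniz, h1, h2, smul_zero, smul_zero, add_zero]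
  have hsub : Subsingleton (Ω[E⁄K]) := by
    have h1 := KaehlerDifferential.span_range_derivation K E
    have h2 : Submodule.span E (Set.range (D K E)) = ⊥ := by
      rw [Submodule.span_eq_bot]
      rintro _ ⟨x, rfl⟩
      exact hD x.1 x.2
    rw [h2] at h1
    exact (Submodule.subsingleton_iff E).1 (subsingleton_of_bot_eq_top h1)
  have hun : Algebra.FormallyUnramified K E := ⟨hsub⟩
  have hfin : Algebra.EssFiniteType K E := by
    rw [IntermediateField.essFiniteType_iff]
    exact IntermediateField.fg_adjoin_of_finite (Set.finite_range f)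
  have hsep : Algebra.IsSeparable K E := Algebra.FormallyUnramified.isSeparable K E
  have halg : IsAlgebraic K (g X) := (Algebra.IsSeparable.isSeparable K (g X)).isIntegral.isAlgebraic
  have h9 : IsAlgebraic K (algebraMap E L (g X)) := halg.algebraMap
  exact h9

end Pool.Agent.Lib.IXD
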