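import Pool.Agent.Lib.IXD.CSe

/-!
# Row CSf: the Jacobian criterion for polynomials and power series modulo 3
-/

set_option autoImplicit false

namespace Pool.Agent.Lib.IXD

theorem alg_of_jac {N : Type} [Fintype N] [DecidableEq N] (f : N → PowerSeries (ZMod 3))
    (P : N → MvPolynomial N (Polynomial (ZMod 3))) (hP : ∀ X, MvPolynomial.aeval f (P X) = f X)
    (hJ : ((1 : Matrix N N (PowerSeries (ZMod 3))) -
      Matrix.of fun X Y => MvPolynomial.aeval f (MvPolynomial.pderiv Y (P X))).det ≠ 0) (X : N) :
    IsAlgebraic (Polynomial (ZMod 3)) (f X) := by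
  have hprime : Fact (Nat.Prime 3) := ⟨Nat.prime_three⟩
  have hBL : Function.Injective
      (algebraMap (PowerSeries (ZMod 3)) (FractionRing (PowerSeries (ZMod 3)))) :=
    IsFractionRing.injective _ _
  have hAB : Function.Injective
      (algebraMap (Polynomial (ZMod 3)) (PowerSeries (ZMod 3))) := by
    intro a b hab
    exact Polynomial.coe_injective _ hab
  have hAL : Function.Injective
      (algebraMap (Polynomial (ZMod 3)) (FractionRing (PowerSeries (ZMod 3)))) := by
    rw [IsScalarTower.algebraMap_eq (Polynomial (ZMod 3)) (PowerSeries (ZMod 3))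
      (FractionRing (PowerSeries (ZMod 3)))]
    exact hBL.comp hAB
  have hF : FaithfulSMul (Polynomial (ZMod 3)) (FractionRing (PowerSeries (ZMod 3))) :=
    (faithfulSMul_iff_algebraMap_injective _ _).2 hAL
  letI : Algebra (FractionRing (Polynomial (ZMod 3))) (FractionRing (PowerSeries (ZMod 3))) :=
    FractionRing.liftAlgebra _ _
  have hT : IsScalarTower (Polynomial (ZMod 3)) (FractionRing (Polynomial (ZMod 3)))
      (FractionRing (PowerSeries (ZMod 3))) := FractionRing.isScalarTower_liftAlgebra _ _
  have hev : ∀ p : MvPolynomial N (Polynomial (ZMod 3)),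
      MvPolynomial.aeval (fun Y => algebraMap (PowerSeries (ZMod 3))
        (FractionRing (PowerSeries (ZMod 3))) (f Y))
        (MvPolynomial.map (algebraMap (Polynomial (ZMod 3)) (FractionRing (Polynomial (ZMod 3)))) p) =
      algebraMap (PowerSeries (ZMod 3)) (FractionRing (PowerSeries (ZMod 3)))
        (MvPolynomial.aeval f p) := by
    intro p
    rw [MvPolynomial.aeval_map_algebraMap]
    exact MvPolynomial.aeval_algebraMap_apply (FractionRing (PowerSeries (ZMod 3))) f p
  have h := alg_of_jac_field (K := FractionRing (Polynomial (ZMod 3)))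
    (L := FractionRing (PowerSeries (ZMod 3)))
    (fun Y => algebraMap (PowerSeries (ZMod 3)) (FractionRing (PowerSeries (ZMod 3))) (f Y))
    (fun Y => MvPolynomial.map (algebraMap (Polynomial (ZMod 3))
      (FractionRing (Polynomial (ZMod 3)))) (P Y))
    (fun Y => by rw [hev, hP]) ?_ X
  · have h1 := (IsFractionRing.isAlgebraic_iff (Polynomial (ZMod 3))
      (FractionRing (Polynomial (ZMod 3))) (FractionRing (PowerSeries (ZMod 3)))).2 h
    exact (isAlgebraic_algebraMap_iff hBL).1 h1
  · have hM : ((1 : Matrix N N (FractionRing (PowerSeries (ZMod 3)))) -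
        Matrix.of fun X Y => MvPolynomial.aeval (fun Y => algebraMap (PowerSeries (ZMod 3))
          (FractionRing (PowerSeries (ZMod 3))) (f Y)) (MvPolynomial.pderiv Y
            (MvPolynomial.map (algebraMap (Polynomial (ZMod 3))
              (FractionRing (Polynomial (ZMod 3)))) (P X)))) =
        (algebraMap (PowerSeries (ZMod 3)) (FractionRing (PowerSeries (ZMod 3)))).mapMatrix
          ((1 : Matrix N N (PowerSeries (ZMod 3))) -
            Matrix.of fun X Y => MvPolynomial.aeval f (MvPolynomial.pderiv Y (P X))) := by
      rw [map_sub, map_one]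
      congr 1
      ext X Y
      simp only [Matrix.of_apply, RingHom.mapMatrix_apply, Matrix.map_apply]
      rw [MvPolynomial.pderiv_map, hev]
    rw [hM, ← RingHom.map_det]
    intro h0
    exact hJ (hBL (by rw [h0, map_zero]))

end Pool.Agent.Lib.IXD
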