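import Pool.Agent.Lib.IXD.CSa

/-!
# Row CSn: counts of products

Words: (gf_append) the set of derivations of w ++ w' of weight n is the disjoint union over n1 + n2 = n of
products (`cd_append`, `cd_split`, `cd_pf`); coefficients of a product of power series (`PowerSeries.coeff_mul`, antidiagonal);
all sets are finite by `fin_word` (induction on w, `cd_split` for [X] ++ w).
-/

set_option autoImplicit false

namespace Pool.Agent.Lib.IXD

variable {N R : Type} {S : Sys N R}

theorem fin_word (hS : AllFin S) (w : List N) (n : ℕ) : {l : List R | CD S w l n}.Finite := by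
  induction w generalizing n with
  | nil =>
    refine (Set.finite_singleton ([] : List R)).subset ?_
    intro l hl
    have h : CD S [] l n := hl
    cases h
    exact Set.mem_singleton _
  | cons X w ih =>
    have h1 : (⋃ p ∈ (Finset.HasAntidiagonal.antidiagonal n : Finset (ℕ × ℕ)), Set.image2 (fun a b : List R => a ++ b)
        {l : List R | CD S [X] l p.1} {l : List R | CD S w l p.2}).Finite :=
      (Finset.finite_toSet _).biUnion fun p _ => (hS X p.1).image2 _ (ih p.2)
    refine h1.subset ?_
    intro l hl
    have h : CD S ([X] ++ w) l n := hl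
    obtain ⟨l1, l2, n1, n2, rfl, rfl, h2, h3⟩ := cd_split h
    refine Set.mem_biUnion (x := (n1, n2)) ?_ ⟨l1, h2, l2, h3, rfl⟩
    simp

theorem gf_append (hS : AllFin S) (w w' : List N) : gf S (w ++ w') = gf S w * gf S w' := by
  classical
  ext n
  rw [PowerSeries.coeff_mul]
  simp only [gf, PowerSeries.coeff_mk]
  have hcard : {l : List R | CD S (w ++ w') l n}.ncard = ∑ p ∈ Finset.HasAntidiagonal.antidiagonal n,
      {l : List R | CD S w l p.1}.ncard * {l : List R | CD S w' l p.2}.ncard := by
    set T : Finset (List R) := (Finset.HasAntidiagonal.antidiagonal n).biUnion fun p =>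
      ((fin_word hS w p.1).toFinset ×ˢ (fin_word hS w' p.2).toFinset).image fun q => q.1 ++ q.2 with hT
    have e : {l : List R | CD S (w ++ w') l n} = ↑T := by
      ext l
      rw [hT]
      simp only [Finset.coe_biUnion, Set.mem_iUnion, Finset.mem_coe, Finset.mem_image,
        Finset.mem_product, Set.Finite.mem_toFinset, Set.mem_setOf_eq, Finset.HasAntidiagonal.mem_antidiagonal,
        Prod.exists, exists_prop]
      constructor
      · intro hl
        obtain ⟨l1, l2, n1, n2, rfl, rfl, h2, h3⟩ := cd_split hl
        exact ⟨n1, n2, rfl, l1, l2, ⟨h2, h3⟩, rfl⟩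
      · rintro ⟨n1, n2, rfl, l1, l2, ⟨h2, h3⟩, rfl⟩
        exact cd_append h2 h3
    rw [e, Set.ncard_coe_finset, hT, Finset.card_biUnion]
    · refine Finset.sum_congr rfl fun p _ => ?_
      rw [Finset.card_image_of_injOn, Finset.card_product, Set.ncard_eq_toFinset_card _ (fin_word hS w p.1),
        Set.ncard_eq_toFinset_card _ (fin_word hS w' p.2)]
      rintro ⟨a, b⟩ h1 ⟨a', b'⟩ h2 h3
      simp only [Finset.coe_product, Set.mem_prod, Finset.mem_coe, Set.Finite.mem_toFinset,
        Set.mem_setOf_eq] at h1 h2 h3
      have h4 := (cd_pf h1.1 h2.1 h3).1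
      subst h4
      rw [List.append_cancel_left h3]
    · intro p hp q hq hpq
      rw [Function.onFun, Finset.disjoint_left]
      intro l hl hl'
      simp only [Finset.mem_image, Finset.mem_product, Set.Finite.mem_toFinset, Set.mem_setOf_eq,
        Prod.exists] at hl hl'
      obtain ⟨a, b, ⟨h1, h2⟩, h3⟩ := hl
      obtain ⟨a', b', ⟨h1', h2'⟩, h3'⟩ := hl'
      have h5 := (cd_pf h1 h1' (h3.trans h3'.symm)).2
      apply hpq
      have hp' := Finset.HasAntidiagonal.mem_antidiagonal.1 hp
      have hq' := Finset.HasAntidiagonal.mem_antidiagonal.1 hq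
      ext
      · exact h5
      · omega
  rw [hcard]
  push_cast
  rfl

theorem gf_prod (hS : AllFin S) (w : List N) : gf S w = (w.map fun X => gf S [X]).prod := by
  induction w with
  | nil =>
    rw [List.map_nil, List.prod_nil]
    ext n
    rw [PowerSeries.coeff_one]
    simp only [gf, PowerSeries.coeff_mk]
    split_ifs with h
    · subst h
      have e : {l : List R | CD S [] l 0} = {[]} := by
        ext l
        constructor
        · intro hl
          have h : CD S [] l 0 := hl
          cases h
          exact Set.mem_singleton _
        · rintro rfl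
          exact CD.nil
      rw [e, Set.ncard_singleton, Nat.cast_one]
    · have e : {l : List R | CD S [] l n} = ∅ := by
        ext l
        constructor
        · intro hl
          have h' : CD S [] l n := hl
          cases h'
          exact absurd rfl h
        · intro hl
          exact absurd hl (Set.notMem_empty _)
      rw [e, Set.ncard_empty, Nat.cast_zero]
  | cons X w ih =>
    rw [List.map_cons, List.prod_cons, ← ih, ← gf_append hS]
    rfl

end Pool.Agent.Lib.IXD
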