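import Pool.Agent.Lib.IXD.Sys

/-!
# Row CSo: the determinant

Words: modulo the variable (constant coefficients) M is strictly triangular with respect to ρ, so the constant coefficient of
det (1 - M) is not 0: apply `RingHom.map_det` with constantCoeff; if the determinant over the field ZMod 3 is 0 there is v ≠ 0 with
v = M v (`Matrix.exists_mulVec_eq_zero_iff`); take X with v X ≠ 0 and ρ X minimal: v X = sum over Y of M X Y v Y, where M X Y ≠ 0 implies
ρ Y < ρ X, so v Y = 0: contradiction.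
-/

set_option autoImplicit false

namespace Pool.Agent.Lib.IXD

private theorem det_ne_field {F : Type} [Field F] {N : Type} [Fintype N] [DecidableEq N] (ρ : N → ℕ)
    (M : Matrix N N F) (h : ∀ X Y, M X Y ≠ 0 → ρ Y < ρ X) : (1 - M).det ≠ 0 := by
  intro h0
  obtain ⟨v, hv, hM⟩ := Matrix.exists_mulVec_eq_zero_iff.2 h0
  have hex : ∃ k, ∃ X, v X ≠ 0 ∧ ρ X = k := by
    obtain ⟨X, hX⟩ := Function.ne_iff.1 hv
    exact ⟨ρ X, X, hX, rfl⟩
  classical
  obtain ⟨X, hX, hk⟩ := Nat.find_spec hex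
  have hmin : ∀ Y, ρ Y < ρ X → v Y = 0 := by
    intro Y hY
    by_contra hne
    exact Nat.find_min hex (hk ▸ hY) ⟨Y, hne, rfl⟩
  have h1 : v X = ∑ Y, M X Y * v Y := by
    have h2 := congrFun hM X
    rw [Matrix.sub_mulVec, Matrix.one_mulVec, Pi.sub_apply, Pi.zero_apply, sub_eq_zero] at h2
    exact h2
  apply hX
  rw [h1]
  refine Finset.sum_eq_zero fun Y _ => ?_
  by_cases h3 : M X Y = 0
  · rw [h3, zero_mul]
  · rw [hmin Y (h X Y h3), mul_zero]

theorem det_ne {N : Type} [Fintype N] [DecidableEq N] (ρ : N → ℕ) (M : Matrix N N (PowerSeries (ZMod 3)))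
    (h : ∀ X Y, PowerSeries.constantCoeff (M X Y) ≠ 0 → ρ Y < ρ X) : (1 - M).det ≠ 0 := by
  intro h0
  have : Fact (Nat.Prime 3) := ⟨Nat.prime_three⟩
  have h1 := congrArg (PowerSeries.constantCoeff (R := ZMod 3)) h0
  rw [RingHom.map_det, map_zero] at h1
  refine det_ne_field ρ ((PowerSeries.constantCoeff (R := ZMod 3)).mapMatrix M) (fun X Y hXY => h X Y hXY) ?_
  rw [← h1, map_sub, map_one]

end Pool.Agent.Lib.IXD
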