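import Pool.Agent.Lib.IXD.Sys

/-!
# Row CSp: the entries of the Jacobian matrix

Words: pderiv Y of C c * product of variables (list w): C c * sum over the decompositions w = u ++ Y :: v of product u * product v;
so the value is sum over r (lhs r = X) of X^(wt r) * sum over these decompositions of the products of the other f z. If the
constant coefficient is not 0, some r with lhs r = X has wt r = 0 (X^k has constant coefficient 0 for k > 0) and some
decomposition has all other f z with nonzero constant coefficient. First prove a lemma for lists by induction: if the constant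
coefficient of aeval f (pderiv Y (product of the variables of w)) is not 0 then w = u ++ Y :: v with ... (Leibniz rule).
-/

set_option autoImplicit false

namespace Pool.Agent.Lib.IXD

private lemma list_entry {N : Type} (φ : MvPolynomial N (Polynomial (ZMod 3)) →+* ZMod 3) (Y : N) :
    ∀ w : List N,
      φ (MvPolynomial.pderiv Y ((w.map fun y => (MvPolynomial.X y : MvPolynomial N (Polynomial (ZMod 3)))).prod)) ≠ 0 →
      ∃ u v : List N, w = u ++ Y :: v ∧ ∀ z ∈ u ++ v, φ (MvPolynomial.X z) ≠ 0
  | [] => fun h => by
      exfalso
      apply h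
      simp
  | y :: w => fun h => by
      rw [List.map_cons, List.prod_cons, MvPolynomial.pderiv_mul, map_add, map_mul, map_mul] at h
      by_cases h1 : φ (MvPolynomial.pderiv Y (MvPolynomial.X y)) *
          φ ((w.map fun y => (MvPolynomial.X y : MvPolynomial N (Polynomial (ZMod 3)))).prod) = 0
      · rw [h1, zero_add] at h
        have ha := left_ne_zero_of_mul h
        have hb := right_ne_zero_of_mul h
        obtain ⟨u, v, e, hz⟩ := list_entry φ Y w hb
        refine ⟨y :: u, v, by rw [e]; rfl, ?_⟩
        intro z hz'
        rw [List.cons_append, List.mem_cons] at hz'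
        rcases hz' with rfl | hz'
        · exact ha
        · exact hz z hz'
      · have ha := left_ne_zero_of_mul h1
        have hb := right_ne_zero_of_mul h1
        have hy : y = Y := by
          by_contra hne
          apply ha
          rw [MvPolynomial.pderiv_X_of_ne hne, map_zero]
        refine ⟨[], w, by rw [hy]; rfl, ?_⟩
        intro z hz
        rw [List.nil_append] at hz
        intro h0
        apply hb
        rw [map_list_prod, List.map_map]
        apply List.prod_eq_zero
        rw [List.mem_map]
        exact ⟨z, hz, h0⟩

theorem const_entry {N R : Type} [Fintype R] (S : Sys N R) (f : N → PowerSeries (ZMod 3)) (X Y : N)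
    (h : PowerSeries.constantCoeff (MvPolynomial.aeval f (MvPolynomial.pderiv Y (sysP S X))) ≠ 0) :
    ∃ (r : R) (u v : List N), S.lhs r = X ∧ S.wt r = 0 ∧ S.rhs r = u ++ Y :: v ∧
      ∀ z ∈ u ++ v, PowerSeries.constantCoeff (f z) ≠ 0 := by
  classical
  set φ : MvPolynomial N (Polynomial (ZMod 3)) →+* ZMod 3 :=
    (PowerSeries.constantCoeff (R := ZMod 3)).comp (MvPolynomial.aeval (R := Polynomial (ZMod 3)) f).toRingHom with hφ
  have hx : ∀ z, φ (MvPolynomial.X z) = PowerSeries.constantCoeff (f z) := by
    intro z
    simp [hφ]
  have h' : φ (MvPolynomial.pderiv Y (sysP S X)) ≠ 0 := h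
  unfold sysP at h'
  rw [map_sum, map_sum] at h'
  obtain ⟨r, hr, hne⟩ := Finset.exists_ne_zero_of_sum_ne_zero h'
  rw [Finset.mem_filter] at hr
  rw [MvPolynomial.pderiv_C_mul, map_mul] at hne
  have h1 := left_ne_zero_of_mul hne
  have h2 := right_ne_zero_of_mul hne
  obtain ⟨u, v, e, hz⟩ := list_entry φ Y _ h2
  refine ⟨r, u, v, hr.2, ?_, e, ?_⟩
  · by_contra hw
    apply h1
    simp [hφ, hw, PowerSeries.algebraMap_apply']
  · intro z hz'
    rw [← hx]
    exact hz z hz'

end Pool.Agent.Lib.IXD
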