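import Pool.Agent.Lib.IXD.CSb
import Pool.Agent.Lib.IXD.CSn
import Pool.Agent.Lib.IXD.CSc
import Pool.Agent.Lib.IXD.CSf
import Pool.Agent.Lib.IXD.CSo
import Pool.Agent.Lib.IXD.CSp

/-!
# Row CSg: the generating series of a system are algebraic

Words: apply `alg_of_jac` with f X = gf S [X] and P = sysP S: the equations are `gf_eq` and `gf_prod`; the determinant is not 0 by
`det_ne` with the rank of `rank_ex`: a nonzero constant coefficient of the entry gives by `const_entry` a production r with lhs r = X,
wt r = 0, rhs r = u ++ Y :: v, all z in u ++ v with nonzero constant coefficient, so with a derivation of weight 0 (`gf_const`).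
-/

set_option autoImplicit false

namespace Pool.Agent.Lib.IXD

theorem sys_alg {N R : Type} [Finite N] [Finite R] {S : Sys N R} (hS : AllFin S) (hp : AllProd S) (X : N) :
    IsAlgebraic (Polynomial (ZMod 3)) (gf S [X]) := by
  classical
  obtain ⟨hN⟩ := nonempty_fintype N
  obtain ⟨hR⟩ := nonempty_fintype R
  obtain ⟨ρ, hρ⟩ := rank_ex hS hp
  refine alg_of_jac (fun X => gf S [X]) (sysP S) (fun X => ?_) (det_ne ρ _ fun X Y h => ?_) X
  · rw [gf_eq hS X]
    unfold sysP
    rw [map_sum]
    refine Finset.sum_congr (by congr) fun r _ => ?_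
    rw [map_mul, MvPolynomial.aeval_C, map_list_prod, List.map_map, gf_prod hS (S.rhs r)]
    congr 1
    · rw [PowerSeries.algebraMap_apply']
      simp
    · congr 1
      refine List.map_congr_left fun y _ => ?_
      simp
  · obtain ⟨r, u, v, h1, h2, h3, h4⟩ := const_entry S (fun X => gf S [X]) X Y h
    have h5 := hρ r u v Y h2 h3 fun z hz => gf_const (h4 z hz)
    rwa [h1] at h5

end Pool.Agent.Lib.IXD
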