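import Pool.Agent.Lib.IXD.Sys

/-!
# Row CSh: a relation between the powers f^(3^j)

Words: f algebraic over K = Frac of the polynomials inside L = Frac of the power series; K(f) is finite dimensional, so the
f^(3^j), j = 0, ..., d, are linearly dependent over K; clear denominators (or: work with the A-module spanned by the powers of f,
or with `IsAlgebraic` and degrees). The relation holds in L, hence in the power series.
-/

set_option autoImplicit false

namespace Pool.Agent.Lib.IXD

private theorem map_coe (p : Polynomial (ZMod 3)) :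
    algebraMap (Polynomial (ZMod 3)) (PowerSeries (ZMod 3)) p = (p : PowerSeries (ZMod 3)) := by
  rw [PowerSeries.algebraMap_apply']
  ext n
  simp

theorem rel_of_alg {f : PowerSeries (ZMod 3)} (hf : IsAlgebraic (Polynomial (ZMod 3)) f) :
    ∃ (t : ℕ) (a : ℕ → Polynomial (ZMod 3)), (∃ j ∈ Finset.range (t + 1), a j ≠ 0) ∧
      ∑ j ∈ Finset.range (t + 1), ((a j : PowerSeries (ZMod 3)) * f ^ 3 ^ j) = 0 := by
  have hinj : Function.Injective (algebraMap (Polynomial (ZMod 3)) (PowerSeries (ZMod 3))) := by
    intro p q h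
    rw [map_coe, map_coe] at h
    exact Polynomial.coe_injective _ h
  have hinjL : Function.Injective
      (algebraMap (PowerSeries (ZMod 3)) (FractionRing (PowerSeries (ZMod 3)))) :=
    IsFractionRing.injective _ _
  have hAL : Function.Injective
      (algebraMap (Polynomial (ZMod 3)) (FractionRing (PowerSeries (ZMod 3)))) := by
    rw [IsScalarTower.algebraMap_eq (Polynomial (ZMod 3)) (PowerSeries (ZMod 3))
      (FractionRing (PowerSeries (ZMod 3)))]
    exact hinjL.comp hinj
  have : FaithfulSMul (Polynomial (ZMod 3)) (FractionRing (PowerSeries (ZMod 3))) :=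
    (faithfulSMul_iff_algebraMap_injective _ _).2 hAL
  let _ : Algebra (FractionRing (Polynomial (ZMod 3))) (FractionRing (PowerSeries (ZMod 3))) :=
    FractionRing.liftAlgebra _ _
  have : IsScalarTower (Polynomial (ZMod 3)) (FractionRing (Polynomial (ZMod 3)))
      (FractionRing (PowerSeries (ZMod 3))) := FractionRing.isScalarTower_liftAlgebra _ _
  set x : FractionRing (PowerSeries (ZMod 3)) := algebraMap _ _ f with hx
  have h1 : IsAlgebraic (Polynomial (ZMod 3)) x := hf.algebraMap
  have h2 : IsAlgebraic (FractionRing (Polynomial (ZMod 3))) x :=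
    (IsFractionRing.isAlgebraic_iff (Polynomial (ZMod 3)) (FractionRing (Polynomial (ZMod 3)))
      (FractionRing (PowerSeries (ZMod 3)))).1 h1
  have h3 := h2.isIntegral.fg_adjoin_singleton
  have : Module.Finite (FractionRing (Polynomial (ZMod 3)))
      (Algebra.adjoin (FractionRing (Polynomial (ZMod 3))) {x}) := Module.Finite.iff_fg.2 h3
  have hxm : x ∈ Algebra.adjoin (FractionRing (Polynomial (ZMod 3))) {x} :=
    Algebra.subset_adjoin rfl
  set d := Module.finrank (FractionRing (Polynomial (ZMod 3)))
      (Algebra.adjoin (FractionRing (Polynomial (ZMod 3))) {x}) with hd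
  have hdep : ¬ LinearIndependent (FractionRing (Polynomial (ZMod 3)))
      (fun j : Fin (d + 1) => (⟨x ^ 3 ^ (j : ℕ), pow_mem hxm _⟩ :
        Algebra.adjoin (FractionRing (Polynomial (ZMod 3))) {x})) := by
    intro h
    have := h.fintype_card_le_finrank
    rw [Fintype.card_fin] at this
    omega
  obtain ⟨g, hg, i, hi⟩ := Fintype.not_linearIndependent_iff.1 hdep
  have hg' : ∑ j : Fin (d + 1), g j • x ^ 3 ^ (j : ℕ) = 0 := by
    have := congrArg (Subtype.val) hg
    simpa using this
  obtain ⟨b, hb⟩ := IsLocalization.exist_integer_multiples_of_finite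
    (nonZeroDivisors (Polynomial (ZMod 3))) g
  choose a ha using hb
  have hb0 : (b : Polynomial (ZMod 3)) ≠ 0 := nonZeroDivisors.coe_ne_zero b
  refine ⟨d, fun j => if h : j < d + 1 then a ⟨j, h⟩ else 0, ⟨i, Finset.mem_range.2 i.2, ?_⟩, ?_⟩
  · simp only [dif_pos i.2]
    intro h0
    have h4 := ha i
    rw [h0, map_zero] at h4
    have h5 := h4.symm
    rw [Algebra.smul_def, mul_eq_zero] at h5
    rcases h5 with h5 | h5
    · exact hb0 ((IsFractionRing.injective (Polynomial (ZMod 3))
        (FractionRing (Polynomial (ZMod 3)))) (by rw [h5, map_zero]))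
    · exact hi h5
  · apply hinjL
    rw [map_zero, Finset.sum_range, map_sum]
    have h6 : ∀ j : Fin (d + 1), algebraMap (PowerSeries (ZMod 3)) (FractionRing (PowerSeries (ZMod 3)))
        (((if h : (j : ℕ) < d + 1 then a ⟨j, h⟩ else 0 : Polynomial (ZMod 3)) : PowerSeries (ZMod 3)) *
          f ^ 3 ^ (j : ℕ)) = (b : Polynomial (ZMod 3)) • (g j • x ^ 3 ^ (j : ℕ)) := by
      intro j
      rw [dif_pos j.2, map_mul, map_pow, ← hx, ← map_coe, ← IsScalarTower.algebraMap_apply,
        IsScalarTower.algebraMap_apply (Polynomial (ZMod 3)) (FractionRing (Polynomial (ZMod 3)))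
          (FractionRing (PowerSeries (ZMod 3))), ha j, ← Algebra.smul_def, smul_assoc]
    rw [Finset.sum_congr rfl fun j _ => h6 j, ← Finset.smul_sum, hg', smul_zero]

end Pool.Agent.Lib.IXD
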