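import Pool.Agent.Lib.IXD.Sys

/-!
# Row CSi: the Cartier operators

Words: the coefficients of u^3 are those of u at the multiples of 3 (Frobenius of ZMod 3: c^3 = c; `PowerSeries` in
characteristic 3: u^3 = u(x^3), prove by coefficients or via `expand`/`subst`; e.g. for truncations, polynomials:
`Polynomial.expand_char` / `ZMod.expand_card`). Then coeff (3 n + r) (u^3 * e) = sum over i of coeff i u * coeff (3 (n - i) + r) e.
-/

set_option autoImplicit false

namespace Pool.Agent.Lib.IXD

private theorem csi_cube (u : PowerSeries (ZMod 3)) : u ^ 3 = PowerSeries.expand 3 (by norm_num) u := by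
  have h := MvPowerSeries.map_frobenius_expand (R := ZMod 3) (σ := Unit) 3 (by norm_num) (f := u)
  rw [ZMod.frobenius_zmod] at h
  exact h.symm

theorem car_add (r : ℕ) (f g : PowerSeries (ZMod 3)) : car r (f + g) = car r f + car r g := by
  ext n
  simp [car]

theorem car_sum (r : ℕ) {ι : Type} (s : Finset ι) (f : ι → PowerSeries (ZMod 3)) :
    car r (∑ i ∈ s, f i) = ∑ i ∈ s, car r (f i) := by
  ext n
  simp [car, map_sum]

/-- the main property -/
theorem car_cube (r : ℕ) (hr : r < 3) (u e : PowerSeries (ZMod 3)) : car r (e * u ^ 3) = car r e * u := by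
  ext n
  rw [csi_cube]
  have h1 : PowerSeries.coeff n (car r (e * PowerSeries.expand 3 (by norm_num) u)) =
      PowerSeries.coeff (3 * n + r) (e * PowerSeries.expand 3 (by norm_num) u) := by
    simp [car]
  rw [h1, PowerSeries.coeff_mul, PowerSeries.coeff_mul]
  symm
  refine Finset.sum_of_injOn (fun z : ℕ × ℕ => (3 * z.1 + r, 3 * z.2)) ?_ ?_ ?_ ?_
  · rintro ⟨a, b⟩ _ ⟨c, d⟩ _ h
    simp only [Prod.mk.injEq] at h ⊢
    omega
  · rintro ⟨a, b⟩ h
    rw [Finset.mem_coe, Finset.HasAntidiagonal.mem_antidiagonal] at h ⊢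
    have h' : a + b = n := h
    show 3 * a + r + 3 * b = 3 * n + r
    omega
  · rintro ⟨a, b⟩ h h2
    rw [Finset.HasAntidiagonal.mem_antidiagonal] at h
    have h' : a + b = 3 * n + r := h
    by_cases hb : 3 ∣ b
    · exfalso
      obtain ⟨k, rfl⟩ := hb
      refine h2 ⟨(n - k, k), ?_, ?_⟩
      · rw [Finset.mem_coe, Finset.HasAntidiagonal.mem_antidiagonal]
        show n - k + k = n
        omega
      · simp only [Prod.mk.injEq, and_true]
        omega
    · show PowerSeries.coeff a e * PowerSeries.coeff b (PowerSeries.expand 3 (by norm_num) u) = 0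
      rw [PowerSeries.coeff_expand_of_not_dvd 3 (by norm_num) u hb, mul_zero]
  · rintro ⟨a, b⟩ _
    show PowerSeries.coeff a (car r e) * PowerSeries.coeff b u =
      PowerSeries.coeff (3 * a + r) e * PowerSeries.coeff (3 * b) (PowerSeries.expand 3 (by norm_num) u)
    rw [PowerSeries.coeff_expand_mul]
    simp [car]

/-- polynomials -/
theorem car_poly (r : ℕ) (p : Polynomial (ZMod 3)) : ∃ q : Polynomial (ZMod 3),
    car r (p : PowerSeries (ZMod 3)) = (q : PowerSeries (ZMod 3)) ∧ 3 * q.natDegree ≤ p.natDegree := by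
  obtain ⟨q, hq⟩ : ∃ q : Polynomial (ZMod 3), q = ∑ i ∈ Finset.range (p.natDegree / 3 + 1),
      Polynomial.monomial i (p.coeff (3 * i + r)) := ⟨_, rfl⟩
  have hc : ∀ n, q.coeff n = p.coeff (3 * n + r) := by
    intro n
    rw [hq, Polynomial.finsetSum_coeff]
    simp only [Polynomial.coeff_monomial]
    rw [Finset.sum_ite_eq']
    split_ifs with h
    · rfl
    · rw [Finset.mem_range] at h
      symm
      refine Polynomial.coeff_eq_zero_of_natDegree_lt ?_
      omega
  refine ⟨q, ?_, ?_⟩
  · ext n
    simp [car, hc]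
  · have h1 : q.natDegree ≤ p.natDegree / 3 := by
      rw [Polynomial.natDegree_le_iff_coeff_eq_zero]
      intro n hn
      rw [hc]
      refine Polynomial.coeff_eq_zero_of_natDegree_lt ?_
      omega
    omega

theorem car_ne {p : PowerSeries (ZMod 3)} (hp : p ≠ 0) : ∃ r < 3, car r p ≠ 0 := by
  obtain ⟨n, hn⟩ : ∃ n, PowerSeries.coeff n p ≠ 0 := by
    by_contra h
    push Not at h
    exact hp (PowerSeries.ext fun n => by rw [h n, map_zero])
  refine ⟨n % 3, Nat.mod_lt _ (by norm_num), fun h => hn ?_⟩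
  have h1 := congrArg (PowerSeries.coeff (n / 3)) h
  have h2 : PowerSeries.coeff (n / 3) (car (n % 3) p) = PowerSeries.coeff (3 * (n / 3) + n % 3) p := by
    simp [car]
  rw [h2, Nat.div_add_mod, map_zero] at h1
  exact h1

end Pool.Agent.Lib.IXD
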