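import Pool.Agent.Lib.IXD.CSi

/-!
# Row CSj: a relation with a_0 different from 0

Words: induction on the least j with a_j ≠ 0. If it is 0, done. Otherwise all terms are a_j * (f^(3^(j-1)))^3, apply car r with
car r (a_j) ≠ 0 for the least j (`car_ne`, `car_poly`): by `car_cube` the sum over j ≥ 1 of car r (a_j) * f^(3^(j-1)) is 0, a relation
with the least index j - 1.
-/

set_option autoImplicit false

namespace Pool.Agent.Lib.IXD

private theorem csj_zero (r : ℕ) : car r 0 = 0 := by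
  have h := car_add r 0 0
  rw [add_zero] at h
  have h2 : car r 0 + 0 = car r 0 + car r 0 := by rw [add_zero]; exact h
  exact (add_left_cancel h2).symm

private theorem csj_step {f : PowerSeries (ZMod 3)} : ∀ (m t : ℕ) (a : ℕ → Polynomial (ZMod 3)), m ≤ t →
    (∀ j < m, a j = 0) → a m ≠ 0 →
    ∑ j ∈ Finset.range (t + 1), ((a j : PowerSeries (ZMod 3)) * f ^ 3 ^ j) = 0 →
    ∃ (t' : ℕ) (a' : ℕ → Polynomial (ZMod 3)), a' 0 ≠ 0 ∧
      ∑ j ∈ Finset.range (t' + 1), ((a' j : PowerSeries (ZMod 3)) * f ^ 3 ^ j) = 0 := by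
  intro m
  induction m with
  | zero =>
    intro t a _ _ h0 h
    exact ⟨t, a, h0, h⟩
  | succ m ih =>
    intro t a hmt hz hne h
    have ha0 : a 0 = 0 := hz 0 (Nat.succ_pos m)
    have hne' : (a (m + 1) : PowerSeries (ZMod 3)) ≠ 0 := fun h1 => hne (Polynomial.coe_eq_zero_iff.1 h1)
    obtain ⟨r, hr, hcr⟩ := car_ne hne'
    have hb : ∀ j : ℕ, ∃ q : Polynomial (ZMod 3), car r (a (j + 1) : PowerSeries (ZMod 3)) = (q : PowerSeries (ZMod 3)) := by
      intro j
      obtain ⟨q, hq, -⟩ := car_poly r (a (j + 1))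
      exact ⟨q, hq⟩
    choose b hb using hb
    refine ih (t - 1) b (by omega) ?_ ?_ ?_
    · intro j hj
      have h1 := hb j
      rw [hz (j + 1) (by omega), Polynomial.coe_zero, csj_zero] at h1
      exact Polynomial.coe_eq_zero_iff.1 h1.symm
    · intro h1
      apply hcr
      rw [hb m, h1, Polynomial.coe_zero]
    · rw [Finset.sum_range_succ', ha0, Polynomial.coe_zero, zero_mul, add_zero] at h
      have h1 := congrArg (car r) h
      rw [csj_zero, car_sum] at h1
      rw [Nat.sub_add_cancel (by omega : 1 ≤ t)]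
      rw [← h1]
      refine Finset.sum_congr rfl fun j _ => ?_
      rw [pow_succ, pow_mul, car_cube r hr, hb j]

theorem rel_zero {f : PowerSeries (ZMod 3)} {t : ℕ} {a : ℕ → Polynomial (ZMod 3)} (ha : ∃ j ∈ Finset.range (t + 1), a j ≠ 0)
    (h : ∑ j ∈ Finset.range (t + 1), ((a j : PowerSeries (ZMod 3)) * f ^ 3 ^ j) = 0) :
    ∃ (t' : ℕ) (a' : ℕ → Polynomial (ZMod 3)), a' 0 ≠ 0 ∧
      ∑ j ∈ Finset.range (t' + 1), ((a' j : PowerSeries (ZMod 3)) * f ^ 3 ^ j) = 0 := by
  classical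
  have hex : ∃ j, j < t + 1 ∧ a j ≠ 0 := by
    obtain ⟨j, hj, hj0⟩ := ha
    exact ⟨j, Finset.mem_range.1 hj, hj0⟩
  obtain ⟨h1, h2⟩ := Nat.find_spec hex
  refine csj_step (Nat.find hex) t a (Nat.lt_succ_iff.1 h1) ?_ h2 h
  intro j hj
  by_contra hne
  exact Nat.find_min hex hj ⟨by omega, hne⟩

end Pool.Agent.Lib.IXD
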