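import Pool.Agent.Lib.IXD.CSi

/-!
# Row CSk: a finite set closed under the Cartier operators

Words: b_j := - a_j (j ≥ 1), A := a_0, so A f = sum over j = 1..t of b_j f^(3^j); we may take t ≥ 1 (add a zero term). Let
H_M = the set of the y such that for some polynomials h_0, ..., h_t of degree ≤ M: A^(3^t) y = sum over j = 0..t of
h_j A^(3^t - 3^j) f^(3^j). H_M is finite: y is determined by the h_j (A ≠ 0, no zero divisors) and there are finitely many polynomials of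
degree ≤ M over ZMod 3. f is in H_M if M ≥ deg A (h_0 = A, other h_j = 0). If M ≥ the degree of A^(3^j - 2) b_j for j = 1..t
then H_M is closed under car r, r < 3: h_0 A^(3^t - 1) f = h_0 A^(3^t - 2) (A f) = sum over j ≥ 1 of h_0 A^(3^j - 2) b_j A^(3^t - 3^j) f^(3^j),
so A^(3^t) y = sum over j ≥ 1 of e_j (A^(3^(t-1) - 3^(j-1)) f^(3^(j-1)))^3 with e_j = h_j + h_0 A^(3^j - 2) b_j of degree ≤ 3 M; apply car r
(`car_cube`, on the left (A^(3^(t-1)))^3 y): A^(3^(t-1)) car r y = sum of car r e_j * A^(3^(t-1) - 3^(j-1)) f^(3^(j-1)), and multiply by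
A^(3^t - 3^(t-1)): the new coefficients are car r (e_(i+1)), i = 0..t-1, of degree ≤ M (`car_poly`), and 0 for i = t.
-/

set_option autoImplicit false

namespace Pool.Agent.Lib.IXD

private theorem csk_neg (p : Polynomial (ZMod 3)) :
    ((-p : Polynomial (ZMod 3)) : PowerSeries (ZMod 3)) = -(p : PowerSeries (ZMod 3)) := by
  ext n
  simp

private theorem csk_pow (s i : ℕ) (hi : i < s + 1) :
    3 ^ (s + 1) - 3 ^ (i + 1) = (3 ^ s - 3 ^ i) * 3 ∧ 3 ^ (s + 1) - 3 ^ s + (3 ^ s - 3 ^ i) = 3 ^ (s + 1) - 3 ^ i ∧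
      3 ^ (i + 1) - 2 + (3 ^ (s + 1) - 3 ^ (i + 1)) + 1 = 3 ^ (s + 1) - 1 ∧ 3 ^ (s + 1) - 1 + 1 = 3 ^ (s + 1) := by
  have h1 : 3 ^ i ≤ 3 ^ s := Nat.pow_le_pow_right (by norm_num) (by omega)
  have h2 : 1 ≤ 3 ^ i := Nat.one_le_pow _ _ (by norm_num)
  have h3 : 3 ^ (s + 1) = 3 ^ s * 3 := pow_succ 3 s
  have h4 : 3 ^ (i + 1) = 3 ^ i * 3 := pow_succ 3 i
  omega

/-- the set of the `y` with `A^(3^t) y = ∑ h_j A^(3^t - 3^j) f^(3^j)`, `h_j` of degree at most `M` -/
private def cskH (f : PowerSeries (ZMod 3)) (A : Polynomial (ZMod 3)) (t M : ℕ) :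
    Set (PowerSeries (ZMod 3)) :=
  {y | ∃ g : ℕ → Polynomial (ZMod 3), (∀ j, (g j).natDegree ≤ M) ∧
    (A : PowerSeries (ZMod 3)) ^ 3 ^ t * y = ∑ j ∈ Finset.range (t + 1),
      ((g j : PowerSeries (ZMod 3)) * ((A : PowerSeries (ZMod 3)) ^ (3 ^ t - 3 ^ j) * f ^ 3 ^ j))}

private theorem cskH_finite (f : PowerSeries (ZMod 3)) (A : Polynomial (ZMod 3)) (hA : A ≠ 0)
    (t M : ℕ) : (cskH f A t M).Finite := by
  have : Finite (Polynomial.degreeLT (ZMod 3) (M + 1)) :=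
    Finite.of_equiv _ (Polynomial.degreeLTEquiv (ZMod 3) (M + 1)).toEquiv.symm
  let Φ : (Fin (t + 1) → Polynomial.degreeLT (ZMod 3) (M + 1)) → PowerSeries (ZMod 3) := fun g =>
    ∑ j : Fin (t + 1), (((g j).1 : PowerSeries (ZMod 3)) *
      ((A : PowerSeries (ZMod 3)) ^ (3 ^ t - 3 ^ (j : ℕ)) * f ^ 3 ^ (j : ℕ)))
  have hA' : (A : PowerSeries (ZMod 3)) ^ 3 ^ t ≠ 0 :=
    pow_ne_zero _ (fun h => hA (Polynomial.coe_eq_zero_iff.1 h))
  have hinj : Function.Injective fun y : PowerSeries (ZMod 3) =>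
      (A : PowerSeries (ZMod 3)) ^ 3 ^ t * y := fun x y hxy => mul_left_cancel₀ hA' hxy
  refine ((Set.finite_range Φ).preimage hinj.injOn).subset ?_
  rintro y ⟨g, hg, hy⟩
  refine ⟨fun j => ⟨g j, ?_⟩, ?_⟩
  · rw [Polynomial.mem_degreeLT]
    refine lt_of_le_of_lt Polynomial.degree_le_natDegree ?_
    exact_mod_cast Nat.lt_succ_of_le (hg j)
  · show ∑ j : Fin (t + 1), _ = (A : PowerSeries (ZMod 3)) ^ 3 ^ t * y
    rw [hy, Finset.sum_range]

private theorem cskH_self (f : PowerSeries (ZMod 3)) (A : Polynomial (ZMod 3))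
    (t M : ℕ) (hM : A.natDegree ≤ M) : f ∈ cskH f A t M := by
  refine ⟨fun j => if j = 0 then A else 0, ?_, ?_⟩
  · intro j
    dsimp only
    split_ifs
    · exact hM
    · simp
  · rw [Finset.sum_eq_single 0]
    · dsimp only
      rw [if_pos rfl, pow_zero, pow_one, ← mul_assoc, ← pow_succ', Nat.sub_add_cancel
        (Nat.one_le_pow _ _ (by norm_num))]
    · intro j _ hj
      dsimp only
      rw [if_neg hj, Polynomial.coe_zero, zero_mul]
    · intro h0
      exact absurd (Finset.mem_range.2 (Nat.succ_pos t)) h0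

theorem closed_set {f : PowerSeries (ZMod 3)} {t : ℕ} {a : ℕ → Polynomial (ZMod 3)} (ha : a 0 ≠ 0)
    (h : ∑ j ∈ Finset.range (t + 1), ((a j : PowerSeries (ZMod 3)) * f ^ 3 ^ j) = 0) :
    ∃ H : Set (PowerSeries (ZMod 3)), H.Finite ∧ f ∈ H ∧ ∀ y ∈ H, ∀ r < 3, car r y ∈ H := by
  rcases Nat.eq_zero_or_pos t with rfl | ht
  · have hf : f = 0 := by
      rw [Finset.sum_range_one, pow_zero, pow_one] at h
      rcases mul_eq_zero.1 h with h | h
      · exact absurd (Polynomial.coe_eq_zero_iff.1 h) ha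
      · exact h
    refine ⟨{0}, Set.finite_singleton 0, hf, ?_⟩
    rintro y hy r -
    rw [Set.mem_singleton_iff] at hy ⊢
    rw [hy]
    have h1 := car_add r 0 0
    rw [add_zero] at h1
    exact left_eq_add.1 h1
  obtain ⟨s, rfl⟩ : ∃ s, t = s + 1 := ⟨t - 1, by omega⟩
  obtain ⟨A, hA⟩ : ∃ A, A = a 0 := ⟨_, rfl⟩
  rw [← hA] at ha
  obtain ⟨c, hc⟩ : ∃ c : ℕ → Polynomial (ZMod 3), c = fun i => -(A ^ (3 ^ (i + 1) - 2) * a (i + 1)) :=
    ⟨_, rfl⟩
  obtain ⟨M, hM⟩ : ∃ M, M = A.natDegree + ∑ i ∈ Finset.range (s + 1), (c i).natDegree := ⟨_, rfl⟩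
  have hM1 : A.natDegree ≤ M := by rw [hM]; exact Nat.le_add_right _ _
  have hM2 : ∀ i ∈ Finset.range (s + 1), (c i).natDegree ≤ M := by
    intro i hi
    rw [hM]
    exact le_trans (Finset.single_le_sum (f := fun i => (c i).natDegree) (fun _ _ => Nat.zero_le _) hi)
      (Nat.le_add_left _ _)
  refine ⟨cskH f A (s + 1) M, cskH_finite f A ha _ _, cskH_self f A _ M hM1, ?_⟩
  rintro y ⟨g, hg, hy⟩ r hr
  -- the relation for `f`
  have hrel : (A : PowerSeries (ZMod 3)) ^ (3 ^ (s + 1) - 1) * f = ∑ i ∈ Finset.range (s + 1),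
      ((c i : PowerSeries (ZMod 3)) * ((A : PowerSeries (ZMod 3)) ^ (3 ^ (s + 1) - 3 ^ (i + 1)) *
        f ^ 3 ^ (i + 1))) := by
    rw [Finset.sum_range_succ', pow_zero, pow_one, ← hA] at h
    have h1 : (A : PowerSeries (ZMod 3)) * f =
        - ∑ i ∈ Finset.range (s + 1), ((a (i + 1) : PowerSeries (ZMod 3)) * f ^ 3 ^ (i + 1)) := by
      rw [eq_neg_iff_add_eq_zero, add_comm]
      exact h
    have h2 : 3 ^ (s + 1) - 1 = (3 ^ (s + 1) - 2) + 1 := by
      have := Nat.one_le_pow s 3 (by norm_num)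
      have := pow_succ 3 s
      omega
    rw [h2, pow_succ, mul_assoc, h1, mul_neg, Finset.mul_sum, ← Finset.sum_neg_distrib]
    refine Finset.sum_congr rfl fun i hi => ?_
    obtain ⟨-, -, h3, -⟩ := csk_pow s i (Finset.mem_range.1 hi)
    have h4 : 3 ^ (s + 1) - 2 = (3 ^ (i + 1) - 2) + (3 ^ (s + 1) - 3 ^ (i + 1)) := by omega
    rw [hc]
    dsimp only
    rw [csk_neg, Polynomial.coe_mul, Polynomial.coe_pow, h4, pow_add]
    ring
  -- the new coefficients
  have he : ∀ i ∈ Finset.range (s + 1), (g (i + 1) + g 0 * c i).natDegree ≤ 2 * M := by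
    intro i hi
    refine le_trans (Polynomial.natDegree_add_le _ _) (max_le ?_ ?_)
    · have := hg (i + 1)
      omega
    · refine le_trans Polynomial.natDegree_mul_le ?_
      have h1 := hg 0
      have h2 := hM2 i hi
      omega
  choose q hq1 hq2 using fun i => car_poly r (g (i + 1) + g 0 * c i)
  have hy2 : (A : PowerSeries (ZMod 3)) ^ 3 ^ (s + 1) * y = ∑ i ∈ Finset.range (s + 1),
      (((g (i + 1) + g 0 * c i : Polynomial (ZMod 3)) : PowerSeries (ZMod 3)) *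
        ((A : PowerSeries (ZMod 3)) ^ (3 ^ s - 3 ^ i) * f ^ 3 ^ i) ^ 3) := by
    rw [hy, Finset.sum_range_succ', pow_zero, pow_one, hrel, Finset.mul_sum, ← Finset.sum_add_distrib]
    refine Finset.sum_congr rfl fun i hi => ?_
    obtain ⟨h3, -, -, -⟩ := csk_pow s i (Finset.mem_range.1 hi)
    rw [Polynomial.coe_add, Polynomial.coe_mul, h3, mul_pow, ← pow_mul, ← pow_mul, ← pow_succ]
    ring
  have hy3 : car r y * (A : PowerSeries (ZMod 3)) ^ 3 ^ s = ∑ i ∈ Finset.range (s + 1),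
      ((q i : PowerSeries (ZMod 3)) * ((A : PowerSeries (ZMod 3)) ^ (3 ^ s - 3 ^ i) * f ^ 3 ^ i)) := by
    rw [← car_cube r hr, ← pow_mul, ← pow_succ, mul_comm y, hy2, car_sum]
    refine Finset.sum_congr rfl fun i _ => ?_
    rw [car_cube r hr, hq1]
  refine ⟨fun i => if i < s + 1 then q i else 0, ?_, ?_⟩
  · intro i
    dsimp only
    split_ifs with hi
    · have h1 := he i (Finset.mem_range.2 hi)
      have h2 := hq2 i
      omega
    · simp
  · rw [Finset.sum_range_succ]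
    dsimp only
    rw [if_neg (lt_irrefl _), Polynomial.coe_zero, zero_mul, add_zero]
    have h5 : (A : PowerSeries (ZMod 3)) ^ 3 ^ (s + 1) * car r y =
        (A : PowerSeries (ZMod 3)) ^ (3 ^ (s + 1) - 3 ^ s) * (car r y * (A : PowerSeries (ZMod 3)) ^ 3 ^ s) := by
      have h6 : 3 ^ (s + 1) = 3 ^ (s + 1) - 3 ^ s + 3 ^ s := by
        have := pow_succ 3 s
        omega
      conv_lhs => rw [h6, pow_add]
      ring
    rw [h5, hy3, Finset.mul_sum]
    refine Finset.sum_congr rfl fun i hi => ?_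
    obtain ⟨-, h3, -, -⟩ := csk_pow s i (Finset.mem_range.1 hi)
    rw [if_pos (Finset.mem_range.1 hi), ← h3, pow_add]
    ring

end Pool.Agent.Lib.IXD
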