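import Pool.Agent.Lib.IXD.CSi

/-!
# Row CSl: from a finite closed set to a finite kernel

Words: by induction on s: for r < 3^s the series mk (n -> coeff (3^s n + r) f) is in H: write r = 3 r' + c... the kernel function for
(s + 1, r) with r = 3^s c + r₀ (c < 3, r₀ < 3^s) is car c of the one for (s, r₀), since 3^(s+1) n + r = 3^s (3 n + c) + r₀.
So the kernel is contained in the image of H under y -> (n -> coeff n y).
-/

set_option autoImplicit false

namespace Pool.Agent.Lib.IXD

theorem finker_of_closed {f : PowerSeries (ZMod 3)} {H : Set (PowerSeries (ZMod 3))} (hH : H.Finite) (hf : f ∈ H)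
    (hc : ∀ y ∈ H, ∀ r < 3, car r y ∈ H) : FinKer fun n => PowerSeries.coeff n f := by
  have key : ∀ s r : ℕ, r < 3 ^ s →
      PowerSeries.mk (fun n => PowerSeries.coeff (3 ^ s * n + r) f) ∈ H := by
    intro s
    induction s with
    | zero =>
      intro r hr
      have h0 : r = 0 := by simpa using hr
      subst h0
      have e : PowerSeries.mk (fun n => PowerSeries.coeff (3 ^ 0 * n + 0) f) = f := by
        ext n
        simp
      rw [e]
      exact hf
    | succ s ih =>
      intro r hr
      have hpos : 0 < 3 ^ s := by positivity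
      have hc3 : r / 3 ^ s < 3 := by
        rw [Nat.div_lt_iff_lt_mul hpos]
        rw [pow_succ] at hr
        omega
      have h1 := hc _ (ih (r % 3 ^ s) (Nat.mod_lt _ hpos)) (r / 3 ^ s) hc3
      have e : PowerSeries.mk (fun n => PowerSeries.coeff (3 ^ (s + 1) * n + r) f) =
          car (r / 3 ^ s) (PowerSeries.mk (fun n => PowerSeries.coeff (3 ^ s * n + r % 3 ^ s) f)) := by
        ext n
        unfold car
        rw [PowerSeries.coeff_mk, PowerSeries.coeff_mk, PowerSeries.coeff_mk]
        have e1 : 3 ^ s * (3 * n + r / 3 ^ s) + r % 3 ^ s = 3 ^ (s + 1) * n + r := by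
          have e2 := Nat.div_add_mod r (3 ^ s)
          calc 3 ^ s * (3 * n + r / 3 ^ s) + r % 3 ^ s
              = 3 ^ (s + 1) * n + (3 ^ s * (r / 3 ^ s) + r % 3 ^ s) := by ring
            _ = 3 ^ (s + 1) * n + r := by rw [e2]
        rw [e1]
      rw [e]
      exact h1
  refine (hH.image (fun y n => PowerSeries.coeff n y)).subset ?_
  rintro g ⟨s, r, hr, rfl⟩
  refine ⟨_, key s r hr, ?_⟩
  funext n
  exact PowerSeries.coeff_mk n _

end Pool.Agent.Lib.IXD
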