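import Pool.Agent.Lib.IXD.CSd
import Pool.Agent.Lib.IXD.CSg
import Pool.Agent.Lib.IXD.CSh
import Pool.Agent.Lib.IXD.CSj
import Pool.Agent.Lib.IXD.CSk
import Pool.Agent.Lib.IXD.CSl

/-!
# The counts of a finite system modulo 3 have a finite 3-kernel
-/

set_option autoImplicit false

namespace Pool.Agent.Lib.IXD

theorem cs_main {N R : Type} [Finite N] [Finite R] (S : Sys N R) (X₀ : N)
    (hfin : ∀ n, {l : List R | CD S [X₀] l n}.Finite) : FinKer (cnt3 S X₀) := by
  by_cases hex : ∃ l n, CD S [X₀] l n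
  · obtain ⟨N', R', hN, hR, S', X₀', hS, hp, he⟩ := trim S X₀ hfin hex
    obtain ⟨t, a, ha, h⟩ := rel_of_alg (sys_alg hS hp X₀')
    obtain ⟨t', a', ha', h'⟩ := rel_zero ha h
    obtain ⟨H, h1, h2, h3⟩ := closed_set ha' h'
    have h4 := finker_of_closed h1 h2 h3
    have h5 : (fun n => PowerSeries.coeff n (gf S' [X₀'])) = cnt3 S X₀ := by
      funext n
      rw [gf, PowerSeries.coeff_mk, ← he]
      rfl
    rw [h5] at h4
    exact h4
  · have h0 : cnt3 S X₀ = fun _ => 0 := by
      funext n
      unfold cnt3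
      have h1 : {l : List R | CD S [X₀] l n} = ∅ := by
        ext l
        constructor
        · intro h
          exact (hex ⟨l, n, h⟩).elim
        · intro h
          cases h
      rw [h1, Set.ncard_empty, Nat.cast_zero]
    rw [h0]
    refine (Set.finite_singleton (fun _ => (0 : ZMod 3))).subset ?_
    rintro g ⟨s, r, -, rfl⟩
    rfl

end Pool.Agent.Lib.IXD
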