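import Pool.Agent.Lib.IXD.HDef

/-!
# Derivations as sequences of sentential forms; removing superfluous productions
-/

set_option autoImplicit false

namespace Pool.Agent.Lib.IXD

open Pool.Agent.Lib.IXB Pool.Agent.Lib.IXB.Fi

/-- leftmost derivations, given by their sequences of sentential forms: `FDer G Fs F F'` if the leftmost derivation
`F ⇒ F₁ ⇒ ... ⇒ Fₙ = F'` has `Fs = [F₁, ..., Fₙ]` -/
inductive FDer {T : Type} (G : IG T) : List (Form G.V G.I T) → Form G.V G.I T → Form G.V G.I T → Prop
  | nil (F : Form G.V G.I T) : FDer G [] F F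
  | cons {p : Rule G.V G.I T} {Fs : List (Form G.V G.I T)} {F F' F'' : Form G.V G.I T} :
      G.LStep p F F' → FDer G Fs F' F'' → FDer G (F' :: Fs) F F''

/-- the words with at least two leftmost derivations which are different as sequences of sentential forms -/
def Amb {T : Type} (G : IG T) : Set (List T) :=
  {u | ∃ Fs Fs', Fs ≠ Fs' ∧ FDer G Fs [Sum.inl (G.start, [])] (u.map Sum.inr) ∧
    FDer G Fs' [Sum.inl (G.start, [])] (u.map Sum.inr)}

/-- the grammar without the productions `A_f → α`, `α` a terminal word, for which `A → α` is also a production -/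
def red {T : Type} (G : IG T) : IG T where
  V := G.V
  I := G.I
  finV := G.finV
  finI := G.finI
  start := G.start
  rules := G.rules \ {r | ∃ A f α, r = Rule.pop A f α ∧ vs α = [] ∧ Rule.rw A α ∈ G.rules}
  finR := G.finR.subset Set.diff_subset

end Pool.Agent.Lib.IXD
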