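import Pool.Agent.Lib.IXD.FDef

/-!
# Row Fa: two productions with the same effect

Words: a leftmost step is applied to the first variable, so the item X is the same (`left_unique` in Lib/IXB), the results Z are equal
(cancel). Cases on Act: att σ is injective on words; att (f :: σ) α = att σ α' has the same terminals at the same places and no
variables on both sides (stacks of different length), so α = α' and vs α = []. push gives one item with a longer stack.
(red) so in red G the production is determined by the step; LStep, Step, Pf, Index, Copies of red G are contained in those of G.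
-/

set_option autoImplicit false

namespace Pool.Agent.Lib.IXD

open Pool.Agent.Lib.IXB Pool.Agent.Lib.IXB.Fi

variable {T : Type} {G : IG T}

private theorem att_inj {V I T : Type} {σ : List I} {α α' : List (V ⊕ T)} (h : att σ α = att σ α') : α = α' := by
  refine List.map_injective_iff.2 ?_ h
  exact Sum.map_injective.2 ⟨fun a b hab => (Prod.mk.inj hab).1, Function.injective_id⟩

private theorem att_ne {V I T : Type} {σ τ : List I} (hne : σ ≠ τ) (α : List (V ⊕ T)) :
    ∀ α' : List (V ⊕ T), att σ α = att τ α' → α = α' ∧ vs α = [] := by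
  induction α with
  | nil =>
    intro α' h
    cases α' with
    | nil => exact ⟨rfl, rfl⟩
    | cons a α' => simp [att] at h
  | cons a α ih =>
    intro α' h
    cases α' with
    | nil => simp [att] at h
    | cons a' α' =>
      have h1 : Sum.map (fun A => (A, σ)) id a = Sum.map (fun A => (A, τ)) id a' ∧ att σ α = att τ α' :=
        List.cons.inj h
      obtain ⟨h3, h4⟩ := ih α' h1.2
      cases a with
      | inl B =>
        cases a' with
        | inl B' =>
          have h2 : (B, σ) = (B', τ) := Sum.inl.inj h1.1
          exact absurd (Prod.mk.inj h2).2 hne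
        | inr t => exact absurd h1.1 (by simp)
      | inr t =>
        cases a' with
        | inl B' => exact absurd h1.1 (by simp)
        | inr t' =>
          have h2 : t = t' := Sum.inr.inj h1.1
          exact ⟨by rw [h2, h3], h4⟩

private theorem att_single {V I T : Type} {σ τ : List I} {α : List (V ⊕ T)} {B : V}
    (h : att σ α = [Sum.inl (B, τ)]) : σ = τ := by
  cases α with
  | nil => simp [att] at h
  | cons a α =>
    have h1 : Sum.map (fun A => (A, σ)) id a = Sum.inl (B, τ) := (List.cons.inj h).1
    cases a with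
    | inl C =>
      have h2 : (C, σ) = (B, τ) := Sum.inl.inj h1
      exact (Prod.mk.inj h2).2
    | inr t => exact absurd h1 (by simp)

private theorem ne_cons {I : Type} (f : I) (σ : List I) : σ ≠ f :: σ := fun h => by
  have := congrArg List.length h
  simp at this

private theorem ne_cons2 {I : Type} (f g : I) (σ : List I) : σ ≠ f :: g :: σ := fun h => by
  have := congrArg List.length h
  rw [List.length_cons, List.length_cons] at this
  omega

private theorem act_eff {V I T : Type} {p p' : Rule V I T} {X : V × List I} {Z Z' : Form V I T} (h : Act p X Z)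
    (h' : Act p' X Z') (hZ : Z = Z') : p = p' ∨
    ∃ A f α, vs α = [] ∧ ((p = Rule.rw A α ∧ p' = Rule.pop A f α) ∨ (p = Rule.pop A f α ∧ p' = Rule.rw A α)) := by
  cases h with
  | rw A α σ =>
    cases h' with
    | rw A α' σ => exact Or.inl (by rw [att_inj hZ])
    | push A B f σ => exact absurd (att_single hZ) (ne_cons f σ)
    | pop A f α' σ' =>
      obtain ⟨h1, h2⟩ := att_ne (ne_cons f σ').symm α α' hZ
      exact Or.inr ⟨A, f, α, h2, Or.inl ⟨rfl, by rw [h1]⟩⟩
  | push A B f σ =>
    cases h' with
    | rw A α' σ => exact absurd (att_single hZ.symm) (ne_cons f σ)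
    | push A B' f' σ =>
      have h1 := Sum.inl.inj (List.cons.inj hZ).1
      obtain ⟨h2, h3⟩ := Prod.mk.inj h1
      exact Or.inl (by rw [h2, (List.cons.inj h3).1])
    | pop A g α' σ' => exact absurd (att_single hZ.symm) (ne_cons2 f g σ')
  | pop A f α σ =>
    cases h' with
    | rw A α' σ =>
      obtain ⟨h1, h2⟩ := att_ne (ne_cons f _) α α' hZ
      exact Or.inr ⟨A, f, α, h2, Or.inr ⟨rfl, by rw [h1]⟩⟩
    | push A B g σ => exact absurd (att_single hZ) (ne_cons2 g f _)
    | pop A f α' σ => exact Or.inl (by rw [att_inj hZ])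

theorem same_effect {p p' : Rule G.V G.I T} {F F' : Form G.V G.I T} (h : G.LStep p F F') (h' : G.LStep p' F F') : p = p' ∨
    ∃ A f α, vs α = [] ∧ ((p = Rule.rw A α ∧ p' = Rule.pop A f α) ∨ (p = Rule.pop A f α ∧ p' = Rule.rw A α)) := by
  obtain ⟨-, u, y, X, Z, hF, hA, hF'⟩ := h
  obtain ⟨-, u', y', X', Z', hF2, hA', hF2'⟩ := h'
  rw [hF] at hF2
  obtain ⟨h1, h2, h3⟩ := left_unique hF2
  subst h1 h2 h3
  rw [hF'] at hF2'
  exact act_eff hA hA' (List.append_cancel_right (List.append_cancel_left hF2'))

theorem red_unique {p p' : Rule G.V G.I T} {F F' : Form G.V G.I T} (h : (red G).LStep p F F')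
    (h' : (red G).LStep p' F F') : p = p' := by
  have h1 : G.LStep p F F' := ⟨h.1.1, h.2⟩
  have h2 : G.LStep p' F F' := ⟨h'.1.1, h'.2⟩
  rcases same_effect h1 h2 with h3 | ⟨A, f, α, hα, ⟨h3, h4⟩ | ⟨h3, h4⟩⟩
  · exact h3
  · exact absurd ⟨A, f, α, h4, hα, h3 ▸ h1.1⟩ h'.1.2
  · exact absurd ⟨A, f, α, h3, hα, h4 ▸ h2.1⟩ h.1.2

end Pool.Agent.Lib.IXD
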