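import Pool.Agent.Lib.IXD.FDef

/-!
# Row Fb: the language and the classes of red G

Words: every step of red G is a step of G; every step of G is a step of red G (if the production is a removed pop A f α, then A → α has
the same effect since α has no variables: att σ α = att (f :: σ) α). So lang is equal, Index passes to red G (Step equal), and
Copies passes to red G (Pf (red G) implies Pf G, by induction).
-/

set_option autoImplicit false

namespace Pool.Agent.Lib.IXD

open Pool.Agent.Lib.IXB Pool.Agent.Lib.IXB.Fi

variable {T : Type} {G : IG T} {k : ℕ}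

private theorem fb_rules {r : Rule G.V G.I T} (h : r ∈ (red G).rules) : r ∈ G.rules := by
  have h1 : r ∈ G.rules \ {r | ∃ A f α, r = Rule.pop A f α ∧ vs α = [] ∧ Rule.rw A α ∈ G.rules} := h
  exact h1.1

private theorem fb_att {V I : Type} (σ σ' : List I) : ∀ (α : List (V ⊕ T)), vs α = [] → att σ α = att σ' α := by
  intro α
  induction α with
  | nil => exact fun _ => rfl
  | cons a α ih =>
    intro h
    cases a with
    | inl B => exact absurd h (List.cons_ne_nil _ _)
    | inr t =>
      have h1 : vs α = [] := h
      show Sum.inr t :: att σ α = Sum.inr t :: att σ' α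
      rw [ih h1]

theorem red_step (F F' : Form G.V G.I T) : (red G).Step F F' ↔ G.Step F F' := by
  constructor
  · rintro ⟨p, hp, h⟩
    exact ⟨p, fb_rules hp, h⟩
  · rintro ⟨p, hp, x, y, X, Z, e1, ha, e2⟩
    by_cases hb : ∃ A f α, p = Rule.pop A f α ∧ vs α = [] ∧ Rule.rw A α ∈ G.rules
    · obtain ⟨A, f, α, rfl, h1, h2⟩ := hb
      cases ha with
      | pop _ _ _ σ =>
        have h3 : Rule.rw A α ∈ (red G).rules := by
          refine ⟨h2, ?_⟩
          rintro ⟨A', f', α', h4, -⟩
          cases h4
        refine ⟨Rule.rw A α, h3, x, y, (A, f :: σ), att σ α, e1, ?_, e2⟩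
        have h5 : Act (Rule.rw A α) (A, f :: σ) (att (f :: σ) α) := Act.rw _ _ _
        rw [← fb_att σ (f :: σ) α h1] at h5
        exact h5
    · exact ⟨p, ⟨hp, hb⟩, x, y, X, Z, e1, ha, e2⟩

private theorem fb_rtg (F F' : Form G.V G.I T) :
    Relation.ReflTransGen (red G).Step F F' ↔ Relation.ReflTransGen G.Step F F' :=
  ⟨fun h => by
    induction h with
    | refl => exact .refl
    | tail _ h1 ih => exact ih.tail ((red_step _ _).1 h1), fun h => by
    induction h with
    | refl => exact .refl
    | tail _ h1 ih => exact ih.tail ((red_step _ _).2 h1)⟩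

theorem red_lang : (red G).lang = G.lang := by
  ext u
  exact fb_rtg _ _

theorem red_index (h : Index G k) : Index (red G) k := by
  intro F u h1 h2
  exact h F u ((fb_rtg _ _).1 h1) ((fb_rtg _ _).1 h2)

private theorem fb_pf {σ : List (red G).I} {α : List ((red G).V ⊕ T)} {u : List T} {p : ℕ → ℕ} {M : ℕ}
    (h : Pf (red G) σ α u p M) : Pf G σ α u p M := by
  induction h with
  | nil => exact .nil
  | tm _ ih => exact .tm ih
  | rw h1 _ _ ih1 ih2 => exact .rw (fb_rules h1) ih1 ih2
  | push h1 _ _ ih1 ih2 => exact .push (fb_rules h1) ih1 ih2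
  | pop h1 _ _ ih1 ih2 => exact .pop (fb_rules h1) ih1 ih2

theorem red_copies (h : Copies G k) : Copies (red G) k := by
  intro u p M h1
  exact h u p M (fb_pf h1)

end Pool.Agent.Lib.IXD
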