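import Pool.Agent.Lib.IXD.Fa

/-!
# Row Fc: from sequences of forms to sequences of productions

Words: (lder_fder) a derivation with productions l of red G is a leftmost derivation of G with a sequence of forms Fs; two
lists l, l' of red G with the same Fs are equal (`red_unique`, induction). Hence two different lists l of red G for a word u give
two different sequences of forms of G: u is in Amb G.
-/

set_option autoImplicit false

namespace Pool.Agent.Lib.IXD

open Pool.Agent.Lib.IXB Pool.Agent.Lib.IXB.Fi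

variable {T : Type} {G : IG T}

/-- a derivation together with its productions and its forms -/
private inductive Bo {T : Type} (K : IG T) : List (Rule K.V K.I T) → List (Form K.V K.I T) →
    Form K.V K.I T → Form K.V K.I T → Prop
  | nil (F : Form K.V K.I T) : Bo K [] [] F F
  | cons {p : Rule K.V K.I T} {l : List (Rule K.V K.I T)} {Fs : List (Form K.V K.I T)}
      {F F' F'' : Form K.V K.I T} : K.LStep p F F' → Bo K l Fs F' F'' →
      Bo K (p :: l) (F' :: Fs) F F''

private theorem bo_of_lder {K : IG T} {l : List (Rule K.V K.I T)} {F F' : Form K.V K.I T}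
    (h : K.LDer l F F') : ∃ Fs, Bo K l Fs F F' := by
  induction h with
  | nil F => exact ⟨[], Bo.nil F⟩
  | cons h1 _ ih =>
    obtain ⟨Fs, h3⟩ := ih
    exact ⟨_, Bo.cons h1 h3⟩

private theorem fder_of_bo {K G : IG T} (hV : K = red G) {l : List (Rule K.V K.I T)}
    {Fs : List (Form K.V K.I T)} {F F' : Form K.V K.I T} (h : Bo K l Fs F F') :
    ∀ {Gs : List (Form G.V G.I T)} {H H' : Form G.V G.I T}, HEq Fs Gs → HEq F H → HEq F' H' →
      FDer G Gs H H' := by
  subst hV
  induction h with
  | nil F =>
    intro Gs H H' e1 e2 e3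
    obtain rfl := eq_of_heq e1
    obtain rfl := eq_of_heq e2
    obtain rfl := eq_of_heq e3
    exact FDer.nil _
  | cons h1 _ ih =>
    intro Gs H H' e1 e2 e3
    obtain rfl := eq_of_heq e1
    obtain rfl := eq_of_heq e2
    obtain rfl := eq_of_heq e3
    exact FDer.cons ⟨h1.1.1, h1.2⟩ (ih HEq.rfl HEq.rfl HEq.rfl)

private theorem bo_unique {K : IG T} (hK : ∀ {p p' : Rule K.V K.I T} {F F' : Form K.V K.I T},
    K.LStep p F F' → K.LStep p' F F' → p = p') {l : List (Rule K.V K.I T)}
    {Fs : List (Form K.V K.I T)} {F F' : Form K.V K.I T} (h : Bo K l Fs F F') :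
    ∀ {l' : List (Rule K.V K.I T)}, Bo K l' Fs F F' → l = l' := by
  induction h with
  | nil F =>
    intro l' h'
    cases h'
    rfl
  | cons h1 _ ih =>
    intro l' h'
    cases h' with
    | cons h3 h4 => rw [hK h1 h3, ih h4]

theorem amb_of_red {u : List T} {l l' : List (Rule G.V G.I T)} (hl : l ≠ l')
    (h : (red G).LDer l [Sum.inl ((red G).start, [])] (u.map Sum.inr))
    (h' : (red G).LDer l' [Sum.inl ((red G).start, [])] (u.map Sum.inr)) : u ∈ Amb G := by
  obtain ⟨Fs, h1⟩ := bo_of_lder h
  obtain ⟨Fs', h2⟩ := bo_of_lder h'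
  refine ⟨Fs, Fs', ?_, fder_of_bo rfl h1 HEq.rfl HEq.rfl HEq.rfl,
    fder_of_bo rfl h2 HEq.rfl HEq.rfl HEq.rfl⟩
  rintro rfl
  exact hl (bo_unique (K := red G) (fun {_ _ _ _} a b => red_unique (G := G) a b) h1 h2)

end Pool.Agent.Lib.IXD
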