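import Mathlib

/-!
# Finite systems (context-free grammars with weights), their derivations, the kernel of a sequence
-/

set_option autoImplicit false

namespace Pool.Agent.Lib.IXD

/-- a system of productions `lhs r → rhs r` with weights -/
structure Sys (N R : Type) where
  lhs : R → N
  wt : R → ℕ
  rhs : R → List N

/-- `CD S w l n`: the list `l` of productions, applied one after the other to the first symbol, rewrites `w` to the empty
word, and the sum of the weights is `n` -/
inductive CD {N R : Type} (S : Sys N R) : List N → List R → ℕ → Prop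
  | nil : CD S [] [] 0
  | cons {r : R} {w : List N} {l : List R} {n : ℕ} : CD S (S.rhs r ++ w) l n → CD S (S.lhs r :: w) (r :: l) (S.wt r + n)

/-- the number of derivations of weight `n`, mod 3 -/
noncomputable def cnt3 {N R : Type} (S : Sys N R) (X : N) (n : ℕ) : ZMod 3 := ({l : List R | CD S [X] l n}.ncard : ZMod 3)

/-- finite 3-kernel -/
def FinKer (a : ℕ → ZMod 3) : Prop := {g : ℕ → ZMod 3 | ∃ s r : ℕ, r < 3 ^ s ∧ g = fun n => a (3 ^ s * n + r)}.Finite

/-- finitely many derivations of every weight -/
def AllFin {N R : Type} (S : Sys N R) : Prop := ∀ (X : N) (n : ℕ), {l : List R | CD S [X] l n}.Finite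

/-- every symbol has a derivation -/
def AllProd {N R : Type} (S : Sys N R) : Prop := ∀ X : N, ∃ l n, CD S [X] l n

/-- the generating series of a word, modulo 3 -/
noncomputable def gf {N R : Type} (S : Sys N R) (w : List N) : PowerSeries (ZMod 3) :=
  PowerSeries.mk fun n => ({l : List R | CD S w l n}.ncard : ZMod 3)

/-- the Cartier operator -/
noncomputable def car (r : ℕ) (f : PowerSeries (ZMod 3)) : PowerSeries (ZMod 3) :=
  PowerSeries.mk fun n => PowerSeries.coeff (3 * n + r) f

open Classical in
/-- the polynomials of a system -/
noncomputable def sysP {N R : Type} [Fintype R] (S : Sys N R) (X : N) : MvPolynomial N (Polynomial (ZMod 3)) :=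
  ∑ r ∈ Finset.univ.filter (fun r => S.lhs r = X), MvPolynomial.C (Polynomial.X ^ S.wt r) *
    ((S.rhs r).map fun y => (MvPolynomial.X y : MvPolynomial N (Polynomial (ZMod 3)))).prod

end Pool.Agent.Lib.IXD
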