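import Pool.Agent.Lib.IXB.FiD
import Pool.Agent.Lib.IXD.Sys

/-!
# The finite system of an indexed grammar of bounded index: definitions
-/

set_option autoImplicit false

namespace Pool.Agent.Lib.IXD

open Pool.Agent.Lib.IXB Pool.Agent.Lib.IXB.Fi

/-- letters -/
inductive Lr {T : Type} (G : IG T) : Type
  | stop (A : G.V) : Lr G
  | rw (A : G.V) (α : List (G.V ⊕ T)) (bs : List (List G.V)) : Lr G
  | push (A B : G.V) (f : G.I) (χ : List (Po G)) (bs : List (List G.V)) : Lr G

/-- the system: symbols are a variable and a list of variables -/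
def S0 {T : Type} (G : IG T) : Sys (G.V × List G.V) (Lr G) where
  lhs r := match r with
    | Lr.stop A => (A, [A])
    | Lr.rw A _ bs => (A, bs.flatten)
    | Lr.push A _ _ _ bs => (A, bs.flatten)
  wt r := match r with
    | Lr.stop _ => 0
    | Lr.rw _ α _ => nt α
    | Lr.push _ _ _ χ _ => ntl χ
  rhs r := match r with
    | Lr.stop _ => []
    | Lr.rw _ α bs => List.zip (vs α) bs
    | Lr.push _ B _ χ bs => (B, χ.map Prod.fst) :: List.zip (nx χ) bs

/-- the letters which are used -/
def Va {T : Type} (G : IG T) (k : ℕ) : Lr G → Prop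
  | Lr.stop _ => 1 ≤ k
  | Lr.rw A α bs => Rule.rw A α ∈ G.rules ∧ bs.length = (vs α).length ∧ bs.flatten.length ≤ k
  | Lr.push A B f χ bs => Rule.push A B f ∈ G.rules ∧ (∀ ρ ∈ χ, ρ.2.1 = f ∧ pr ρ ∈ G.rules) ∧ χ.length ≤ k ∧
      bs.length = (nx χ).length ∧ bs.flatten.length ≤ k

/-- derivations of the system together with derivations of the grammar: `σ` the common stack, `Xs` the symbols, `s` the letters, `w` the
weight, `es` the derivations of the target variables, `ds` the derivations of the variables -/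
inductive PT {T : Type} (G : IG T) (k : ℕ) : List G.I → List (G.V × List G.V) → List (Lr G) → ℕ →
    List (List (Rule G.V G.I T)) → List (List (Rule G.V G.I T)) → Prop
  | nil {σ : List G.I} : PT G k σ [] [] 0 [] []
  | stop {σ : List G.I} {A : G.V} {Xs : List (G.V × List G.V)} {s : List (Lr G)} {w : ℕ}
      {es ds : List (List (Rule G.V G.I T))} {e : List (Rule G.V G.I T)} : Va G k (Lr.stop A) → PT G k σ Xs s w es ds →
      PT G k σ ((A, [A]) :: Xs) (Lr.stop A :: s) w (e :: es) (e :: ds)
  | rw {σ : List G.I} {A : G.V} {α : List (G.V ⊕ T)} {bs : List (List G.V)} {Xs : List (G.V × List G.V)}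
      {s1 s2 : List (Lr G)} {w1 w2 : ℕ} {es1 es2 ds1 ds2 : List (List (Rule G.V G.I T))} : Va G k (Lr.rw A α bs) →
      PT G k σ (List.zip (vs α) bs) s1 w1 es1 ds1 → PT G k σ Xs s2 w2 es2 ds2 →
      PT G k σ ((A, bs.flatten) :: Xs) (Lr.rw A α bs :: (s1 ++ s2)) (nt α + w1 + w2) (es1 ++ es2)
        ((Rule.rw A α :: ds1.flatten) :: ds2)
  | push {σ : List G.I} {A B : G.V} {f : G.I} {χ : List (Po G)} {bs : List (List G.V)} {Xs : List (G.V × List G.V)}
      {s0 s1 s2 : List (Lr G)} {w0 w1 w2 : ℕ} {es1 es2 ds1 ds2 : List (List (Rule G.V G.I T))} {m : List (Rule G.V G.I T)} :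
      Va G k (Lr.push A B f χ bs) → PT G k (f :: σ) [(B, χ.map Prod.fst)] s0 w0 (regroup χ ds1) [m] →
      PT G k σ (List.zip (nx χ) bs) s1 w1 es1 ds1 → PT G k σ Xs s2 w2 es2 ds2 →
      PT G k σ ((A, bs.flatten) :: Xs) (Lr.push A B f χ bs :: (s0 ++ (s1 ++ s2))) (ntl χ + w0 + w1 + w2) (es1 ++ es2)
        ((Rule.push A B f :: m) :: ds2)

/-- the targets -/
def tg {V : Type} (Xs : List (V × List V)) : List V := (Xs.map Prod.snd).flatten

/-- all derivations begin with a pop -/
def PopFirst {V I T : Type} (es : List (List (Rule V I T))) : Prop := ∀ e ∈ es, ∃ A f α l, e = Rule.pop A f α :: l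

/-- `A` with the stack `σ` has a cut with `m` variables -/
def Cf {T : Type} (G : IG T) (σ : List G.I) (A : G.V) (m : ℕ) : Prop := ∃ (F : Form G.V G.I T) (u : List T),
  Relation.ReflTransGen G.Step [Sum.inl (A, σ)] F ∧ Relation.ReflTransGen G.Step F (u.map Sum.inr) ∧ nvars F = m

/-- all cuts of the list `As` (all with the stack `σ`) have together at most `k` variables -/
def IL {T : Type} (G : IG T) (k : ℕ) (σ : List G.I) (As : List G.V) : Prop :=
  ∀ ms : List ℕ, List.Forall₂ (Cf G σ) As ms → ms.sum ≤ k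

end Pool.Agent.Lib.IXD
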