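import Pool.Agent.Lib.IXD.GDef
import Pool.Agent.Lib.IXD.CSa

/-!
# Row Ga: from PT to derivations of the system, lengths

Words: induction on PT. tg (zip (vs α) bs) = bs.flatten if the lengths are equal (`Va`).
-/

set_option autoImplicit false

namespace Pool.Agent.Lib.IXD

open Pool.Agent.Lib.IXB Pool.Agent.Lib.IXB.Fi

variable {T : Type} {G : IG T} {k : ℕ}

theorem tg_zip {V : Type} {vsl : List V} {bs : List (List V)} (h : bs.length = vsl.length) :
    tg (List.zip vsl bs) = bs.flatten := by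
  unfold tg
  rw [List.map_snd_zip (le_of_eq h)]

private theorem tg_cons {V : Type} (A : V) (b : List V) (Xs : List (V × List V)) : tg ((A, b) :: Xs) = b ++ tg Xs := rfl

theorem pt_len {σ : List G.I} {Xs : List (G.V × List G.V)} {s : List (Lr G)} {w : ℕ}
    {es ds : List (List (Rule G.V G.I T))} (h : PT G k σ Xs s w es ds) : es.length = (tg Xs).length ∧ ds.length = Xs.length := by
  induction h with
  | nil => exact ⟨rfl, rfl⟩
  | stop _ _ ih =>
    rw [tg_cons, List.length_append, List.length_cons, List.length_cons, List.length_cons, ih.1, ih.2]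
    exact ⟨Nat.add_comm _ _, rfl⟩
  | rw hv _ _ ih1 ih2 =>
    rw [tg_cons, List.length_append, List.length_append, List.length_cons, List.length_cons, ih1.1, tg_zip hv.2.1, ih2.1, ih2.2]
    exact ⟨rfl, rfl⟩
  | push hv _ _ _ _ ih1 ih2 =>
    rw [tg_cons, List.length_append, List.length_append, List.length_cons, List.length_cons, ih1.1, tg_zip hv.2.2.2.1, ih2.1, ih2.2]
    exact ⟨rfl, rfl⟩

theorem pt_cd {σ : List G.I} {Xs : List (G.V × List G.V)} {s : List (Lr G)} {w : ℕ}
    {es ds : List (List (Rule G.V G.I T))} (h : PT G k σ Xs s w es ds) : CD (S0 G) Xs s w ∧ ∀ r ∈ s, Va G k r := by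
  induction h with
  | nil => exact ⟨CD.nil, fun r hr => by simp at hr⟩
  | @stop σ A Xs s w es ds e hv _ ih =>
    refine ⟨?_, ?_⟩
    · have h1 : CD (S0 G) ((S0 G).lhs (Lr.stop A) :: Xs) (Lr.stop A :: s) ((S0 G).wt (Lr.stop A) + w) := CD.cons ih.1
      have h2 : (S0 G).wt (Lr.stop A) + w = w := Nat.zero_add w
      rw [h2] at h1
      exact h1
    · intro r hr
      rcases List.mem_cons.1 hr with rfl | hr
      · exact hv
      · exact ih.2 r hr
  | @rw σ A α bs Xs s1 s2 w1 w2 es1 es2 ds1 ds2 hv _ _ ih1 ih2 =>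
    refine ⟨?_, ?_⟩
    · have h1 : CD (S0 G) ((S0 G).lhs (Lr.rw A α bs) :: Xs) (Lr.rw A α bs :: (s1 ++ s2)) ((S0 G).wt (Lr.rw A α bs) + (w1 + w2)) :=
        CD.cons (cd_append ih1.1 ih2.1)
      rw [Nat.add_assoc]
      exact h1
    · intro r hr
      rcases List.mem_cons.1 hr with rfl | hr
      · exact hv
      rcases List.mem_append.1 hr with hr | hr
      · exact ih1.2 r hr
      · exact ih2.2 r hr
  | @push σ A B f χ bs Xs s0 s1 s2 w0 w1 w2 es1 es2 ds1 ds2 m hv _ _ _ ih0 ih1 ih2 =>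
    refine ⟨?_, ?_⟩
    · have h0 : CD (S0 G) ([(B, χ.map Prod.fst)] ++ (List.zip (nx χ) bs ++ Xs)) (s0 ++ (s1 ++ s2)) (w0 + (w1 + w2)) :=
        cd_append ih0.1 (cd_append ih1.1 ih2.1)
      have h2 : CD (S0 G) ((S0 G).rhs (Lr.push A B f χ bs) ++ Xs) (s0 ++ (s1 ++ s2)) (w0 + (w1 + w2)) := h0
      have h1 : CD (S0 G) ((S0 G).lhs (Lr.push A B f χ bs) :: Xs) (Lr.push A B f χ bs :: (s0 ++ (s1 ++ s2)))
          ((S0 G).wt (Lr.push A B f χ bs) + (w0 + (w1 + w2))) := CD.cons h2
      rw [Nat.add_assoc, Nat.add_assoc]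
      exact h1
    · intro r hr
      rcases List.mem_cons.1 hr with rfl | hr
      · exact hv
      rcases List.mem_append.1 hr with hr | hr
      · exact ih0.2 r hr
      rcases List.mem_append.1 hr with hr | hr
      · exact ih1.2 r hr
      · exact ih2.2 r hr

end Pool.Agent.Lib.IXD
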