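import Pool.Agent.Lib.IXD.Ga

/-!
# Row Gb: every derivation of the system comes from PT

Words: strong induction on the length of s. If s = r :: l then CD (rhs r ++ Xs) l; split with `cd_split`. For r = rw: give to the first
part the first (bs.flatten).length of the es. For r = push: first the part of zip (nx χ) bs at σ (it yields ds1), then the part of
(B, χ.map fst) at f :: σ with es := regroup χ ds1 (its length is χ.length), it yields a list of one element [m] (`pt_len`).
-/

set_option autoImplicit false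

namespace Pool.Agent.Lib.IXD

open Pool.Agent.Lib.IXB Pool.Agent.Lib.IXB.Fi

variable {T : Type} {G : IG T} {k : ℕ}

private theorem gb_nil {l : List (Lr G)} {n : ℕ} (h : CD (S0 G) [] l n) : l = [] ∧ n = 0 := by
  cases h
  exact ⟨rfl, rfl⟩

private theorem gb_cons_inv {Xs : List (G.V × List G.V)} {s : List (Lr G)} {w : ℕ} (h : CD (S0 G) Xs s w) :
    (Xs = [] ∧ s = [] ∧ w = 0) ∨ ∃ r Xs' l n, Xs = (S0 G).lhs r :: Xs' ∧ s = r :: l ∧ w = (S0 G).wt r + n ∧
      CD (S0 G) ((S0 G).rhs r ++ Xs') l n := by
  cases h with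
  | nil => exact Or.inl ⟨rfl, rfl, rfl⟩
  | cons h => exact Or.inr ⟨_, _, _, _, rfl, rfl, rfl, h⟩

private theorem gb_tg_cons {V : Type} (X : V × List V) (Xs : List (V × List V)) : tg (X :: Xs) = X.2 ++ tg Xs := by
  simp [tg]

private theorem gb_cast {σ : List G.I} {Xs Xs' : List (G.V × List G.V)} {s s' : List (Lr G)} {w w' : ℕ}
    {es es' ds : List (List (Rule G.V G.I T))} (h : PT G k σ Xs s w es ds) (e1 : Xs = Xs') (e2 : s = s') (e3 : w = w')
    (e4 : es = es') : ∃ ds, PT G k σ Xs' s' w' es' ds := by
  subst e1 e2 e3 e4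
  exact ⟨ds, h⟩

private theorem gb_aux (N : ℕ) : ∀ (s : List (Lr G)), s.length ≤ N → ∀ (Xs : List (G.V × List G.V)) (w : ℕ),
    CD (S0 G) Xs s w → (∀ r ∈ s, Va G k r) → ∀ (σ : List G.I) (es : List (List (Rule G.V G.I T))),
    es.length = (tg Xs).length → ∃ ds, PT G k σ Xs s w es ds := by
  induction N with
  | zero =>
    intro s hs Xs w h _ σ es he
    rcases gb_cons_inv h with ⟨rfl, rfl, rfl⟩ | ⟨r, Xs', l, n, rfl, rfl, rfl, _⟩
    · have h1 : es = [] := List.length_eq_zero_iff.1 (by simpa [tg] using he)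
      rw [h1]
      exact ⟨[], PT.nil⟩
    · simp at hs
  | succ N ih =>
    intro s hs Xs w h hV σ es he
    rcases gb_cons_inv h with ⟨rfl, rfl, rfl⟩ | ⟨r, Xs', l, n, rfl, rfl, rfl, hc⟩
    · have h1 : es = [] := List.length_eq_zero_iff.1 (by simpa [tg] using he)
      rw [h1]
      exact ⟨[], PT.nil⟩
    obtain ⟨l1, l2, n1, n2, rfl, rfl, c1, c2⟩ := cd_split hc
    have hV1 : ∀ r ∈ l1, Va G k r := fun r hr => hV r (List.mem_cons_of_mem _ (List.mem_append_left _ hr))
    have hV2 : ∀ r ∈ l2, Va G k r := fun r hr => hV r (List.mem_cons_of_mem _ (List.mem_append_right _ hr))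
    have hVr : Va G k r := hV r List.mem_cons_self
    rw [List.length_cons, List.length_append] at hs
    cases r with
    | stop A =>
      obtain ⟨rfl, rfl⟩ := gb_nil c1
      have e0 : (S0 G).lhs (Lr.stop A) = (A, [A]) := rfl
      rw [e0, gb_tg_cons] at he
      cases es with
      | nil => simp at he
      | cons e es' =>
        have he' : es'.length = (tg Xs').length := by
          simp only [List.length_cons, List.singleton_append] at he
          omega
        obtain ⟨ds, hds⟩ := ih l2 (by omega) Xs' n2 c2 hV2 σ es' he'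
        refine gb_cast (PT.stop (e := e) hVr hds) rfl rfl ?_ rfl
        show n2 = 0 + (0 + n2)
        omega
    | rw A α bs =>
      have e0 : (S0 G).lhs (Lr.rw A α bs) = (A, bs.flatten) := rfl
      have e1 : (S0 G).rhs (Lr.rw A α bs) = List.zip (vs α) bs := rfl
      rw [e0, gb_tg_cons, List.length_append] at he
      change es.length = bs.flatten.length + (tg Xs').length at he
      rw [e1] at c1
      have hz : tg (List.zip (vs α) bs) = bs.flatten := tg_zip hVr.2.1
      obtain ⟨ds1, h1⟩ := ih l1 (by omega) _ n1 c1 hV1 σ (es.take bs.flatten.length)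
        (by rw [hz, List.length_take]; omega)
      obtain ⟨ds2, h2⟩ := ih l2 (by omega) Xs' n2 c2 hV2 σ (es.drop bs.flatten.length)
        (by rw [List.length_drop]; omega)
      refine gb_cast (PT.rw hVr h1 h2) rfl rfl ?_ (List.take_append_drop _ _)
      show nt α + n1 + n2 = nt α + (n1 + n2)
      omega
    | push A B f χ bs =>
      have e0 : (S0 G).lhs (Lr.push A B f χ bs) = (A, bs.flatten) := rfl
      have e1 : (S0 G).rhs (Lr.push A B f χ bs) = [(B, χ.map Prod.fst)] ++ List.zip (nx χ) bs := rfl
      rw [e0, gb_tg_cons, List.length_append] at he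
      change es.length = bs.flatten.length + (tg Xs').length at he
      rw [e1] at c1
      obtain ⟨l0, l1', n0, n1', rfl, rfl, c0, c1'⟩ := cd_split c1
      rw [List.length_append] at hs
      have hz : tg (List.zip (nx χ) bs) = bs.flatten := tg_zip hVr.2.2.2.1
      obtain ⟨ds1, h1⟩ := ih l1' (by omega) _ n1' c1' (fun r hr => hV1 r (List.mem_append_right _ hr)) σ
        (es.take bs.flatten.length) (by rw [hz, List.length_take]; omega)
      obtain ⟨ds0, h0⟩ := ih l0 (by omega) _ n0 c0 (fun r hr => hV1 r (List.mem_append_left _ hr)) (f :: σ)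
        (regroup χ ds1) (by rw [regroup_len, gb_tg_cons]; simp [tg])
      obtain ⟨ds2, h2⟩ := ih l2 (by omega) Xs' n2 c2 hV2 σ (es.drop bs.flatten.length)
        (by rw [List.length_drop]; omega)
      have hl := (pt_len h0).2
      rw [List.length_singleton] at hl
      obtain ⟨m, rfl⟩ := List.length_eq_one_iff.1 hl
      refine gb_cast (PT.push hVr h0 h1 h2) rfl ?_ ?_ (List.take_append_drop _ _)
      · rw [List.append_assoc]
      · show ntl χ + n0 + n1' + n2 = ntl χ + (n0 + n1' + n2)
        omega

theorem cd_pt {Xs : List (G.V × List G.V)} {s : List (Lr G)} {w : ℕ} (h : CD (S0 G) Xs s w) (hs : ∀ r ∈ s, Va G k r)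
    (σ : List G.I) (es : List (List (Rule G.V G.I T))) (he : es.length = (tg Xs).length) : ∃ ds, PT G k σ Xs s w es ds := by
  exact gb_aux s.length s le_rfl Xs w h hs σ es he

end Pool.Agent.Lib.IXD
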