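import Pool.Agent.Lib.IXD.Ga

/-!
# Row Gc: soundness

Words: induction on PT (model: `pt_der` in Lib/IXB/FiC). rw: split the targets bs.flatten ++ tg Xs (`DL.split`, `pt_len`), the induction
hypothesis gives DL for ds1 on vs α, `fill` gives the derivation of att σ α, put the production in front. push: the
induction hypothesis for zip (nx χ) bs gives DL σ (nx χ) ds1, `regroup_dl` gives DL (f :: σ) (χ.map fst) (regroup χ ds1), the
induction hypothesis for [(B, χ.map fst)] gives DL (f :: σ) [B] [m].
(map fst of zip (vs α) bs is vs α if the lengths are equal: `List.map_fst_zip`.)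
-/

set_option autoImplicit false

namespace Pool.Agent.Lib.IXD

open Pool.Agent.Lib.IXB Pool.Agent.Lib.IXB.Fi

variable {T : Type} {G : IG T} {k : ℕ}

theorem pt_der {σ : List G.I} {Xs : List (G.V × List G.V)} {s : List (Lr G)} {w : ℕ}
    {es ds : List (List (Rule G.V G.I T))} (h : PT G k σ Xs s w es ds) {n : ℕ} (hd : DL G σ (tg Xs) es n) :
    DL G σ (Xs.map Prod.fst) ds (n + w) := by
  induction h generalizing n with
  | nil =>
    have hd' : DL G _ [] [] n := hd
    cases hd'
    exact DL.nil
  | @stop σ A Xs s w es ds e hv h ih =>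
    have hd' : DL G σ (A :: tg Xs) (e :: es) n := hd
    cases hd' with
    | cons h1 h2 =>
      rw [Nat.add_assoc]
      exact DL.cons h1 (ih h2)
  | @rw σ A α bs Xs s1 s2 w1 w2 es1 es2 ds1 ds2 hv h1 h2 ih1 ih2 =>
    have hd' : DL G σ (bs.flatten ++ tg Xs) (es1 ++ es2) n := hd
    have hb : bs.length = (vs α).length := hv.2.1
    obtain ⟨n1, n2, rfl, hd1, hd2⟩ := hd'.split
    have hz : tg (List.zip (vs α) bs) = bs.flatten := tg_zip hb
    have hl : es1.length = bs.flatten.length := by rw [(pt_len h1).1, hz]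
    rw [← hl, List.take_left] at hd1
    rw [← hl, List.drop_left] at hd2
    have h3 := ih1 (n := n1) (by rw [hz]; exact hd1)
    rw [List.map_fst_zip hb.ge] at h3
    obtain ⟨u, hu1, hu2⟩ := fill α h3
    have h4 := ih2 hd2
    have h5 : G.LDer (Rule.rw A α :: ds1.flatten) [Sum.inl (A, σ)] (u.map Sum.inr) := by
      refine .cons ⟨hv.1, [], [], (A, σ), att σ α, rfl, Act.rw _ _ _, rfl⟩ ?_
      simp only [List.map_nil, List.nil_append, List.append_nil]
      exact hu1
    have h6 := DL.cons h5 h4
    have e : n1 + n2 + (nt α + w1 + w2) = u.length + (n2 + w2) := by omega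
    rw [e]
    exact h6
  | @push σ A B f χ bs Xs s0 s1 s2 w0 w1 w2 es1 es2 ds1 ds2 m hv h0 h1 h2 ih0 ih1 ih2 =>
    have hd' : DL G σ (bs.flatten ++ tg Xs) (es1 ++ es2) n := hd
    have hb : bs.length = (nx χ).length := hv.2.2.2.1
    obtain ⟨n1, n2, rfl, hd1, hd2⟩ := hd'.split
    have hz : tg (List.zip (nx χ) bs) = bs.flatten := tg_zip hb
    have hl : es1.length = bs.flatten.length := by rw [(pt_len h1).1, hz]
    rw [← hl, List.take_left] at hd1
    rw [← hl, List.drop_left] at hd2
    have h3 := ih1 (n := n1) (by rw [hz]; exact hd1)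
    rw [List.map_fst_zip hb.ge] at h3
    have h4 := ih2 hd2
    have h7 := ih0 (n := ntl χ + (n1 + w1)) (by
      have : tg [(B, χ.map Prod.fst)] = χ.map Prod.fst := by simp [tg]
      rw [this]
      exact regroup_dl hv.2.1 h3)
    have h8 : DL G (f :: σ) [B] [m] (ntl χ + (n1 + w1) + w0) := h7
    generalize hN : ntl χ + (n1 + w1) + w0 = N at h8
    cases h8 with
    | @cons _ _ _ _ u n' h9 h10 =>
      cases h10
      have h5 : G.LDer (Rule.push A B f :: m) [Sum.inl (A, σ)] (u.map Sum.inr) := by
        refine .cons ⟨hv.1, [], [], (A, σ), [Sum.inl (B, f :: σ)], rfl, Act.push _ _ _ _, rfl⟩ ?_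
        simp only [List.map_nil, List.nil_append, List.append_nil]
        exact h9
      have h6 := DL.cons h5 h4
      have e : n1 + n2 + (ntl χ + w0 + w1 + w2) = u.length + (n2 + w2) := by omega
      rw [e]
      exact h6

end Pool.Agent.Lib.IXD
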