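import Pool.Agent.Lib.IXD.Gc

/-!
# Row Gd: different derivations of the system give different derivations of the grammar

Words: induction on the first PT, cases on the second (model: `pt_inj` in Lib/IXB/FiC). stop against rw or push: the first
derivation would begin with a pop and with another production. rw against rw: same A, α (first production); ds1.flatten =
ds1'.flatten, both complete derivations of the variables vs α with stack σ (`pt_der`), so ds1 = ds1' (`DL.pf` with r = r' = []),
induction gives zip (vs α) bs = zip (vs α) bs', so bs = bs' (equal lengths). push against push: same A, B, f, m = m'; induction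
for f :: σ (the regrouped derivations begin with a pop, `regroup_dl` gives DL) gives χ.map fst = χ'.map fst and regroup χ ds1 =
regroup χ' ds1', so χ = χ', ds1 = ds1' (`regroup_inj`), then induction for zip (nx χ) bs.
-/

set_option autoImplicit false

namespace Pool.Agent.Lib.IXD

open Pool.Agent.Lib.IXB Pool.Agent.Lib.IXB.Fi

variable {T : Type} {G : IG T} {k : ℕ}

theorem popfirst_regroup (χ : List (Po G)) (ds : List (List (Rule G.V G.I T))) : PopFirst (regroup χ ds) := by
  induction χ generalizing ds with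
  | nil =>
    intro e he
    exact absurd he (by simp [regroup])
  | cons ρ χ ih =>
    intro e he
    have he' : e ∈ (pr ρ :: (ds.take (vs ρ.2.2).length).flatten) :: regroup χ (ds.drop (vs ρ.2.2).length) := he
    rcases List.mem_cons.1 he' with rfl | h1
    · exact ⟨_, _, _, _, rfl⟩
    · exact ih _ e h1

private theorem gd_split {σ : List G.I} {a b : List G.V} {es1 es2 : List (List (Rule G.V G.I T))} {n : ℕ}
    (h : DL G σ (a ++ b) (es1 ++ es2) n) (hl : es1.length = a.length) :
    ∃ n1 n2, DL G σ a es1 n1 ∧ DL G σ b es2 n2 := by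
  obtain ⟨n1, n2, -, h1, h2⟩ := h.split
  rw [← hl, List.take_left] at h1
  rw [← hl, List.drop_left] at h2
  exact ⟨n1, n2, h1, h2⟩

private theorem gd_l {es1 es2 : List (List (Rule G.V G.I T))} (h : PopFirst (es1 ++ es2)) : PopFirst es1 :=
  fun e he => h e (List.mem_append_left _ he)

private theorem gd_r {es1 es2 : List (List (Rule G.V G.I T))} (h : PopFirst (es1 ++ es2)) : PopFirst es2 :=
  fun e he => h e (List.mem_append_right _ he)

private theorem gd_fst {V : Type} {vsl : List V} {bs : List (List V)} (h : bs.length = vsl.length) :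
    (List.zip vsl bs).map Prod.fst = vsl := List.map_fst_zip (le_of_eq h.symm)

private theorem gd_snd {V : Type} {vsl : List V} {bs : List (List V)} (h : bs.length = vsl.length) :
    (List.zip vsl bs).map Prod.snd = bs := List.map_snd_zip (le_of_eq h)

/-- the part of a letter: the derivations of the targets and of the variables of `zip vsl bs` -/
private theorem gd_part {σ : List G.I} {vsl : List G.V} {bs : List (List G.V)} {Xs : List (G.V × List G.V)}
    {s1 : List (Lr G)} {w1 : ℕ} {es1 es2 ds1 : List (List (Rule G.V G.I T))} {A : G.V} {n : ℕ}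
    (hl : bs.length = vsl.length) (h1 : PT G k σ (List.zip vsl bs) s1 w1 es1 ds1)
    (hd : DL G σ (tg ((A, bs.flatten) :: Xs)) (es1 ++ es2) n) :
    ∃ n1 n2, DL G σ (tg (List.zip vsl bs)) es1 n1 ∧ DL G σ (tg Xs) es2 n2 ∧ DL G σ vsl ds1 (n1 + w1) := by
  have hd1 : DL G σ (bs.flatten ++ tg Xs) (es1 ++ es2) n := hd
  have h2 := (pt_len h1).1
  have h3 := h2
  rw [tg_zip hl] at h3
  obtain ⟨n1, n2, h4, h5⟩ := gd_split hd1 h3
  have h6 : DL G σ (tg (List.zip vsl bs)) es1 n1 := by rw [tg_zip hl]; exact h4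
  have h7 := pt_der h1 h6
  rw [gd_fst hl] at h7
  exact ⟨n1, n2, h6, h5, h7⟩

theorem pt_inj {σ : List G.I} {Xs Xs' : List (G.V × List G.V)} {s s' : List (Lr G)} {w w' : ℕ}
    {es es' ds : List (List (Rule G.V G.I T))} (h : PT G k σ Xs s w es ds) (h' : PT G k σ Xs' s' w' es' ds)
    (he : Xs.map Prod.fst = Xs'.map Prod.fst) {n n' : ℕ} (hd : DL G σ (tg Xs) es n) (hd' : DL G σ (tg Xs') es' n')
    (hp : PopFirst es) (hp' : PopFirst es') : Xs = Xs' ∧ s = s' ∧ es = es' := by
  induction h generalizing Xs' s' w' es' n n' with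
  | nil =>
    cases h' with
    | nil => exact ⟨rfl, rfl, rfl⟩
  | @stop σ A Xs s w es ds e hv h1 ih =>
    cases h' with
    | @stop _ A' Xs'' s'' w'' es'' _ _ hv' h1' =>
      rw [List.map_cons, List.map_cons] at he
      obtain ⟨e1, e2⟩ := List.cons.inj he
      have e1' : A = A' := e1
      subst e1'
      have hd1 : DL G σ (A :: tg Xs) (e :: es) n := hd
      have hd1' : DL G σ (A :: tg Xs'') (e :: es'') n' := hd'
      cases hd1 with
      | cons _ hd2 =>
        cases hd1' with
        | cons _ hd2' =>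
          obtain ⟨rfl, rfl, rfl⟩ := ih h1' e2 hd2 hd2' (fun x hx => hp x (List.mem_cons_of_mem _ hx))
            (fun x hx => hp' x (List.mem_cons_of_mem _ hx))
          exact ⟨rfl, rfl, rfl⟩
    | rw _ _ _ =>
      obtain ⟨_, _, _, _, e0⟩ := hp _ List.mem_cons_self
      exact absurd (List.cons.inj e0).1 (by simp)
    | push _ _ _ _ =>
      obtain ⟨_, _, _, _, e0⟩ := hp _ List.mem_cons_self
      exact absurd (List.cons.inj e0).1 (by simp)
  | @rw σ A α bs Xs s1 s2 w1 w2 es1 es2 ds1 ds2 hv h1 h2 ih1 ih2 =>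
    generalize hl : ((Rule.rw A α :: ds1.flatten) :: ds2 : List (List (Rule G.V G.I T))) = L at h'
    cases h' with
    | nil => exact absurd hl (by simp)
    | stop _ _ =>
      obtain ⟨e1, -⟩ := List.cons.inj hl
      obtain ⟨_, _, _, _, e0⟩ := hp' _ List.mem_cons_self
      rw [← e1] at e0
      exact absurd (List.cons.inj e0).1 (by simp)
    | @rw _ A' α' bs' Xs'' s1' s2' w1' w2' es1' es2' ds1' ds2' hv' h1' h2' =>
      obtain ⟨e1, e2⟩ := List.cons.inj hl
      obtain ⟨e3, e4⟩ := List.cons.inj e1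
      obtain ⟨e5, e6⟩ := Rule.rw.inj e3
      subst e5
      subst e6
      subst e2
      obtain ⟨n1, n2, hd1, hd2, hd3⟩ := gd_part hv.2.1 h1 hd
      obtain ⟨n1', n2', hd1', hd2', hd3'⟩ := gd_part hv'.2.1 h1' hd'
      obtain ⟨e7, -⟩ := DL.pf hd3 hd3' (r := []) (r' := []) (by rw [e4])
      subst e7
      obtain ⟨e8, e9, e10⟩ := ih1 h1' (by rw [gd_fst hv.2.1, gd_fst hv'.2.1]) hd1 hd1' (gd_l hp) (gd_l hp')
      have e11 : bs = bs' := by
        rw [← gd_snd hv.2.1, e8, gd_snd hv'.2.1]
      subst e11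
      subst e9
      subst e10
      rw [List.map_cons, List.map_cons] at he
      obtain ⟨rfl, rfl, rfl⟩ := ih2 h2' (List.cons.inj he).2 hd2 hd2' (gd_r hp) (gd_r hp')
      exact ⟨rfl, rfl, rfl⟩
    | push _ _ _ _ =>
      obtain ⟨e1, -⟩ := List.cons.inj hl
      obtain ⟨e3, -⟩ := List.cons.inj e1
      exact absurd e3 (by simp)
  | @push σ A B f χ bs Xs s0 s1 s2 w0 w1 w2 es1 es2 ds1 ds2 m hv h0 h1 h2 ih0 ih1 ih2 =>
    generalize hl : ((Rule.push A B f :: m) :: ds2 : List (List (Rule G.V G.I T))) = L at h'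
    cases h' with
    | nil => exact absurd hl (by simp)
    | stop _ _ =>
      obtain ⟨e1, -⟩ := List.cons.inj hl
      obtain ⟨_, _, _, _, e0⟩ := hp' _ List.mem_cons_self
      rw [← e1] at e0
      exact absurd (List.cons.inj e0).1 (by simp)
    | rw _ _ _ =>
      obtain ⟨e1, -⟩ := List.cons.inj hl
      obtain ⟨e3, -⟩ := List.cons.inj e1
      exact absurd e3 (by simp)
    | @push _ A' B' f' χ' bs' Xs'' s0' s1' s2' w0' w1' w2' es1' es2' ds1' ds2' m' hv' h0' h1' h2' =>
      obtain ⟨e1, e2⟩ := List.cons.inj hl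
      obtain ⟨e3, e4⟩ := List.cons.inj e1
      obtain ⟨e5, e6, e7⟩ := Rule.push.inj e3
      subst e5
      subst e6
      subst e7
      subst e4
      subst e2
      obtain ⟨n1, n2, hd1, hd2, hd3⟩ := gd_part hv.2.2.2.1 h1 hd
      obtain ⟨n1', n2', hd1', hd2', hd3'⟩ := gd_part hv'.2.2.2.1 h1' hd'
      have t : ∀ l : List G.V, tg [(B, l)] = l := fun l => List.append_nil l
      have hd4 : DL G (f :: σ) (tg [(B, χ.map Prod.fst)]) (regroup χ ds1) (ntl χ + (n1 + w1)) := by
        rw [t]
        exact regroup_dl hv.2.1 hd3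
      have hd4' : DL G (f :: σ) (tg [(B, χ'.map Prod.fst)]) (regroup χ' ds1') (ntl χ' + (n1' + w1')) := by
        rw [t]
        exact regroup_dl hv'.2.1 hd3'
      obtain ⟨-, e8, e9⟩ := ih0 h0' rfl hd4 hd4' (popfirst_regroup _ _) (popfirst_regroup _ _)
      obtain ⟨e10, e11⟩ := regroup_inj _ _ hd3 hd3' e9
      subst e8
      subst e10
      subst e11
      obtain ⟨e12, e13, e14⟩ := ih1 h1' (by rw [gd_fst hv.2.2.2.1, gd_fst hv'.2.2.2.1]) hd1 hd1' (gd_l hp) (gd_l hp')
      have e15 : bs = bs' := by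
        rw [← gd_snd hv.2.2.2.1, e12, gd_snd hv'.2.2.2.1]
      subst e15
      subst e13
      subst e14
      rw [List.map_cons, List.map_cons] at he
      obtain ⟨rfl, rfl, rfl⟩ := ih2 h2' (List.cons.inj he).2 hd2 hd2' (gd_r hp) (gd_r hp')
      exact ⟨rfl, rfl, rfl⟩

end Pool.Agent.Lib.IXD
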