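import Pool.Agent.Lib.IXD.Ga

/-!
# Row Ge: the letters and the targets determine the derivation

Words: induction on the first PT, cases on the second: the first letters agree, so the same rule; s1 ++ s2 = s1' ++ s2' with
`pt_cd` and `cd_pf` gives s1 = s1'; es1 ++ es2 = es1' ++ es2' with `pt_len` gives es1 = es1'.
-/

set_option autoImplicit false

namespace Pool.Agent.Lib.IXD

open Pool.Agent.Lib.IXB Pool.Agent.Lib.IXB.Fi

variable {T : Type} {G : IG T} {k : ℕ}

private theorem ge_aux {σ : List G.I} {Xs : List (G.V × List G.V)} {s : List (Lr G)} {w : ℕ}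
    {es ds : List (List (Rule G.V G.I T))} (h : PT G k σ Xs s w es ds) :
    ∀ (σ' : List G.I) (Xs' : List (G.V × List G.V)) (s' : List (Lr G)) (w' : ℕ)
      (es' ds' : List (List (Rule G.V G.I T))), PT G k σ' Xs' s' w' es' ds' → σ' = σ → Xs' = Xs → s' = s →
      es' = es → ds' = ds := by
  induction h with
  | nil =>
    intro σ' Xs' s' w' es' ds' h' e1 e2 e3 e4
    cases h' with
    | nil => rfl
    | stop _ _ => cases e3
    | rw _ _ _ => cases e3
    | push _ _ _ _ => cases e3
  | stop hv _ ih =>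
    intro σ' Xs' s' w' es' ds' h' e1 e2 e3 e4
    cases h' with
    | nil => cases e3
    | stop _ h2 =>
      have q2 := (List.cons.inj e2).2
      have q3 := (List.cons.inj e3).2
      obtain ⟨q4, q5⟩ := List.cons.inj e4
      rw [q4, ih _ _ _ _ _ _ h2 e1 q2 q3 q5]
    | rw _ _ _ => cases (List.cons.inj e3).1
    | push _ _ _ _ => cases (List.cons.inj e3).1
  | rw hv h1 h2 ih1 ih2 =>
    intro σ' Xs' s' w' es' ds' h' e1 e2 e3 e4
    cases h' with
    | nil => cases e3
    | stop _ _ => cases (List.cons.inj e3).1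
    | rw _ h1' h2' =>
      obtain ⟨q3, q4⟩ := List.cons.inj e3
      injection q3 with r1 r2 r3
      subst r1 r2 r3 e1
      have q2 := (List.cons.inj e2).2
      obtain ⟨q5, -⟩ := cd_pf (pt_cd h1').1 (pt_cd h1).1 q4
      subst q5
      have q6 := List.append_cancel_left q4
      obtain ⟨q7, q8⟩ := List.append_inj e4 ((pt_len h1').1.trans (pt_len h1).1.symm)
      rw [ih1 _ _ _ _ _ _ h1' rfl rfl rfl q7, ih2 _ _ _ _ _ _ h2' rfl q2 q6 q8]
    | push _ _ _ _ => cases (List.cons.inj e3).1
  | push hv h0 h1 h2 ih0 ih1 ih2 =>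
    intro σ' Xs' s' w' es' ds' h' e1 e2 e3 e4
    cases h' with
    | nil => cases e3
    | stop _ _ => cases (List.cons.inj e3).1
    | rw _ _ _ => cases (List.cons.inj e3).1
    | push _ h0' h1' h2' =>
      obtain ⟨q3, q4⟩ := List.cons.inj e3
      injection q3 with r1 r2 r3 r4 r5
      subst r1 r2 r3 r4 r5 e1
      have q2 := (List.cons.inj e2).2
      obtain ⟨q5, -⟩ := cd_pf (pt_cd h0').1 (pt_cd h0).1 q4
      subst q5
      have q6 := List.append_cancel_left q4
      obtain ⟨q7, -⟩ := cd_pf (pt_cd h1').1 (pt_cd h1).1 q6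
      subst q7
      have q8 := List.append_cancel_left q6
      obtain ⟨q9, q10⟩ := List.append_inj e4 ((pt_len h1').1.trans (pt_len h1).1.symm)
      have r6 := ih1 _ _ _ _ _ _ h1' rfl rfl rfl q9
      have r7 := ih0 _ _ _ _ _ _ h0' rfl rfl rfl (by rw [r6])
      rw [(List.cons.inj r7).1, ih2 _ _ _ _ _ _ h2' rfl q2 q8 q10]

theorem pt_fun {σ : List G.I} {Xs : List (G.V × List G.V)} {s : List (Lr G)} {w w' : ℕ}
    {es ds ds' : List (List (Rule G.V G.I T))} (h : PT G k σ Xs s w es ds) (h' : PT G k σ Xs s w' es ds') : ds = ds' :=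
  (ge_aux h _ _ _ _ _ _ h' rfl rfl rfl rfl).symm

end Pool.Agent.Lib.IXD
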