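import Pool.Agent.Lib.IXD.GDef

/-!
# Row Gf: cuts

Words: (cf_list) by induction on α: variables of α with cuts F_i give the form obtained from att σ α by replacing the variables by
the F_i (use `step_ctx` in Lib/IXB/FiD: steps inside a context), it derives a word and has ms.sum variables. Then cf_rw, cf_pop,
cf_push put one step in front (`IG.Step`, Act). cf_one: F = the item itself (`LDer_step`).
-/

set_option autoImplicit false

namespace Pool.Agent.Lib.IXD

open Pool.Agent.Lib.IXB Pool.Agent.Lib.IXB.Fi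

variable {T : Type} {G : IG T} {k : ℕ}

theorem cf_list {σ : List G.I} (α : List (G.V ⊕ T)) {ms : List ℕ} (h : List.Forall₂ (Cf G σ) (vs α) ms) :
    ∃ (F : Form G.V G.I T) (u : List T), Relation.ReflTransGen G.Step (att σ α) F ∧
      Relation.ReflTransGen G.Step F (u.map Sum.inr) ∧ nvars F = ms.sum := by
  induction α generalizing ms with
  | nil =>
    have h0 : ms = [] := by
      change List.Forall₂ (Cf G σ) [] ms at h
      cases h
      rfl
    subst h0
    exact ⟨[], [], .refl, .refl, rfl⟩
  | cons a α ih =>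
    cases a with
    | inr t =>
      obtain ⟨F, u, h1, h2, h3⟩ := ih h
      refine ⟨Sum.inr t :: F, t :: u, ?_, ?_, ?_⟩
      · have h4 := step_ctx [Sum.inr t] [] h1
        simp only [List.append_nil] at h4
        exact h4
      · have h4 := step_ctx [Sum.inr t] [] h2
        simp only [List.append_nil] at h4
        exact h4
      · rw [← h3]
        rfl
    | inl C =>
      change List.Forall₂ (Cf G σ) (C :: vs α) ms at h
      cases h with
      | cons hc hr =>
        obtain ⟨F1, u1, h1, h2, h3⟩ := hc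
        obtain ⟨F2, u2, h4, h5, h6⟩ := ih hr
        refine ⟨F1 ++ F2, u1 ++ u2, ?_, ?_, ?_⟩
        · have e1 := step_ctx [] (att σ α) h1
          have e2 := step_ctx F1 [] h4
          simp only [List.nil_append, List.append_nil] at e1 e2
          exact e1.trans e2
        · have e1 := step_ctx [] F2 h2
          have e2 := step_ctx (u1.map Sum.inr) [] h5
          simp only [List.nil_append, List.append_nil] at e1 e2
          rw [List.map_append]
          exact e1.trans e2
        · rw [nvars_append, h3, h6, List.sum_cons]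

theorem cf_rw {σ : List G.I} {A : G.V} {α : List (G.V ⊕ T)} {ms : List ℕ} (hr : Rule.rw A α ∈ G.rules)
    (h : List.Forall₂ (Cf G σ) (vs α) ms) : Cf G σ A ms.sum := by
  obtain ⟨F, u, h1, h2, h3⟩ := cf_list α h
  have hst : Relation.ReflTransGen G.Step [Sum.inl (A, σ)] (att σ α) :=
    .single ⟨_, hr, [], [], (A, σ), att σ α, rfl, Act.rw _ _ _, by simp⟩
  exact ⟨F, u, hst.trans h1, h2, h3⟩

theorem cf_pop {σ : List G.I} {A : G.V} {f : G.I} {α : List (G.V ⊕ T)} {ms : List ℕ} (hr : Rule.pop A f α ∈ G.rules)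
    (h : List.Forall₂ (Cf G σ) (vs α) ms) : Cf G (f :: σ) A ms.sum := by
  obtain ⟨F, u, h1, h2, h3⟩ := cf_list α h
  have hst : Relation.ReflTransGen G.Step [Sum.inl (A, f :: σ)] (att σ α) :=
    .single ⟨_, hr, [], [], (A, f :: σ), att σ α, rfl, Act.pop _ _ _ _, by simp⟩
  exact ⟨F, u, hst.trans h1, h2, h3⟩

theorem cf_push {σ : List G.I} {A B : G.V} {f : G.I} {m : ℕ} (hr : Rule.push A B f ∈ G.rules) (h : Cf G (f :: σ) B m) :
    Cf G σ A m := by
  obtain ⟨F, u, h1, h2, h3⟩ := h
  have hst : Relation.ReflTransGen G.Step [Sum.inl (A, σ)] [Sum.inl (B, f :: σ)] :=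
    .single ⟨_, hr, [], [], (A, σ), [Sum.inl (B, f :: σ)], rfl, Act.push _ _ _ _, rfl⟩
  exact ⟨F, u, hst.trans h1, h2, h3⟩

theorem cf_one {σ : List G.I} {A : G.V} {l : List (Rule G.V G.I T)} {u : List T}
    (h : G.LDer l [Sum.inl (A, σ)] (u.map Sum.inr)) : Cf G σ A 1 :=
  ⟨[Sum.inl (A, σ)], u, .refl, LDer_step G h, rfl⟩

end Pool.Agent.Lib.IXD
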