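import Pool.Agent.Lib.IXD.Gf

/-!
# Row Gg: cuts of the variables of a PT

Words: (cf_nx) induction on χ, `cf_pop`. (pt_cf) induction on PT: stop: copy. rw: split ms into the part of bs.flatten = tg (zip ..)
and the rest, induction gives cuts for vs α, `cf_rw`. push: induction for zip (nx χ) bs gives cuts of nx χ, `cf_nx` cuts of
χ.map fst at f :: σ (tg [(B, χ.map fst)] = χ.map fst), induction gives a cut of B, `cf_push`.
-/

set_option autoImplicit false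

namespace Pool.Agent.Lib.IXD

open Pool.Agent.Lib.IXB Pool.Agent.Lib.IXB.Fi

variable {T : Type} {G : IG T} {k : ℕ}

private theorem f2_app {α β : Type} {R : α → β → Prop} : ∀ (l₁ : List α) {l₂ : List α} {ms : List β},
    List.Forall₂ R (l₁ ++ l₂) ms → ∃ m₁ m₂, ms = m₁ ++ m₂ ∧ List.Forall₂ R l₁ m₁ ∧ List.Forall₂ R l₂ m₂ := by
  intro l₁
  induction l₁ with
  | nil => exact fun {l₂ ms} h => ⟨[], ms, rfl, .nil, h⟩
  | cons a l ih =>
    intro l₂ ms h
    cases h with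
    | cons h1 h2 =>
      obtain ⟨m₁, m₂, rfl, h3, h4⟩ := ih h2
      exact ⟨_ :: m₁, m₂, rfl, .cons h1 h3, h4⟩

private theorem gg_zip {V : Type} : ∀ {vsl : List V} {bs : List (List V)}, bs.length = vsl.length →
    tg (List.zip vsl bs) = bs.flatten ∧ (List.zip vsl bs).map Prod.fst = vsl := by
  intro vsl
  induction vsl with
  | nil =>
    intro bs h
    have h1 : bs = [] := List.eq_nil_of_length_eq_zero h
    subst h1
    exact ⟨rfl, rfl⟩
  | cons v vsl ih =>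
    intro bs h
    cases bs with
    | nil => simp at h
    | cons b bs =>
      obtain ⟨h1, h2⟩ := ih (bs := bs) (by simpa using h)
      refine ⟨?_, ?_⟩
      · show b ++ tg (List.zip vsl bs) = b ++ bs.flatten
        rw [h1]
      · show v :: (List.zip vsl bs).map Prod.fst = v :: vsl
        rw [h2]

theorem cf_nx {σ : List G.I} {f : G.I} {χ : List (Po G)} (hχ : ∀ ρ ∈ χ, ρ.2.1 = f ∧ pr ρ ∈ G.rules) {ms : List ℕ}
    (h : List.Forall₂ (Cf G σ) (nx χ) ms) :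
    ∃ ms', List.Forall₂ (Cf G (f :: σ)) (χ.map Prod.fst) ms' ∧ ms'.sum = ms.sum := by
  induction χ generalizing ms with
  | nil =>
    cases h
    exact ⟨[], .nil, rfl⟩
  | cons ρ χ ih =>
    have h0 : List.Forall₂ (Cf G σ) (vs ρ.2.2 ++ nx χ) ms := h
    obtain ⟨m₁, m₂, rfl, h1, h2⟩ := f2_app _ h0
    obtain ⟨ms', h3, h4⟩ := ih (fun x hx => hχ x (List.mem_cons_of_mem _ hx)) h2
    obtain ⟨hf, hp⟩ := hχ ρ List.mem_cons_self
    have h5 : Cf G (ρ.2.1 :: σ) ρ.1 m₁.sum := cf_pop hp h1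
    rw [hf] at h5
    refine ⟨m₁.sum :: ms', .cons h5 h3, ?_⟩
    rw [List.sum_cons, List.sum_append, h4]

theorem pt_cf {σ : List G.I} {Xs : List (G.V × List G.V)} {s : List (Lr G)} {w : ℕ}
    {es ds : List (List (Rule G.V G.I T))} (h : PT G k σ Xs s w es ds) {ms : List ℕ}
    (hm : List.Forall₂ (Cf G σ) (tg Xs) ms) :
    ∃ ms', List.Forall₂ (Cf G σ) (Xs.map Prod.fst) ms' ∧ ms'.sum = ms.sum := by
  induction h generalizing ms with
  | nil =>
    cases hm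
    exact ⟨[], .nil, rfl⟩
  | @stop σ A Xs s w es ds e hv h ih =>
    have h0 : List.Forall₂ (Cf G σ) ([A] ++ tg Xs) ms := hm
    cases h0 with
    | cons h1 h2 =>
      obtain ⟨ms', h3, h4⟩ := ih h2
      exact ⟨_ :: ms', .cons h1 h3, by rw [List.sum_cons, List.sum_cons, h4]⟩
  | @rw σ A α bs Xs s1 s2 w1 w2 es1 es2 ds1 ds2 hv h1 h2 ih1 ih2 =>
    have h0 : List.Forall₂ (Cf G σ) (bs.flatten ++ tg Xs) ms := hm
    obtain ⟨hr, hl, -⟩ := hv
    obtain ⟨hz1, hz2⟩ := gg_zip hl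
    obtain ⟨m₁, m₂, rfl, h3, h4⟩ := f2_app _ h0
    rw [← hz1] at h3
    obtain ⟨ms1, h5, h6⟩ := ih1 h3
    rw [hz2] at h5
    obtain ⟨ms2, h7, h8⟩ := ih2 h4
    refine ⟨ms1.sum :: ms2, .cons (cf_rw hr h5) h7, ?_⟩
    rw [List.sum_cons, List.sum_append, h6, h8]
  | @push σ A B f χ bs Xs s0 s1 s2 w0 w1 w2 es1 es2 ds1 ds2 m hv h0 h1 h2 ih0 ih1 ih2 =>
    have h9 : List.Forall₂ (Cf G σ) (bs.flatten ++ tg Xs) ms := hm
    obtain ⟨hr, hχ, -, hl, -⟩ := hv
    obtain ⟨hz1, hz2⟩ := gg_zip hl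
    obtain ⟨m₁, m₂, rfl, h3, h4⟩ := f2_app _ h9
    rw [← hz1] at h3
    obtain ⟨ms1, h5, h6⟩ := ih1 h3
    rw [hz2] at h5
    obtain ⟨ms2, h7, h8⟩ := ih2 h4
    obtain ⟨ms3, h10, h11⟩ := cf_nx hχ h5
    have h12 : List.Forall₂ (Cf G (f :: σ)) (tg [(B, χ.map Prod.fst)]) ms3 := by
      show List.Forall₂ (Cf G (f :: σ)) (χ.map Prod.fst ++ []) ms3
      rw [List.append_nil]
      exact h10
    obtain ⟨ms4, h13, h14⟩ := ih0 h12
    have h15 : List.Forall₂ (Cf G (f :: σ)) [B] ms4 := h13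
    cases h15 with
    | @cons _ b _ l₂ h16 h17 =>
      cases h17
      refine ⟨b :: ms2, .cons (cf_push hr h16) h7, ?_⟩
      rw [List.sum_singleton] at h14
      rw [List.sum_cons, List.sum_append, h14, h11, h6, h8]

end Pool.Agent.Lib.IXD
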