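import Pool.Agent.Lib.IXD.GDef

/-!
# Row Gh: derivations which begin with a pop, taken apart

Words: induction on DL G (f :: σ) β es m: the first derivation is pop C g α :: l; it is applied to C with the stack f :: σ, so g = f, C is
the variable, and l derives att σ α; `unfill` gives the derivations of vs α with flatten = l. χ := (C, f, α) :: χ', ds := es' ++ ds'.
The length statement: (regroup χ ds).flatten has χ.length more elements than ds.flatten.
(pop_nil: with the empty stack no pop is possible.)
-/

set_option autoImplicit false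

namespace Pool.Agent.Lib.IXD

open Pool.Agent.Lib.IXB Pool.Agent.Lib.IXB.Fi

variable {T : Type} {G : IG T} {k : ℕ}

theorem unregroup {σ : List G.I} {f : G.I} {β : List G.V} {es : List (List (Rule G.V G.I T))} {m : ℕ}
    (hd : DL G (f :: σ) β es m) (hp : PopFirst es) : ∃ (χ : List (Po G)) (ds : List (List (Rule G.V G.I T))) (n : ℕ),
      β = χ.map Prod.fst ∧ es = regroup χ ds ∧ (∀ ρ ∈ χ, ρ.2.1 = f ∧ pr ρ ∈ G.rules) ∧ DL G σ (nx χ) ds n ∧ m = ntl χ + n ∧
        ds.flatten.length ≤ es.flatten.length := by
  induction hd with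
  | nil => exact ⟨[], [], 0, rfl, rfl, by simp, .nil, rfl, le_rfl⟩
  | @cons C β l es u n h1 h2 ih =>
    obtain ⟨χ, ds, n', rfl, rfl, h4, h3, rfl, h5⟩ := ih fun e he => hp e (List.mem_cons_of_mem _ he)
    obtain ⟨A', f', α', l', rfl⟩ := hp l List.mem_cons_self
    generalize hv : (u.map Sum.inr : Form G.V G.I T) = V at h1
    cases h1 with
    | cons h6 h7 =>
      obtain ⟨hq, x, y, X, Z, h8, ha, h9⟩ := h6
      obtain ⟨rfl, rfl, rfl⟩ := left_unique (u := []) (y := []) h8
      cases ha with
      | pop A f α σ =>
        simp only [List.map_nil, List.nil_append, List.append_nil] at h9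
        rw [h9, ← hv] at h7
        obtain ⟨es₁, n₁, h10, rfl, h12⟩ := unfill α' h7
        refine ⟨(C, f, α') :: χ, es₁ ++ ds, n₁ + n', rfl, ?_, ?_, h10.append h3, ?_, ?_⟩
        · show _ = (pr _ :: ((es₁ ++ ds).take (vs α').length).flatten) :: regroup χ ((es₁ ++ ds).drop (vs α').length)
          rw [← h10.len, List.take_left, List.drop_left]
          rfl
        · intro ρ hρ
          rcases List.mem_cons.1 hρ with rfl | hρ
          · exact ⟨rfl, hq⟩
          · exact h4 ρ hρ
        · rw [h12]
          show _ = (nt α' + ntl χ) + _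
          omega
        · rw [List.flatten_append, List.flatten_cons, List.length_append, List.length_append, List.length_cons]
          omega

theorem pop_nil {β : List G.V} {es : List (List (Rule G.V G.I T))} {m : ℕ} (hd : DL G [] β es m) (hp : PopFirst es) :
    β = [] ∧ es = [] ∧ m = 0 := by
  cases hd with
  | nil => exact ⟨rfl, rfl, rfl⟩
  | @cons C β l es u n h1 h2 =>
    exfalso
    obtain ⟨A', f', α', l', rfl⟩ := hp l List.mem_cons_self
    generalize hv : (u.map Sum.inr : Form G.V G.I T) = V at h1
    cases h1 with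
    | cons h6 h7 =>
      obtain ⟨hq, x, y, X, Z, h8, ha, h9⟩ := h6
      obtain ⟨rfl, rfl, rfl⟩ := left_unique (u := []) (y := []) h8
      cases ha

end Pool.Agent.Lib.IXD
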