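import Pool.Agent.Lib.IXD.Gg
import Pool.Agent.Lib.IXD.Gh
import Pool.Agent.Lib.IXD.Gc

/-!
# Row Gi: completeness

Words: strong induction on ds.flatten.length. As = []: nil. As = A :: As', ds = d :: ds', d is not empty (it derives a word from a variable).
IL for As': take the cut 1 for A (`cf_one`). The rest As', ds' by induction (shorter). The first production of d:
pop A f α: X = (A, [A]), stop; 1 ≤ k by IL with all cuts 1. rw A α: d = rw A α :: l, `unfill`: l = ds1.flatten, DL σ (vs α) ds1;
IL σ (vs α): cuts ms of vs α give the cut ms.sum of A (`cf_rw`), the others 1; induction for vs α gives Xs1, bs := Xs1.map snd,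
Xs1 = zip (vs α) bs; (bs.flatten).length ≤ k: the targets have cuts 1 (`cf_one` for their derivations), `pt_cf` gives cuts of
vs α with the sum (tg Xs1).length, IL. push A B f: d = push A B f :: l, induction for f :: σ, [B], [l] (IL by `cf_push`) gives
X = (B, γ), s0, es0 (PopFirst, DL (f :: σ) γ es0); γ.length ≤ k as before; `unregroup`: γ = χ.map fst, es0 = regroup χ ds1;
induction for σ, nx χ, ds1: ds1.flatten.length ≤ es0.flatten.length ≤ l.length (the last: hl in the statement below, es is
contained in ds; this is why the statement has the clause es.flatten.length ≤ ds.flatten.length), IL σ (nx χ) by `cf_nx`,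
`pt_cf`, `cf_push`; bs := Xs1.map snd.
-/

set_option autoImplicit false

namespace Pool.Agent.Lib.IXD

open Pool.Agent.Lib.IXB Pool.Agent.Lib.IXB.Fi

variable {T : Type} {G : IG T} {k : ℕ}

private theorem gi_ones {σ : List G.I} {As : List G.V} {ds : List (List (Rule G.V G.I T))} {n : ℕ}
    (h : DL G σ As ds n) : ∃ ms : List ℕ, List.Forall₂ (Cf G σ) As ms ∧ ms.sum = As.length := by
  induction h with
  | nil => exact ⟨[], .nil, rfl⟩
  | cons h1 _ ih =>
    obtain ⟨ms, h2, h3⟩ := ih
    refine ⟨1 :: ms, .cons (cf_one h1) h2, ?_⟩
    rw [List.sum_cons, h3, List.length_cons]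
    omega

private theorem gi_one {σ : List G.I} {B : G.V} {ms : List ℕ} (h : List.Forall₂ (Cf G σ) [B] ms) :
    Cf G σ B ms.sum := by
  cases h with
  | cons h1 h2 =>
    cases h2
    simpa using h1

theorem comp : ∀ (N : ℕ) (ds : List (List (Rule G.V G.I T))), ds.flatten.length ≤ N → ∀ (σ : List G.I) (As : List G.V) (n : ℕ),
    DL G σ As ds n → IL G k σ As → ∃ (Xs : List (G.V × List G.V)) (s : List (Lr G)) (w : ℕ)
      (es : List (List (Rule G.V G.I T))) (m : ℕ), Xs.map Prod.fst = As ∧ PT G k σ Xs s w es ds ∧ DL G σ (tg Xs) es m ∧
        PopFirst es ∧ n = m + w ∧ es.flatten.length ≤ ds.flatten.length := by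
  intro N
  induction N using Nat.strong_induction_on with
  | _ N ih =>
    intro ds hN σ As n hd hIL
    cases hd with
    | nil =>
      exact ⟨[], [], 0, [], 0, rfl, .nil, .nil, by intro e he; simp at he, rfl, le_rfl⟩
    | @cons A As' d ds' u n' h1 h2 =>
      have hlen : (d :: ds').flatten.length = d.length + ds'.flatten.length := by
        rw [List.flatten_cons, List.length_append]
      rw [hlen] at hN
      -- cuts
      have hhead : ∀ {m : ℕ}, Cf G σ A m → m ≤ k := by
        intro m hm
        obtain ⟨ms, h3, -⟩ := gi_ones h2
        have h4 := hIL (m :: ms) (.cons hm h3)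
        rw [List.sum_cons] at h4
        omega
      have hIL' : IL G k σ As' := by
        intro ms hms
        have h4 := hIL (1 :: ms) (.cons (cf_one h1) hms)
        rw [List.sum_cons] at h4
        omega
      have hd1 := h1
      generalize hv : (u.map Sum.inr : Form G.V G.I T) = V at h1
      cases h1 with
      | nil => cases u <;> simp at hv
      | @cons p l F F' F'' h6 h7 =>
        have hds' : ds'.flatten.length < N := by
          rw [List.length_cons] at hN
          omega
        obtain ⟨Xs2, s2, w2, es2, m2, e1, e2, e3, e4, e5, e6⟩ := ih _ hds' ds' le_rfl σ As' n' h2 hIL'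
        have hl : l.length < N := by
          rw [List.length_cons] at hN
          omega
        obtain ⟨hp, x, y, X, Z, h8, ha, h9⟩ := h6
        obtain ⟨rfl, rfl, rfl⟩ := left_unique (u := []) (y := []) h8
        cases ha with
        | rw A α σ =>
          simp only [List.map_nil, List.nil_append, List.append_nil] at h9
          rw [h9, ← hv] at h7
          obtain ⟨ds1, n1, h10, rfl, h12⟩ := unfill α h7
          have hIL1 : IL G k σ (vs α) := fun ms hms => hhead (cf_rw hp hms)
          obtain ⟨Xs1, s1, w1, es1, m1, f1, f2, f3, f4, f5, f6⟩ := ih _ hl ds1 le_rfl σ (vs α) n1 h10 hIL1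
          have hz : List.zip (vs α) (Xs1.map Prod.snd) = Xs1 := (List.zip_of_prod f1 rfl).symm
          have hk : (Xs1.map Prod.snd).flatten.length ≤ k := by
            obtain ⟨ms, g1, g2⟩ := gi_ones f3
            obtain ⟨ms', g3, g4⟩ := pt_cf f2 g1
            rw [f1] at g3
            have g5 := hIL1 ms' g3
            rw [g4, g2] at g5
            exact g5
          have hVa : Va G k (Lr.rw A α (Xs1.map Prod.snd)) := by
            refine ⟨hp, ?_, hk⟩
            rw [← f1, List.length_map, List.length_map]
          refine ⟨(A, (Xs1.map Prod.snd).flatten) :: Xs2, _, _, es1 ++ es2, m1 + m2, ?_,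
            PT.rw hVa (by rw [hz]; exact f2) e2, ?_, ?_, ?_, ?_⟩
          · rw [List.map_cons, e1]
          · exact f3.append e3
          · intro e he
            rcases List.mem_append.1 he with he | he
            · exact f4 e he
            · exact e4 e he
          · omega
          · rw [List.flatten_append, List.length_append, List.flatten_cons, List.length_append, List.length_cons]
            omega
        | push A B f σ =>
          simp only [List.map_nil, List.nil_append, List.append_nil] at h9
          rw [h9, ← hv] at h7
          have hd0 : DL G (f :: σ) [B] [l] (u.length + 0) := .cons h7 .nil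
          have hIL0 : IL G k (f :: σ) [B] := fun ms hms => hhead (cf_push hp (gi_one hms))
          have hl0 : ([l] : List (List (Rule G.V G.I T))).flatten.length < N := by
            simpa using hl
          obtain ⟨Xs0, s0, w0, es0, m0, f1, f2, f3, f4, f5, f6⟩ := ih _ hl0 [l] le_rfl (f :: σ) [B] _ hd0 hIL0
          obtain ⟨X, rfl, hX⟩ := List.map_eq_singleton_iff.1 f1
          obtain ⟨B', γ⟩ := X
          have hX' : B' = B := hX
          subst hX'
          have ht : tg [(B', γ)] = γ := by simp [tg]
          rw [ht] at f3
          have hl1 : ([l] : List (List (Rule G.V G.I T))).flatten.length = l.length := by simp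
          rw [hl1] at f6
          obtain ⟨χ, ds1, n1, rfl, rfl, g1, g2, g3, g4⟩ := unregroup f3 f4
          have hχk : χ.length ≤ k := by
            obtain ⟨ms, a1, a2⟩ := gi_ones f3
            obtain ⟨ms', a3, a4⟩ := pt_cf f2 (by rw [ht]; exact a1)
            have a5 := hhead (cf_push hp (gi_one a3))
            rw [a4, a2, List.length_map] at a5
            exact a5
          have hIL1 : IL G k σ (nx χ) := by
            intro ms hms
            obtain ⟨ms', a1, a2⟩ := cf_nx g1 hms
            obtain ⟨ms'', a3, a4⟩ := pt_cf f2 (by rw [ht]; exact a1)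
            have a5 := hhead (cf_push hp (gi_one a3))
            rw [a4, a2] at a5
            exact a5
          obtain ⟨Xs1, s1, w1, es1, m1, b1, b2, b3, b4, b5, b6⟩ :=
            ih _ (lt_of_le_of_lt (g4.trans f6) hl) ds1 le_rfl σ (nx χ) n1 g2 hIL1
          have hz : List.zip (nx χ) (Xs1.map Prod.snd) = Xs1 := (List.zip_of_prod b1 rfl).symm
          have hk : (Xs1.map Prod.snd).flatten.length ≤ k := by
            obtain ⟨ms, a1, a2⟩ := gi_ones b3
            obtain ⟨ms', a3, a4⟩ := pt_cf b2 a1
            rw [b1] at a3
            have a5 := hIL1 ms' a3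
            rw [a4, a2] at a5
            exact a5
          have hVa : Va G k (Lr.push A B' f χ (Xs1.map Prod.snd)) := by
            refine ⟨hp, g1, hχk, ?_, hk⟩
            rw [← b1, List.length_map, List.length_map]
          refine ⟨(A, (Xs1.map Prod.snd).flatten) :: Xs2, _, _, es1 ++ es2, m1 + m2, ?_,
            PT.push hVa f2 (by rw [hz]; exact b2) e2, ?_, ?_, ?_, ?_⟩
          · rw [List.map_cons, e1]
          · exact b3.append e3
          · intro e he
            rcases List.mem_append.1 he with he | he
            · exact b4 e he
            · exact e4 e he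
          · omega
          · rw [List.flatten_append, List.length_append, List.flatten_cons, List.length_append, List.length_cons]
            omega
        | pop A f α σ =>
          have hk : 1 ≤ k := hhead (cf_one hd1)
          refine ⟨(A, [A]) :: Xs2, _, _, _ :: es2, u.length + m2, ?_, PT.stop hk e2, ?_, ?_, ?_, ?_⟩
          · rw [List.map_cons, e1]
          · exact .cons hd1 e3
          · intro e he
            rcases List.mem_cons.1 he with rfl | he
            · exact ⟨_, _, _, _, rfl⟩
            · exact e4 e he
          · omega
          · rw [List.flatten_cons, List.length_append, List.flatten_cons, List.length_append]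
            omega

end Pool.Agent.Lib.IXD
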