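import Pool.Agent.Lib.IXD.GDef

/-!
# Row Gj: finitely many letters, restriction to a finite system

Words: (va_fin) G.rules is finite, the lists χ of length ≤ k have entries in a finite set, bs has length (nx χ).length or
(vs α).length (bounded) and entries of length ≤ k (model: `ls_fin` in Lib/IXB/FiE). (fin_sys) N = G.V × lists of length ≤ k
(subtype), R = the subtype of the letters with Va, rhs by restriction (all the lists in rhs r have length ≤ k by Va: parts of
bs.flatten, or χ.map fst), φ = List.map Subtype.val. X₀ = (A, []).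
-/

set_option autoImplicit false

namespace Pool.Agent.Lib.IXD

open Pool.Agent.Lib.IXB Pool.Agent.Lib.IXB.Fi

variable {T : Type} {G : IG T} {k : ℕ}

private theorem mem_len {V : Type} {bs : List (List V)} {b : List V} (hb : b ∈ bs) : b.length ≤ bs.flatten.length := by
  rw [List.length_flatten]
  exact List.le_sum_of_mem (List.mem_map_of_mem hb)

private theorem lb_fin (V : Type) [Finite V] (k m : ℕ) :
    {bs : List (List V) | bs.length = m ∧ ∀ b ∈ bs, b.length ≤ k}.Finite := by
  have : Finite {β : List V // β.length ≤ k} := (List.finite_length_le V k).to_subtype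
  refine ((List.finite_length_eq {β : List V // β.length ≤ k} m).image (List.map Subtype.val)).subset ?_
  rintro bs ⟨hm, hk⟩
  refine ⟨bs.attachWith _ hk, ?_, ?_⟩
  · show (bs.attachWith _ hk).length = m
    rw [List.length_attachWith]
    exact hm
  · exact List.attachWith_map_subtype_val _

private def rwf (G : IG T) : Rule G.V G.I T → List (List G.V) → Lr G
  | Rule.rw A α, bs => Lr.rw A α bs
  | _, _ => Lr.stop G.start

private def lnf {V I T : Type} : Rule V I T → ℕ
  | Rule.rw _ α => (vs α).length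
  | _ => 0

private def puf (G : IG T) (χ : List (Po G)) : Rule G.V G.I T → List (List G.V) → Lr G
  | Rule.push A B f, bs => Lr.push A B f χ bs
  | _, _ => Lr.stop G.start

theorem va_fin : {r : Lr G | Va G k r}.Finite := by
  have := G.finV
  have h1 : {ρ : Po G | pr ρ ∈ G.rules}.Finite := by
    refine Set.Finite.preimage ?_ G.finR
    intro ρ _ ρ' _ h
    obtain ⟨e1, e2, e3⟩ := Rule.pop.inj h
    exact Prod.ext e1 (Prod.ext e2 e3)
  have h1' : Finite {ρ : Po G // pr ρ ∈ G.rules} := h1.to_subtype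
  have h2 : {χ : List (Po G) | (∀ ρ ∈ χ, pr ρ ∈ G.rules) ∧ χ.length ≤ k}.Finite := by
    refine ((List.finite_length_le {ρ : Po G // pr ρ ∈ G.rules} k).image (List.map Subtype.val)).subset ?_
    rintro χ ⟨hχ, hk⟩
    refine ⟨χ.attachWith _ hχ, ?_, ?_⟩
    · show (χ.attachWith _ hχ).length ≤ k
      rw [List.length_attachWith]
      exact hk
    · exact List.attachWith_map_subtype_val _
  have h3 : (Set.range (Lr.stop : G.V → Lr G)).Finite := Set.finite_range _
  have h4 : (⋃ p ∈ G.rules, (rwf G p '' {bs | bs.length = lnf p ∧ ∀ b ∈ bs, b.length ≤ k})).Finite :=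
    G.finR.biUnion fun p _ => (lb_fin G.V k _).image _
  have h5 : (⋃ p ∈ G.rules, ⋃ χ ∈ {χ : List (Po G) | (∀ ρ ∈ χ, pr ρ ∈ G.rules) ∧ χ.length ≤ k},
      (puf G χ p '' {bs | bs.length = (nx χ).length ∧ ∀ b ∈ bs, b.length ≤ k})).Finite :=
    G.finR.biUnion fun p _ => h2.biUnion fun χ _ => (lb_fin G.V k _).image _
  refine ((h3.union h4).union h5).subset ?_
  intro r hr
  cases r with
  | stop A => exact Or.inl (Or.inl ⟨A, rfl⟩)
  | rw A α bs =>
    obtain ⟨g1, g2, g3⟩ := hr
    refine Or.inl (Or.inr ?_)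
    refine Set.mem_biUnion g1 ?_
    exact ⟨bs, ⟨g2, fun b hb => (mem_len hb).trans g3⟩, rfl⟩
  | push A B f χ bs =>
    obtain ⟨g1, g2, g3, g4, g5⟩ := hr
    refine Or.inr ?_
    refine Set.mem_biUnion g1 ?_
    refine Set.mem_biUnion (show χ ∈ {χ : List (Po G) | (∀ ρ ∈ χ, pr ρ ∈ G.rules) ∧ χ.length ≤ k} from
      ⟨fun ρ hρ => (g2 ρ hρ).2, g3⟩) ?_
    exact ⟨bs, ⟨g4, fun b hb => (mem_len hb).trans g5⟩, rfl⟩

private theorem lhs_le {r : Lr G} (h : Va G k r) : ((S0 G).lhs r).2.length ≤ k := by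
  cases r with
  | stop A => exact h
  | rw A α bs => exact h.2.2
  | push A B f χ bs => exact h.2.2.2.2

private theorem rhs_le {r : Lr G} (h : Va G k r) : ∀ X ∈ (S0 G).rhs r, X.2.length ≤ k := by
  cases r with
  | stop A =>
    intro X hX
    exact absurd hX List.not_mem_nil
  | rw A α bs =>
    rintro ⟨B, b⟩ hX
    have h1 : (B, b) ∈ List.zip (vs α) bs := hX
    exact (mem_len (List.of_mem_zip h1).2).trans h.2.2
  | push A B f χ bs =>
    rintro ⟨C, b⟩ hX
    have h1 : (C, b) ∈ (B, χ.map Prod.fst) :: List.zip (nx χ) bs := hX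
    rcases List.mem_cons.1 h1 with h2 | h2
    · have h3 : b = χ.map Prod.fst := congrArg Prod.snd h2
      show b.length ≤ k
      rw [h3, List.length_map]
      exact h.2.2.1
    · exact (mem_len (List.of_mem_zip h2).2).trans h.2.2.2.2

private abbrev NN (G : IG T) (k : ℕ) : Type := {X : G.V × List G.V // X.2.length ≤ k}

private abbrev RR (G : IG T) (k : ℕ) : Type := {r : Lr G // Va G k r}

private def S1 (G : IG T) (k : ℕ) : Sys (NN G k) (RR G k) where
  lhs r := ⟨(S0 G).lhs r.1, lhs_le r.2⟩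
  wt r := (S0 G).wt r.1
  rhs r := ((S0 G).rhs r.1).attachWith _ (rhs_le r.2)

private theorem s1_rhs (r : RR G k) : ((S1 G k).rhs r).map Subtype.val = (S0 G).rhs r.1 :=
  List.attachWith_map_subtype_val _

private theorem s1_s0 {w : List (NN G k)} {l : List (RR G k)} {n : ℕ} (h : CD (S1 G k) w l n) :
    CD (S0 G) (w.map Subtype.val) (l.map Subtype.val) n := by
  induction h with
  | nil => exact CD.nil
  | @cons r w l n h ih =>
    rw [List.map_append, s1_rhs] at ih
    exact CD.cons ih

private theorem s0_s1 {W : List (G.V × List G.V)} {L : List (Lr G)} {n : ℕ} (h : CD (S0 G) W L n) :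
    ∀ (w : List (NN G k)), w.map Subtype.val = W → (∀ r ∈ L, Va G k r) →
      ∃ l : List (RR G k), l.map Subtype.val = L ∧ CD (S1 G k) w l n := by
  induction h with
  | nil =>
    intro w hw _
    obtain rfl := List.map_eq_nil_iff.1 hw
    exact ⟨[], rfl, CD.nil⟩
  | @cons r W L n h ih =>
    intro w hw hL
    have hr : Va G k r := hL r List.mem_cons_self
    cases w with
    | nil => simp at hw
    | cons X w =>
      rw [List.map_cons, List.cons.injEq] at hw
      obtain ⟨e1, e2⟩ := hw
      obtain ⟨l, e3, e4⟩ := ih ((S1 G k).rhs ⟨r, hr⟩ ++ w) (by rw [List.map_append, s1_rhs, e2])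
        (fun r' hr' => hL r' (List.mem_cons_of_mem _ hr'))
      have e5 : X = (S1 G k).lhs ⟨r, hr⟩ := Subtype.ext e1
      subst e5
      refine ⟨⟨r, hr⟩ :: l, by rw [List.map_cons, e3], ?_⟩
      exact CD.cons e4

theorem fin_sys (G : IG T) (k : ℕ) (A : G.V) : ∃ (N R : Type) (_ : Finite N) (_ : Finite R) (S : Sys N R) (X : N)
    (φ : List R → List (Lr G)), Function.Injective φ ∧
      ∀ n, φ '' {l | CD S [X] l n} = {l | CD (S0 G) [(A, [])] l n ∧ ∀ r ∈ l, Va G k r} := by
  have := G.finV
  have hN : Finite (NN G k) := by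
    have h1 : ((Set.univ : Set G.V) ×ˢ {β : List G.V | β.length ≤ k}).Finite :=
      Set.finite_univ.prod (List.finite_length_le G.V k)
    have h2 : {X : G.V × List G.V | X.2.length ≤ k} ⊆ (Set.univ : Set G.V) ×ˢ {β : List G.V | β.length ≤ k} :=
      fun X hX => ⟨Set.mem_univ _, hX⟩
    exact (h1.subset h2).to_subtype
  have hR : Finite (RR G k) := (va_fin (G := G) (k := k)).to_subtype
  refine ⟨NN G k, RR G k, hN, hR, S1 G k, ⟨(A, []), Nat.zero_le _⟩, List.map Subtype.val,
    List.map_injective_iff.2 Subtype.val_injective, ?_⟩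
  intro n
  ext L
  constructor
  · rintro ⟨l, hl, rfl⟩
    refine ⟨s1_s0 hl, ?_⟩
    intro r hr
    obtain ⟨r', -, rfl⟩ := List.mem_map.1 hr
    exact r'.2
  · rintro ⟨h1, h2⟩
    obtain ⟨l, e1, e2⟩ := s0_s1 h1 [⟨(A, []), Nat.zero_le _⟩] rfl h2
    exact ⟨l, e2, e1⟩

end Pool.Agent.Lib.IXD
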