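import Pool.Agent.Lib.IXD.Gb
import Pool.Agent.Lib.IXD.Gd
import Pool.Agent.Lib.IXD.Ge
import Pool.Agent.Lib.IXD.Gi
import Pool.Agent.Lib.IXD.Gj
import Pool.Agent.Lib.IXB.FiF
import Pool.Agent.Lib.IXB.NumA

/-!
# Indexed grammars of bounded index: words and derivations of the system
-/

set_option autoImplicit false

namespace Pool.Agent.Lib.IXD

open Pool.Agent.Lib.IXB Pool.Agent.Lib.IXB.Fi

/-- the derivations of the system of weight `n` -/
def Acc {T : Type} (G : IG T) (k n : ℕ) : Set (List (Lr G)) :=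
  {s | CD (S0 G) [(G.start, [])] s n ∧ ∀ r ∈ s, Va G k r}

variable {G : IG Bool} {k : ℕ}

theorem il_start (hI : Index G k) : IL G k [] [G.start] := by
  intro ms h
  cases h with
  | cons h1 h2 =>
    cases h2
    obtain ⟨F, u, h3, h4, rfl⟩ := h1
    rw [List.sum_cons, List.sum_nil, Nat.add_zero]
    exact hI F u h3 h4

theorem acc_word {s : List (Lr G)} {n : ℕ} (h : s ∈ Acc G k n) : ∃ (l : List (Rule G.V G.I Bool)) (u : List Bool),
    PT G k [] [(G.start, [])] s n [] [l] ∧ G.LDer l [Sum.inl (G.start, [])] (u.map Sum.inr) ∧ u.length = n := by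
  obtain ⟨ds, hds⟩ := cd_pt h.1 h.2 [] [] rfl
  obtain ⟨l, rfl⟩ : ∃ l, ds = [l] := List.length_eq_one_iff.1 (pt_len hds).2
  have h1 : DL G [] (tg [(G.start, ([] : List G.V))]) [] 0 := DL.nil
  have h2 := pt_der hds h1
  generalize hm : 0 + n = m at h2
  cases h2 with
  | cons h3 h4 =>
    cases h4
    refine ⟨l, _, hds, h3, by omega⟩

theorem word_acc (hI : Index G k) {l : List (Rule G.V G.I Bool)} {u : List Bool}
    (h : G.LDer l [Sum.inl (G.start, [])] (u.map Sum.inr)) :
    ∃ s ∈ Acc G k u.length, PT G k [] [(G.start, [])] s u.length [] [l] := by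
  obtain ⟨Xs, s, w, es, m, h1, h2, h3, h4, h5, -⟩ := comp (k := k) _ [l] le_rfl [] [G.start] (u.length + 0)
    (DL.cons h DL.nil) (il_start hI)
  obtain ⟨h6, rfl, rfl⟩ := pop_nil h3 h4
  obtain ⟨⟨A, β⟩, rfl⟩ : ∃ X, Xs = [X] := by
    refine List.length_eq_one_iff.1 ?_
    have := congrArg List.length h1
    rw [List.length_map] at this
    exact this
  have h7 : A = G.start := by
    have := List.cons.inj h1
    exact this.1
  have h8 : β = [] := by
    have h9 : tg [(A, β)] = β := by simp [tg]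
    rw [← h9]
    exact h6
  subst h7
  subst h8
  have h9 : w = u.length := by omega
  subst h9
  exact ⟨s, pt_cd h2, h2⟩

theorem ig_card (hI : Index G k) (hu : G.Unambiguous) (n : ℕ) :
    (Acc G k n).Finite ∧ (Acc G k n).ncard = Nice.cnt G.lang n := by
  have ex : ∀ u : {u : List Bool // u ∈ G.lang ∧ u.length = n}, ∃ s : Acc G k n, ∃ l,
      PT G k [] [(G.start, [])] s.1 n [] [l] ∧ G.LDer l [Sum.inl (G.start, [])] (u.1.map Sum.inr) := by
    rintro ⟨u, h1, rfl⟩
    obtain ⟨l, hl, -⟩ := hu u h1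
    obtain ⟨s, h2, h3⟩ := word_acc hI hl
    exact ⟨⟨s, h2⟩, l, h3, hl⟩
  choose g hg using ex
  have hb : Function.Bijective g := by
    constructor
    · rintro ⟨u, h1, h2⟩ ⟨u', h1', h2'⟩ he
      obtain ⟨l, h3, h4⟩ := hg ⟨u, h1, h2⟩
      obtain ⟨l', h3', h4'⟩ := hg ⟨u', h1', h2'⟩
      rw [← he] at h3'
      have h5 := (List.cons.inj (pt_fun h3 h3')).1
      subst h5
      have h6 := lder_fun h4 h4'
      have h7 : u = u' := List.map_injective_iff.2 Sum.inr_injective h6
      subst h7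
      rfl
    · rintro ⟨s, hs⟩
      obtain ⟨l, u, h1, h2, h3⟩ := acc_word hs
      have h4 : u ∈ G.lang := LDer_step G h2
      refine ⟨⟨u, h4, h3⟩, ?_⟩
      obtain ⟨l', h5, h6⟩ := hg ⟨u, h4, h3⟩
      obtain ⟨l₀, -, h7⟩ := hu u h4
      have h8 : l' = l := (h7 l' h6).trans (h7 l h2).symm
      subst h8
      have h9 : DL G [] (tg [(G.start, ([] : List G.V))]) [] 0 := DL.nil
      obtain ⟨-, h10, -⟩ := pt_inj h5 h1 rfl h9 h9 (fun e he => by cases he) (fun e he => by cases he)
      exact Subtype.ext h10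
  have hfin : Finite {u : List Bool // u ∈ G.lang ∧ u.length = n} := Nice.fin_sub (n := n) fun u hu => hu.2
  have h1 := Nat.card_congr (Equiv.ofBijective g hb)
  have h2 : Finite (Acc G k n) := Finite.of_surjective g hb.2
  refine ⟨Set.toFinite _, ?_⟩
  rw [← Nat.card_coe_set_eq]
  exact h1.symm

end Pool.Agent.Lib.IXD
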