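import Pool.Agent.Lib.IXD.Sys

/-!
# Row NTd: Dirichlet

Words: N₁ = 3^s n + 1, N₂ = 3^s' n + 1. Take a prime q = 11 mod 12 with q > 3^(s' - s) (so q does not divide 3^(s'-s) - 1 > 0,
and q is not 3). We want n with 4 | n, 3^s n + 1 = q mod q^2 and N₂ prime. Modulo q the condition gives
3^s n = -1, so N₂ = 1 - 3^(s'-s) is not 0 mod q. Let c be the class modulo 3^s' * 4 * q^2 (pairwise coprime, Chinese remainder)
with c = 1 mod 3^s', c = 1 mod 4, c = 1 + 3^(s'-s) (q - 1) mod q^2; c is a unit. By Dirichlet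
(`Nat.forall_exists_prime_gt_and_eq_mod`) there is a prime N₂ > 1 in the class c; n = (N₂ - 1) / 3^s' is a natural number,
4 | n since 3^s' n = 0 mod 4, and 3^(s'-s) (3^s n + 1 - q) = 0 mod q^2, so 3^s n + 1 = q mod q^2 and
3^s n + 1 = q * m with q not dividing m; it is odd.
-/

set_option autoImplicit false

namespace Pool.Agent.Lib.IXD

theorem exists_n {s s' : ℕ} (h : s < s') : ∃ n q m : ℕ, q.Prime ∧ q % 12 = 11 ∧ m % 2 = 1 ∧ ¬ q ∣ m ∧
    3 ^ s * n + 1 = q * m ∧ (3 ^ s' * n + 1).Prime ∧ (3 ^ s' * n + 1) % 4 = 1 := by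
  obtain ⟨d, rfl⟩ : ∃ d, s' = s + d := ⟨s' - s, by omega⟩
  have hd : d ≠ 0 := by omega
  have hD : 3 ≤ 3 ^ d := by
    calc 3 = 3 ^ 1 := by norm_num
      _ ≤ 3 ^ d := Nat.pow_le_pow_right (by norm_num) (by omega)
  set D := 3 ^ d with hDd
  obtain ⟨q, hqD, hqp, hq11⟩ := Nat.forall_exists_prime_gt_and_modEq D (q := 12) (a := 11) (by norm_num) (by norm_num)
  have hq12 : q % 12 = 11 := hq11
  have hq3 : Nat.Coprime q 3 := by
    rw [Nat.coprime_primes hqp Nat.prime_three]; omega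
  have hq2 : Nat.Coprime q 2 := by
    rw [Nat.coprime_primes hqp Nat.prime_two]; omega
  have hq4 : Nat.Coprime q 4 := by
    have := Nat.Coprime.pow_right 2 hq2
    simpa using this
  have hqDc : Nat.Coprime (q * q) D := Nat.Coprime.mul_left (hq3.pow_right d) (hq3.pow_right d)
  have hM : Nat.Coprime (3 ^ (s + d) * 4) (q * q) := by
    have h1 : Nat.Coprime q (3 ^ (s + d) * 4) := Nat.Coprime.mul_right (hq3.pow_right _) hq4
    exact Nat.Coprime.mul_right h1.symm h1.symm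
  obtain ⟨c, hc1, hc2⟩ := Nat.chineseRemainder hM 1 (1 + D * (q - 1))
  have hqpos : 1 ≤ q := hqp.one_lt.le
  have hcq : ¬ q ∣ c := by
    intro hdiv
    have e1 : c ≡ 1 + D * (q - 1) [MOD q] := hc2.of_mul_left _
    have e2 : 1 + D * (q - 1) + D ≡ 0 + D [MOD q] := by
      have : 1 + D * (q - 1) ≡ 0 [MOD q] := by
        exact e1.symm.trans ((Nat.modEq_zero_iff_dvd).2 hdiv)
      exact this.add_right D
    have e3 : 1 + D * (q - 1) + D = 1 + D * q := by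
      obtain ⟨r, rfl⟩ : ∃ r, q = r + 1 := ⟨q - 1, by omega⟩
      simp only [Nat.add_sub_cancel]; ring
    rw [e3] at e2
    have e4 : (1 + D * q) % q = D % q := by simpa [Nat.ModEq] using e2
    rw [Nat.add_mul_mod_self_right, Nat.mod_eq_of_lt hqp.one_lt, Nat.mod_eq_of_lt hqD] at e4
    omega
  have hcM : Nat.Coprime c (3 ^ (s + d) * 4 * (q * q)) := by
    have h1 : Nat.Coprime c (3 ^ (s + d) * 4) := by
      have := Nat.ModEq.gcd_eq hc1
      rw [Nat.Coprime, this]; simp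
    have h2 : Nat.Coprime c q := ((Nat.Prime.coprime_iff_not_dvd hqp).2 hcq).symm
    exact Nat.Coprime.mul_right h1 (Nat.Coprime.mul_right h2 h2)
  have hMne : 3 ^ (s + d) * 4 * (q * q) ≠ 0 := by positivity
  obtain ⟨p, hp1, hpp, hpc⟩ := Nat.forall_exists_prime_gt_and_modEq 1 hMne hcM
  have hpa : p ≡ 1 [MOD 3 ^ (s + d) * 4] := (hpc.of_mul_right _).trans hc1
  have hpb : p ≡ 1 + D * (q - 1) [MOD q * q] := (hpc.of_mul_left _).trans hc2
  obtain ⟨t, ht⟩ : 3 ^ (s + d) * 4 ∣ p - 1 := (Nat.modEq_iff_dvd' (by omega)).1 hpa.symm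
  have hpt : p = 3 ^ (s + d) * (4 * t) + 1 := by
    have : p - 1 = 3 ^ (s + d) * (4 * t) := by rw [ht]; ring
    omega
  have hk : 3 ^ (s + d) * (4 * t) = D * (3 ^ s * (4 * t)) := by rw [pow_add]; ring
  have hmod : D * (3 ^ s * (4 * t)) ≡ D * (q - 1) [MOD q * q] := by
    rw [hpt, hk, Nat.add_comm] at hpb
    exact Nat.ModEq.add_left_cancel' 1 hpb
  have hmod2 : 3 ^ s * (4 * t) ≡ q - 1 [MOD q * q] := Nat.ModEq.cancel_left_of_coprime (by simpa using hqDc) hmod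
  have hmod3 : 3 ^ s * (4 * t) + 1 ≡ q [MOD q * q] := by
    have := hmod2.add_right 1
    rwa [Nat.sub_add_cancel hqpos] at this
  obtain ⟨m, hm⟩ : q ∣ 3 ^ s * (4 * t) + 1 := by
    have h1 : 3 ^ s * (4 * t) + 1 ≡ q [MOD q] := hmod3.of_mul_left _
    have h2 : q ≡ 0 [MOD q] := by simp [Nat.ModEq]
    exact (Nat.modEq_zero_iff_dvd).1 (h1.trans h2)
  refine ⟨4 * t, q, m, hqp, hq12, ?_, ?_, hm, ?_, ?_⟩
  · by_contra hne
    have hm2 : 2 ∣ m := by omega
    have h2 : 2 ∣ 3 ^ s * (4 * t) + 1 := hm ▸ hm2.mul_left q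
    have h3 : 2 ∣ 3 ^ s * (4 * t) := ⟨3 ^ s * (2 * t), by ring⟩
    have := (Nat.dvd_add_right h3).1 h2
    omega
  · intro hdiv
    rw [hm] at hmod3
    have h1 : q * m ≡ q * 1 [MOD q * q] := by simpa using hmod3
    have h2 : m ≡ 1 [MOD q] := Nat.ModEq.mul_left_cancel' hqp.ne_zero h1
    have h3 : 1 ≡ 0 [MOD q] := h2.symm.trans ((Nat.modEq_zero_iff_dvd).2 hdiv)
    have := (Nat.modEq_zero_iff_dvd).1 h3
    exact hqp.one_lt.ne' (Nat.dvd_one.1 this)
  · rw [← hpt]; exact hpp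
  · have : 3 ^ (s + d) * (4 * t) + 1 = 4 * (3 ^ (s + d) * t) + 1 := by ring
    rw [this]; omega

end Pool.Agent.Lib.IXD
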