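import Pool.Agent.Lib.IXD.NTc
import Pool.Agent.Lib.IXD.NTd

/-!
# Row NTe: the numbers of words of L_C modulo 3 are not automatic

Words: if the 3-kernel is finite, two of the functions n -> a (3^s n + 1), s = 1, 2, 3, ... are equal (s < s'); take n from
`exists_n`: the left side is 0 by `a_qm`, the right side is 2 by `a_prime3`.
-/

set_option autoImplicit false

namespace Pool.Agent.Lib.IXD

open Pool.Agent.Lib.IXB Pool.Agent.Lib.IXB.Nice

theorem lc_not_finker : ¬ FinKer fun n => (cnt LC n : ZMod 3) := by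
  intro hfin
  unfold FinKer at hfin
  have hmem : ∀ a : ℕ, (fun n => (cnt LC (3 ^ (a + 1) * n + 1) : ZMod 3)) ∈
      {g : ℕ → ZMod 3 | ∃ s r : ℕ, r < 3 ^ s ∧ g = fun n => (fun n => (cnt LC n : ZMod 3)) (3 ^ s * n + r)} := by
    intro a
    exact ⟨a + 1, 1, Nat.one_lt_pow (Nat.succ_ne_zero a) (by norm_num), rfl⟩
  obtain ⟨a, b, hab, he⟩ := Set.Finite.exists_lt_map_eq_of_forall_mem hmem hfin
  obtain ⟨n, q, m, hq, h12, hm, hqm, e1, hp, h4⟩ := exists_n (Nat.succ_lt_succ hab)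
  have h := congrFun he n
  have h1 : (cnt LC (3 ^ (a + 1) * n + 1) : ZMod 3) = 0 := by
    rw [show 3 ^ (a + 1) * n + 1 = q * m from e1]
    exact a_qm hq h12 hm hqm
  have h2 : (cnt LC (3 ^ (b + 1) * n + 1) : ZMod 3) = 2 := a_prime3 hp h4
  have h3 : (0 : ZMod 3) = 2 := by
    rw [← h1, ← h2]
    exact h
  exact absurd h3 (by decide)

end Pool.Agent.Lib.IXD
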