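import Pool.Agent.Lib.IXD.Gk
import Pool.Agent.Lib.IXD.CSm
import Pool.Agent.Lib.IXD.NTe

/-!
# Indexed grammars of bounded index for the palindrome-pair language are ambiguous
-/

set_option autoImplicit false

namespace Pool.Agent.Lib.IXD

open Pool.Agent.Lib.IXB Pool.Agent.Lib.IXB.Fi

theorem ig_main {G : IG Bool} {k : ℕ} (hI : Index G k) (hu : G.Unambiguous) : G.lang ≠ LC := by
  intro hL
  obtain ⟨N, R, hN, hR, S, X, φ, hφ, hS⟩ := fin_sys G k G.start
  have hfin : ∀ n, {l | CD S [X] l n}.Finite := fun n => by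
    refine Set.Finite.of_finite_image (f := φ) ?_ hφ.injOn
    rw [hS n]
    exact (ig_card hI hu n).1
  have hc : ∀ n, cnt3 S X n = ((Nice.cnt LC n : ℕ) : ZMod 3) := fun n => by
    unfold cnt3
    rw [← Set.ncard_image_of_injective _ hφ, hS n, ← hL]
    exact congrArg Nat.cast (ig_card hI hu n).2
  have h := cs_main S X hfin
  rw [funext hc] at h
  exact lc_not_finker h

end Pool.Agent.Lib.IXD
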