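import Pool.Agent.Lib.IXD.GDef

/-!
# Derivation trees with the numbers of pops of the symbols of the stack
-/

set_option autoImplicit false

namespace Pool.Agent.Lib.IXD

open Pool.Agent.Lib.IXB Pool.Agent.Lib.IXB.Fi

/-- `Pf G σ α u p M`: derivation trees for the word `α`, all whose variables have the stack `σ`, with the terminal word `u`; the
`j`-th symbol of `σ` from the bottom (`j = 0, 1, ...`) is popped `p j` times in them (all copies together), and every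
symbol which is pushed in them is popped at most `M` times, `M` being the maximum of these numbers (or 0). -/
inductive Pf {T : Type} (G : IG T) : List G.I → List (G.V ⊕ T) → List T → (ℕ → ℕ) → ℕ → Prop
  | nil {σ : List G.I} : Pf G σ [] [] 0 0
  | tm {σ : List G.I} {α : List (G.V ⊕ T)} {u : List T} {p : ℕ → ℕ} {M : ℕ} {t : T} : Pf G σ α u p M →
      Pf G σ (Sum.inr t :: α) (t :: u) p M
  | rw {σ : List G.I} {A : G.V} {α' α : List (G.V ⊕ T)} {u₁ u₂ : List T} {p₁ p₂ : ℕ → ℕ} {M₁ M₂ : ℕ} :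
      Rule.rw A α' ∈ G.rules → Pf G σ α' u₁ p₁ M₁ → Pf G σ α u₂ p₂ M₂ →
      Pf G σ (Sum.inl A :: α) (u₁ ++ u₂) (p₁ + p₂) (max M₁ M₂)
  | push {σ : List G.I} {A B : G.V} {f : G.I} {α : List (G.V ⊕ T)} {u₁ u₂ : List T} {p₁ p₂ : ℕ → ℕ} {M₁ M₂ : ℕ} :
      Rule.push A B f ∈ G.rules → Pf G (f :: σ) [Sum.inl B] u₁ p₁ M₁ → Pf G σ α u₂ p₂ M₂ →
      Pf G σ (Sum.inl A :: α) (u₁ ++ u₂) (Function.update p₁ σ.length 0 + p₂) (max (p₁ σ.length) (max M₁ M₂))
  | pop {σ : List G.I} {A : G.V} {f : G.I} {α' α : List (G.V ⊕ T)} {u₁ u₂ : List T} {p₁ p₂ : ℕ → ℕ} {M₁ M₂ : ℕ} :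
      Rule.pop A f α' ∈ G.rules → Pf G σ α' u₁ p₁ M₁ → Pf G (f :: σ) α u₂ p₂ M₂ →
      Pf G (f :: σ) (Sum.inl A :: α) (u₁ ++ u₂) (Pi.single σ.length 1 + p₁ + p₂) (max M₁ M₂)

/-- bounded copying: in every derivation tree of a word every index symbol which is pushed is popped at most `k` times -/
def Copies {T : Type} (G : IG T) (k : ℕ) : Prop :=
  ∀ (u : List T) (p : ℕ → ℕ) (M : ℕ), Pf G [] [Sum.inl G.start] u p M → M ≤ k

end Pool.Agent.Lib.IXD
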