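import Pool.Agent.Lib.IXD.HDef

/-!
# Row Ha: basic properties of Pf

Words: pf_append by induction on the first, pf_split by induction on α (cases on the derivation; max and + are associative and
commutative), pf_fill by induction on α (a terminal: `Pf.tm`; a variable: split off its part with `pf_split`, put it back with
`pf_append`), pf_zero by induction (Function.update and Pi.single at σ.length: in push p₁ is 0 at the places ≥ σ.length + 1).
-/

set_option autoImplicit false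

namespace Pool.Agent.Lib.IXD

open Pool.Agent.Lib.IXB Pool.Agent.Lib.IXB.Fi

variable {T : Type} {G : IG T}

theorem pf_append {σ : List G.I} {α α' : List (G.V ⊕ T)} {u u' : List T} {p p' : ℕ → ℕ} {M M' : ℕ} (h : Pf G σ α u p M)
    (h' : Pf G σ α' u' p' M') : Pf G σ (α ++ α') (u ++ u') (p + p') (max M M') := by
  induction h with
  | nil =>
    rw [zero_add, Nat.zero_max]
    exact h'
  | tm _ ih => exact .tm (ih h')
  | rw hr h1 _ _ ih2 =>
    have := Pf.rw hr h1 (ih2 h')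
    rw [← add_assoc, ← List.append_assoc, ← max_assoc] at this
    exact this
  | @push σ A B f β v₁ v₂ q₁ q₂ N₁ N₂ hr h1 _ _ ih2 =>
    have := Pf.push hr h1 (ih2 h')
    rw [← add_assoc, ← List.append_assoc] at this
    have e : max (q₁ σ.length) (max N₁ (max N₂ M')) = max (max (q₁ σ.length) (max N₁ N₂)) M' := by
      rw [max_assoc, max_assoc]
    rw [e] at this
    exact this
  | pop hr h1 _ _ ih2 =>
    have := Pf.pop hr h1 (ih2 h')
    rw [← add_assoc, ← List.append_assoc, ← max_assoc] at this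
    exact this

private theorem pf_split_aux {σ : List G.I} {β : List (G.V ⊕ T)} {u : List T} {p : ℕ → ℕ} {M : ℕ} (h : Pf G σ β u p M) :
    ∀ α α', β = α ++ α' →
    ∃ u₁ u₂ p₁ p₂ M₁ M₂, Pf G σ α u₁ p₁ M₁ ∧ Pf G σ α' u₂ p₂ M₂ ∧ u = u₁ ++ u₂ ∧ p = p₁ + p₂ ∧ M = max M₁ M₂ := by
  induction h with
  | nil =>
    intro α α' e
    obtain ⟨rfl, rfl⟩ := List.append_eq_nil_iff.1 e.symm
    exact ⟨[], [], 0, 0, 0, 0, .nil, .nil, rfl, (add_zero _).symm, rfl⟩
  | @tm σ β u p M t h ih =>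
    intro α α' e
    cases α with
    | nil =>
      have e' : Sum.inr t :: β = α' := e
      subst e'
      exact ⟨[], t :: u, 0, p, 0, M, .nil, .tm h, rfl, (zero_add _).symm, (Nat.zero_max M).symm⟩
    | cons x α =>
      rw [List.cons_append, List.cons.injEq] at e
      obtain ⟨rfl, e⟩ := e
      obtain ⟨u₁, u₂, p₁, p₂, M₁, M₂, h1, h2, rfl, rfl, rfl⟩ := ih _ _ e
      exact ⟨t :: u₁, u₂, p₁, p₂, M₁, M₂, .tm h1, h2, rfl, rfl, rfl⟩
  | @rw σ A γ β v₁ v₂ q₁ q₂ N₁ N₂ hr h1 h2 _ ih2 =>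
    intro α α' e
    cases α with
    | nil =>
      have e' : Sum.inl A :: β = α' := e
      subst e'
      exact ⟨[], _, 0, _, 0, _, .nil, .rw hr h1 h2, rfl, (zero_add _).symm, (Nat.zero_max _).symm⟩
    | cons x α =>
      rw [List.cons_append, List.cons.injEq] at e
      obtain ⟨rfl, e⟩ := e
      obtain ⟨u₁, u₂, p₁, p₂, M₁, M₂, g1, g2, rfl, rfl, rfl⟩ := ih2 _ _ e
      exact ⟨_, u₂, _, p₂, _, M₂, .rw hr h1 g1, g2, (List.append_assoc _ _ _).symm, (add_assoc _ _ _).symm,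
        (max_assoc _ _ _).symm⟩
  | @push σ A B f β v₁ v₂ q₁ q₂ N₁ N₂ hr h1 h2 _ ih2 =>
    intro α α' e
    cases α with
    | nil =>
      have e' : Sum.inl A :: β = α' := e
      subst e'
      exact ⟨[], _, 0, _, 0, _, .nil, .push hr h1 h2, rfl, (zero_add _).symm, (Nat.zero_max _).symm⟩
    | cons x α =>
      rw [List.cons_append, List.cons.injEq] at e
      obtain ⟨rfl, e⟩ := e
      obtain ⟨u₁, u₂, p₁, p₂, M₁, M₂, g1, g2, rfl, rfl, rfl⟩ := ih2 _ _ e
      refine ⟨_, u₂, _, p₂, _, M₂, .push hr h1 g1, g2, (List.append_assoc _ _ _).symm, (add_assoc _ _ _).symm, ?_⟩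
      rw [max_assoc, max_assoc]
  | @pop σ A f γ β v₁ v₂ q₁ q₂ N₁ N₂ hr h1 h2 _ ih2 =>
    intro α α' e
    cases α with
    | nil =>
      have e' : Sum.inl A :: β = α' := e
      subst e'
      exact ⟨[], _, 0, _, 0, _, .nil, .pop hr h1 h2, rfl, (zero_add _).symm, (Nat.zero_max _).symm⟩
    | cons x α =>
      rw [List.cons_append, List.cons.injEq] at e
      obtain ⟨rfl, e⟩ := e
      obtain ⟨u₁, u₂, p₁, p₂, M₁, M₂, g1, g2, rfl, rfl, rfl⟩ := ih2 _ _ e
      exact ⟨_, u₂, _, p₂, _, M₂, .pop hr h1 g1, g2, (List.append_assoc _ _ _).symm, (add_assoc _ _ _).symm,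
        (max_assoc _ _ _).symm⟩

theorem pf_split {σ : List G.I} {α α' : List (G.V ⊕ T)} {u : List T} {p : ℕ → ℕ} {M : ℕ} (h : Pf G σ (α ++ α') u p M) :
    ∃ u₁ u₂ p₁ p₂ M₁ M₂, Pf G σ α u₁ p₁ M₁ ∧ Pf G σ α' u₂ p₂ M₂ ∧ u = u₁ ++ u₂ ∧ p = p₁ + p₂ ∧ M = max M₁ M₂ :=
  pf_split_aux h _ _ rfl

theorem pf_fill {σ : List G.I} (α : List (G.V ⊕ T)) {u : List T} {p : ℕ → ℕ} {M : ℕ}
    (h : Pf G σ ((vs α).map Sum.inl) u p M) : ∃ u', Pf G σ α u' p M := by
  induction α generalizing u p M with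
  | nil => exact ⟨u, h⟩
  | cons x α ih =>
    rcases x with B | t
    · have h' : Pf G σ ([Sum.inl B] ++ (vs α).map Sum.inl) u p M := h
      obtain ⟨u₁, u₂, p₁, p₂, M₁, M₂, h1, h2, rfl, rfl, rfl⟩ := pf_split h'
      obtain ⟨u', h3⟩ := ih h2
      exact ⟨_, pf_append h1 h3⟩
    · obtain ⟨u', h3⟩ := ih h
      exact ⟨_, .tm h3⟩

theorem pf_zero {σ : List G.I} {α : List (G.V ⊕ T)} {u : List T} {p : ℕ → ℕ} {M : ℕ} (h : Pf G σ α u p M) {j : ℕ}
    (hj : σ.length ≤ j) : p j = 0 := by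
  induction h generalizing j with
  | nil => rfl
  | tm _ ih => exact ih hj
  | rw _ _ _ ih1 ih2 => rw [Pi.add_apply, ih1 hj, ih2 hj]
  | @push σ A B f β v₁ v₂ q₁ q₂ N₁ N₂ hr h1 h2 ih1 ih2 =>
    rw [Pi.add_apply, ih2 hj, add_zero]
    by_cases h : j = σ.length
    · subst h
      rw [Function.update_self]
    · rw [Function.update_of_ne h]
      apply ih1
      rw [List.length_cons]
      omega
  | @pop σ A f γ β v₁ v₂ q₁ q₂ N₁ N₂ hr h1 h2 ih1 ih2 =>
    rw [List.length_cons] at hj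
    rw [Pi.add_apply, Pi.add_apply, ih1 (by omega), ih2 (by rw [List.length_cons]; exact hj),
      Pi.single_eq_of_ne (by omega)]

end Pool.Agent.Lib.IXD
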