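import Pool.Agent.Lib.IXD.Ha

/-!
# Row Hb: popping a list of variables

Words: induction on χ; nx (ρ :: χ) = vs ρ.2.2 ++ nx χ: `pf_split` (after List.map_append), `pf_fill` for ρ.2.2, `Pf.pop`, induction;
Pi.single σ.length 1 + Pi.single σ.length χ.length = Pi.single σ.length (χ.length + 1).
-/

set_option autoImplicit false

namespace Pool.Agent.Lib.IXD

open Pool.Agent.Lib.IXB Pool.Agent.Lib.IXB.Fi

variable {T : Type} {G : IG T}

theorem pf_pops {σ : List G.I} {f : G.I} {χ : List (Po G)} (hχ : ∀ ρ ∈ χ, ρ.2.1 = f ∧ pr ρ ∈ G.rules) {u : List T}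
    {p : ℕ → ℕ} {M : ℕ} (h : Pf G σ ((nx χ).map Sum.inl) u p M) :
    ∃ u', Pf G (f :: σ) ((χ.map Prod.fst).map Sum.inl) u' (Pi.single σ.length χ.length + p) M := by
  induction χ generalizing u p M with
  | nil =>
    have h1 : Pf G σ [] u p M := h
    cases h1
    refine ⟨[], ?_⟩
    have e : (Pi.single σ.length ([] : List (Po G)).length + 0 : ℕ → ℕ) = 0 := by simp
    rw [e]
    exact Pf.nil
  | cons ρ χ ih =>
    have h1 : Pf G σ ((vs ρ.2.2).map Sum.inl ++ (nx χ).map Sum.inl) u p M := by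
      rw [← List.map_append]
      exact h
    obtain ⟨u₁, u₂, p₁, p₂, M₁, M₂, h2, h3, rfl, rfl, rfl⟩ := pf_split h1
    obtain ⟨v₁, h4⟩ := pf_fill ρ.2.2 h2
    obtain ⟨v₂, h5⟩ := ih (fun ρ' hρ' => hχ ρ' (List.mem_cons_of_mem _ hρ')) h3
    obtain ⟨h6, h7⟩ := hχ ρ List.mem_cons_self
    subst h6
    have h8 := Pf.pop (σ := σ) (A := ρ.1) (f := ρ.2.1) (α' := ρ.2.2) h7 h4 h5
    refine ⟨v₁ ++ v₂, ?_⟩
    have e : (Pi.single σ.length (ρ :: χ).length + (p₁ + p₂) : ℕ → ℕ) =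
        Pi.single σ.length 1 + p₁ + (Pi.single σ.length χ.length + p₂) := by
      have e1 : (Pi.single σ.length (ρ :: χ).length : ℕ → ℕ) = Pi.single σ.length 1 + Pi.single σ.length χ.length := by
        rw [← Pi.single_add, List.length_cons, add_comm]
      rw [e1]
      abel
    rw [e]
    exact h8

end Pool.Agent.Lib.IXD
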