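import Pool.Agent.Lib.IXD.Hb
import Pool.Agent.Lib.IXD.Ga

/-!
# Row Hc: the numbers of pops of a PT

Words: induction on PT. nil: the same tree. stop: tg = A :: tg Xs, split off A, induction, put A back. rw: tg = bs.flatten ++ tg Xs, split;
induction for zip (vs α) bs (tg_zip, List.map_fst_zip) gives a tree for (vs α).map inl, `pf_fill` one for α, `Pf.rw` with the
empty rest (Pf.nil) one for [inl A], `pf_append` with the induction for Xs. push: the same with nx χ, then `pf_pops` gives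
(χ.map fst).map inl at f :: σ, the induction for [(B, χ.map fst)] gives [inl B] at f :: σ with p = Pi.single σ.length χ.length + p₁;
p₁ σ.length = 0 (`pf_zero`), so `Pf.push` has the count χ.length and Function.update gives back p₁.
-/

set_option autoImplicit false

namespace Pool.Agent.Lib.IXD

open Pool.Agent.Lib.IXB Pool.Agent.Lib.IXB.Fi

variable {T : Type} {G : IG T} {k : ℕ}

theorem pt_pf {σ : List G.I} {Xs : List (G.V × List G.V)} {s : List (Lr G)} {w : ℕ}
    {es ds : List (List (Rule G.V G.I T))} (h : PT G k σ Xs s w es ds) {u : List T} {p : ℕ → ℕ} {M : ℕ}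
    (hp : Pf G σ ((tg Xs).map Sum.inl) u p M) :
    ∃ u' M', Pf G σ ((Xs.map Prod.fst).map Sum.inl) u' p M' ∧ M ≤ M' ∧
      ∀ A B f χ bs, Lr.push A B f χ bs ∈ s → χ.length ≤ M' := by
  induction h generalizing u p M with
  | nil => exact ⟨u, M, hp, le_rfl, fun A B f χ bs hm => absurd hm (by simp)⟩
  | @stop σ A Xs s w es ds e hv _ ih =>
    have e1 : (tg ((A, [A]) :: Xs)).map (Sum.inl : G.V → G.V ⊕ T) = [Sum.inl A] ++ (tg Xs).map Sum.inl := rfl
    rw [e1] at hp
    obtain ⟨u₁, u₂, p₁, p₂, M₁, M₂, h1, h2, rfl, rfl, rfl⟩ := pf_split hp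
    obtain ⟨u₂', M₂', g2, le2, m2⟩ := ih h2
    refine ⟨u₁ ++ u₂', max M₁ M₂', pf_append h1 g2, max_le_max le_rfl le2, ?_⟩
    intro A' B' f' χ' bs' hm
    rcases List.mem_cons.1 hm with hm | hm
    · exact absurd hm (by simp)
    · exact (m2 _ _ _ _ _ hm).trans (le_max_right _ _)
  | @rw σ A α bs Xs s1 s2 w1 w2 es1 es2 ds1 ds2 hv _ _ ih1 ih2 =>
    obtain ⟨hr, hlen, -⟩ := hv
    have e1 : (tg ((A, bs.flatten) :: Xs)).map (Sum.inl : G.V → G.V ⊕ T) =
        (bs.flatten).map Sum.inl ++ (tg Xs).map Sum.inl := List.map_append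
    rw [e1] at hp
    obtain ⟨u₁, u₂, p₁, p₂, M₁, M₂, h1, h2, rfl, rfl, rfl⟩ := pf_split hp
    rw [← tg_zip hlen] at h1
    obtain ⟨u₁', M₁', g1, le1, m1⟩ := ih1 h1
    obtain ⟨u₂', M₂', g2, le2, m2⟩ := ih2 h2
    rw [List.map_fst_zip (le_of_eq hlen.symm)] at g1
    obtain ⟨u₁'', g1'⟩ := pf_fill α g1
    refine ⟨u₁'' ++ u₂', max M₁' M₂', Pf.rw hr g1' g2, max_le_max le1 le2, ?_⟩
    intro A' B' f' χ' bs' hm
    rcases List.mem_cons.1 hm with hm | hm
    · exact absurd hm (by simp)
    · rcases List.mem_append.1 hm with hm | hm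
      · exact (m1 _ _ _ _ _ hm).trans (le_max_left _ _)
      · exact (m2 _ _ _ _ _ hm).trans (le_max_right _ _)
  | @push σ A B f χ bs Xs s0 s1 s2 w0 w1 w2 es1 es2 ds1 ds2 m hv _ _ _ ih0 ih1 ih2 =>
    obtain ⟨hr, hχ, -, hlen, -⟩ := hv
    have e1 : (tg ((A, bs.flatten) :: Xs)).map (Sum.inl : G.V → G.V ⊕ T) =
        (bs.flatten).map Sum.inl ++ (tg Xs).map Sum.inl := List.map_append
    rw [e1] at hp
    obtain ⟨u₁, u₂, p₁, p₂, M₁, M₂, h1, h2, rfl, rfl, rfl⟩ := pf_split hp
    rw [← tg_zip hlen] at h1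
    obtain ⟨u₁', M₁', g1, le1, m1⟩ := ih1 h1
    obtain ⟨u₂', M₂', g2, le2, m2⟩ := ih2 h2
    rw [List.map_fst_zip (le_of_eq hlen.symm)] at g1
    obtain ⟨v, gv⟩ := pf_pops hχ g1
    have e2 : (tg [(B, χ.map Prod.fst)]).map (Sum.inl : G.V → G.V ⊕ T) = (χ.map Prod.fst).map Sum.inl := by
      simp [tg]
    rw [← e2] at gv
    obtain ⟨u₀', M₀', g0, le0, m0⟩ := ih0 gv
    have hz : p₁ σ.length = 0 := pf_zero g1 le_rfl
    have hup : Function.update (Pi.single σ.length χ.length + p₁) σ.length 0 = p₁ := by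
      funext j
      by_cases hj : j = σ.length
      · rw [hj, Function.update_self, hz]
      · rw [Function.update_of_ne hj, Pi.add_apply, Pi.single_eq_of_ne hj, Nat.zero_add]
    have hcount : (Pi.single σ.length χ.length + p₁ : ℕ → ℕ) σ.length = χ.length := by
      rw [Pi.add_apply, Pi.single_eq_same, hz, Nat.add_zero]
    have key := Pf.push hr g0 g2
    rw [hup, hcount] at key
    refine ⟨_, _, key, ?_, ?_⟩
    · refine max_le ?_ ?_
      · exact (le1.trans le0).trans ((le_max_left _ _).trans (le_max_right _ _))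
      · exact le2.trans ((le_max_right _ _).trans (le_max_right _ _))
    · intro A' B' f' χ' bs' hm
      rcases List.mem_cons.1 hm with hm | hm
      · injection hm with _ _ _ h4 _
        rw [h4]
        exact le_max_left _ _
      · rcases List.mem_append.1 hm with hm | hm
        · exact (m0 _ _ _ _ _ hm).trans ((le_max_left _ _).trans (le_max_right _ _))
        · rcases List.mem_append.1 hm with hm | hm
          · exact ((m1 _ _ _ _ _ hm).trans le0).trans ((le_max_left _ _).trans (le_max_right _ _))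
          · exact (m2 _ _ _ _ _ hm).trans ((le_max_right _ _).trans (le_max_right _ _))

end Pool.Agent.Lib.IXD
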