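import Pool.Agent.Lib.IXD.He
import Pool.Agent.Lib.IXD.Gh
import Pool.Agent.Lib.IXD.Gc

/-!
# Row Hd: completeness without bounds

Words: copy of `comp` in Lib/IXD/Gi.lean (helper34) without IL: everywhere PT G K for some K; at each step take the maximum
K = 1 + K₀ + K₁ + K₂ + χ.length + the length of the targets and use `pt_mono`.
-/

set_option autoImplicit false

namespace Pool.Agent.Lib.IXD

open Pool.Agent.Lib.IXB Pool.Agent.Lib.IXB.Fi

variable {T : Type} {G : IG T}

theorem comp0 : ∀ (N : ℕ) (ds : List (List (Rule G.V G.I T))), ds.flatten.length ≤ N → ∀ (σ : List G.I) (As : List G.V) (n : ℕ),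
    DL G σ As ds n → ∃ (K : ℕ) (Xs : List (G.V × List G.V)) (s : List (Lr G)) (w : ℕ)
      (es : List (List (Rule G.V G.I T))) (m : ℕ), Xs.map Prod.fst = As ∧ PT G K σ Xs s w es ds ∧ DL G σ (tg Xs) es m ∧
        PopFirst es ∧ n = m + w ∧ es.flatten.length ≤ ds.flatten.length := by
  intro N
  induction N using Nat.strong_induction_on with
  | _ N ih =>
    intro ds hN σ As n hd
    cases hd with
    | nil =>
      exact ⟨0, [], [], 0, [], 0, rfl, .nil, .nil, by intro e he; simp at he, rfl, le_rfl⟩
    | @cons A As' d ds' u n' h1 h2 =>
      have hlen : (d :: ds').flatten.length = d.length + ds'.flatten.length := by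
        rw [List.flatten_cons, List.length_append]
      rw [hlen] at hN
      have hd1 := h1
      generalize hv : (u.map Sum.inr : Form G.V G.I T) = V at h1
      cases h1 with
      | nil => cases u <;> simp at hv
      | @cons p l F F' F'' h6 h7 =>
        have hds' : ds'.flatten.length < N := by
          rw [List.length_cons] at hN
          omega
        obtain ⟨K2, Xs2, s2, w2, es2, m2, e1, e2, e3, e4, e5, e6⟩ := ih _ hds' ds' le_rfl σ As' n' h2
        have hl : l.length < N := by
          rw [List.length_cons] at hN
          omega
        obtain ⟨hp, x, y, X, Z, h8, ha, h9⟩ := h6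
        obtain ⟨rfl, rfl, rfl⟩ := left_unique (u := []) (y := []) h8
        cases ha with
        | rw A α σ =>
          simp only [List.map_nil, List.nil_append, List.append_nil] at h9
          rw [h9, ← hv] at h7
          obtain ⟨ds1, n1, h10, rfl, h12⟩ := unfill α h7
          obtain ⟨K1, Xs1, s1, w1, es1, m1, f1, f2, f3, f4, f5, f6⟩ := ih _ hl ds1 le_rfl σ (vs α) n1 h10
          have hz : List.zip (vs α) (Xs1.map Prod.snd) = Xs1 := (List.zip_of_prod f1 rfl).symm
          set K := K1 + K2 + (Xs1.map Prod.snd).flatten.length with hK
          have hVa : Va G K (Lr.rw A α (Xs1.map Prod.snd)) := by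
            refine ⟨hp, ?_, by omega⟩
            rw [← f1, List.length_map, List.length_map]
          refine ⟨K, (A, (Xs1.map Prod.snd).flatten) :: Xs2, _, _, es1 ++ es2, m1 + m2, ?_,
            PT.rw hVa (by rw [hz]; exact pt_mono f2 (by omega)) (pt_mono e2 (by omega)), ?_, ?_, ?_, ?_⟩
          · rw [List.map_cons, e1]
          · exact f3.append e3
          · intro e he
            rcases List.mem_append.1 he with he | he
            · exact f4 e he
            · exact e4 e he
          · omega
          · rw [List.flatten_append, List.length_append, List.flatten_cons, List.length_append, List.length_cons]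
            omega
        | push A B f σ =>
          simp only [List.map_nil, List.nil_append, List.append_nil] at h9
          rw [h9, ← hv] at h7
          have hd0 : DL G (f :: σ) [B] [l] (u.length + 0) := .cons h7 .nil
          have hl0 : ([l] : List (List (Rule G.V G.I T))).flatten.length < N := by
            simpa using hl
          obtain ⟨K0, Xs0, s0, w0, es0, m0, f1, f2, f3, f4, f5, f6⟩ := ih _ hl0 [l] le_rfl (f :: σ) [B] _ hd0
          obtain ⟨X, rfl, hX⟩ := List.map_eq_singleton_iff.1 f1
          obtain ⟨B', γ⟩ := X
          have hX' : B' = B := hX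
          subst hX'
          have ht : tg [(B', γ)] = γ := by simp [tg]
          rw [ht] at f3
          have hl1 : ([l] : List (List (Rule G.V G.I T))).flatten.length = l.length := by simp
          rw [hl1] at f6
          obtain ⟨χ, ds1, n1, rfl, rfl, g1, g2, g3, g4⟩ := unregroup f3 f4
          obtain ⟨K1, Xs1, s1, w1, es1, m1, b1, b2, b3, b4, b5, b6⟩ :=
            ih _ (lt_of_le_of_lt (g4.trans f6) hl) ds1 le_rfl σ (nx χ) n1 g2
          have hz : List.zip (nx χ) (Xs1.map Prod.snd) = Xs1 := (List.zip_of_prod b1 rfl).symm
          set K := K0 + K1 + K2 + χ.length + (Xs1.map Prod.snd).flatten.length with hK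
          have hVa : Va G K (Lr.push A B' f χ (Xs1.map Prod.snd)) := by
            refine ⟨hp, g1, by omega, ?_, by omega⟩
            rw [← b1, List.length_map, List.length_map]
          refine ⟨K, (A, (Xs1.map Prod.snd).flatten) :: Xs2, _, _, es1 ++ es2, m1 + m2, ?_,
            PT.push hVa (pt_mono f2 (by omega)) (by rw [hz]; exact pt_mono b2 (by omega)) (pt_mono e2 (by omega)), ?_, ?_, ?_, ?_⟩
          · rw [List.map_cons, e1]
          · exact b3.append e3
          · intro e he
            rcases List.mem_append.1 he with he | he
            · exact b4 e he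
            · exact e4 e he
          · omega
          · rw [List.flatten_append, List.length_append, List.flatten_cons, List.length_append, List.length_cons]
            omega
        | pop A f α σ =>
          have hk : 1 ≤ K2 + 1 := by omega
          refine ⟨K2 + 1, (A, [A]) :: Xs2, _, _, _ :: es2, u.length + m2, ?_, PT.stop hk (pt_mono e2 (by omega)), ?_, ?_, ?_, ?_⟩
          · rw [List.map_cons, e1]
          · exact .cons hd1 e3
          · intro e he
            rcases List.mem_cons.1 he with rfl | he
            · exact ⟨_, _, _, _, rfl⟩
            · exact e4 e he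
          · omega
          · rw [List.flatten_cons, List.length_append, List.flatten_cons, List.length_append]
            omega

end Pool.Agent.Lib.IXD
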