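import Pool.Agent.Lib.IXD.Ga

/-!
# Row He: the bound of a PT can be changed

Words: induction on PT. (mono) all bounds in Va grow. (bound) stop: 1 ≤ (tg Xs).length ≤ k. rw: bs.flatten.length ≤ (tg ..).length ≤ k;
the induction for zip (vs α) bs: tg = bs.flatten (tg_zip). push: χ.length ≤ k by hypothesis, tg [(B, χ.map fst)] has length
χ.length. The rest Xs: (tg Xs).length ≤ the total.
-/

set_option autoImplicit false

namespace Pool.Agent.Lib.IXD

open Pool.Agent.Lib.IXB Pool.Agent.Lib.IXB.Fi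

variable {T : Type} {G : IG T} {K k : ℕ}

private theorem he_cons {V : Type} (A : V) (b : List V) (Xs : List (V × List V)) :
    tg ((A, b) :: Xs) = b ++ tg Xs := rfl

theorem pt_mono {σ : List G.I} {Xs : List (G.V × List G.V)} {s : List (Lr G)} {w : ℕ}
    {es ds : List (List (Rule G.V G.I T))} (h : PT G k σ Xs s w es ds) (hK : k ≤ K) : PT G K σ Xs s w es ds := by
  induction h with
  | nil => exact PT.nil
  | stop hv _ ih => exact PT.stop (le_trans hv hK) ih
  | rw hv _ _ ih1 ih2 => exact PT.rw ⟨hv.1, hv.2.1, hv.2.2.trans hK⟩ ih1 ih2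
  | push hv _ _ _ ih0 ih1 ih2 =>
    exact PT.push ⟨hv.1, hv.2.1, hv.2.2.1.trans hK, hv.2.2.2.1, hv.2.2.2.2.trans hK⟩ ih0 ih1 ih2

theorem pt_bound {σ : List G.I} {Xs : List (G.V × List G.V)} {s : List (Lr G)} {w : ℕ}
    {es ds : List (List (Rule G.V G.I T))} (h : PT G K σ Xs s w es ds) (h1 : (tg Xs).length ≤ k)
    (h2 : ∀ A B f χ bs, Lr.push A B f χ bs ∈ s → χ.length ≤ k) : PT G k σ Xs s w es ds := by
  revert h1 h2
  induction h with
  | nil =>
    intro _ _
    exact PT.nil
  | @stop σ A Xs s w es ds e hv _ ih =>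
    intro h1 h2
    rw [he_cons, List.length_append] at h1
    have h3 : 1 + (tg Xs).length ≤ k := h1
    exact PT.stop (show 1 ≤ k by omega) (ih (by omega) fun A B f χ bs hm => h2 A B f χ bs (List.mem_cons_of_mem _ hm))
  | @rw σ A α bs Xs s1 s2 w1 w2 es1 es2 ds1 ds2 hv _ _ ih1 ih2 =>
    intro h1 h2
    rw [he_cons, List.length_append] at h1
    refine PT.rw ⟨hv.1, hv.2.1, by omega⟩ (ih1 ?_ ?_) (ih2 (by omega) ?_)
    · rw [tg_zip hv.2.1]
      omega
    · exact fun A B f χ bs hm => h2 A B f χ bs (List.mem_cons_of_mem _ (List.mem_append_left _ hm))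
    · exact fun A B f χ bs hm => h2 A B f χ bs (List.mem_cons_of_mem _ (List.mem_append_right _ hm))
  | @push σ A B f χ bs Xs s0 s1 s2 w0 w1 w2 es1 es2 ds1 ds2 m hv _ _ _ ih0 ih1 ih2 =>
    intro h1 h2
    rw [he_cons, List.length_append] at h1
    have h3 : χ.length ≤ k := h2 A B f χ bs List.mem_cons_self
    refine PT.push ⟨hv.1, hv.2.1, h3, hv.2.2.2.1, by omega⟩ (ih0 ?_ ?_) (ih1 ?_ ?_) (ih2 (by omega) ?_)
    · rw [he_cons, List.length_append, List.length_map]
      have h4 : (tg ([] : List (G.V × List G.V))).length = 0 := rfl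
      omega
    · exact fun A B f χ bs hm => h2 A B f χ bs (List.mem_cons_of_mem _ (List.mem_append_left _ hm))
    · rw [tg_zip hv.2.2.2.1]
      omega
    · exact fun A B f χ bs hm => h2 A B f χ bs
        (List.mem_cons_of_mem _ (List.mem_append_right _ (List.mem_append_left _ hm)))
    · exact fun A B f χ bs hm => h2 A B f χ bs
        (List.mem_cons_of_mem _ (List.mem_append_right _ (List.mem_append_right _ hm)))

end Pool.Agent.Lib.IXD
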