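import Pool.Agent.Lib.IXD.NTe

/-!
# Row NTf: sequences which agree with the counts of L_C from some point on

Words: as NTe (`lc_not_finker`): among the functions n -> b (3^s n + 1) with s ≥ s₀ (3^s₀ > n₀) two are equal; take n from `exists_n`;
n > 0 since 3^s' n + 1 is a prime, so both arguments are ≥ n₀.
-/

set_option autoImplicit false

namespace Pool.Agent.Lib.IXD

open Pool.Agent.Lib.IXB Pool.Agent.Lib.IXB.Nice

theorem lc_not_finker2 {b : ℕ → ZMod 3} {n₀ : ℕ} (hb : ∀ n ≥ n₀, b n = (cnt LC n : ZMod 3)) : ¬ FinKer b := by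
  intro hfin
  unfold FinKer at hfin
  have hmem : ∀ a : ℕ, (fun n => b (3 ^ (a + n₀ + 1) * n + 1)) ∈
      {g : ℕ → ZMod 3 | ∃ s r : ℕ, r < 3 ^ s ∧ g = fun n => b (3 ^ s * n + r)} := by
    intro a
    exact ⟨a + n₀ + 1, 1, Nat.one_lt_pow (Nat.succ_ne_zero _) (by norm_num), rfl⟩
  obtain ⟨a, c, hac, he⟩ := Set.Finite.exists_lt_map_eq_of_forall_mem hmem hfin
  have hac' : a + n₀ + 1 < c + n₀ + 1 := by omega
  obtain ⟨n, q, m, hq, h12, hm, hqm, e1, hp, h4⟩ := exists_n hac'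
  have hn : 0 < n := by
    rcases Nat.eq_zero_or_pos n with h0 | h0
    · rw [h0, Nat.mul_zero, Nat.zero_add] at hp
      exact absurd hp Nat.not_prime_one
    · exact h0
  have hl : ∀ s : ℕ, n₀ ≤ 3 ^ (s + n₀ + 1) * n + 1 := by
    intro s
    have k1 : s + n₀ + 1 < 3 ^ (s + n₀ + 1) := Nat.lt_pow_self (by norm_num)
    have k2 : 3 ^ (s + n₀ + 1) * 1 ≤ 3 ^ (s + n₀ + 1) * n := Nat.mul_le_mul_left _ hn
    omega
  have h := congrFun he n
  have h' : b (3 ^ (a + n₀ + 1) * n + 1) = b (3 ^ (c + n₀ + 1) * n + 1) := h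
  rw [hb _ (hl a), hb _ (hl c)] at h'
  have h1 : (cnt LC (3 ^ (a + n₀ + 1) * n + 1) : ZMod 3) = 0 := by
    rw [show 3 ^ (a + n₀ + 1) * n + 1 = q * m from e1]
    exact a_qm hq h12 hm hqm
  have h2 : (cnt LC (3 ^ (c + n₀ + 1) * n + 1) : ZMod 3) = 2 := a_prime3 hp h4
  rw [h1, h2] at h'
  exact absurd h' (by decide)

end Pool.Agent.Lib.IXD
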