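import Pool.Agent.Lib.IXD.Ta
import Pool.Agent.Lib.IXD.CSm

/-!
# Row Tb: the main theorem for systems which are finite only from n₀ on

Words: apply `cs_main` to Th S n₀ with the symbol (X₀, n₀): for n < n₀ there is no derivation of weight n (`th_down`: min n₀ n = n₀), for
n ≥ n₀ the map l' -> l'.map Sigma.fst is a bijection onto the derivations of [X₀] of weight n (`th_down`, `th_up`, `th_inj`; the number
in the lifted word is n₀ because min n₀ n = n₀). Finite types: products and vectors of finite types.
-/

set_option autoImplicit false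

namespace Pool.Agent.Lib.IXD

theorem cs_main2 {N R : Type} [Finite N] [Finite R] (S : Sys N R) (X₀ : N) (n₀ : ℕ)
    (hfin : ∀ n ≥ n₀, {l : List R | CD S [X₀] l n}.Finite) :
    FinKer fun n => if n₀ ≤ n then cnt3 S X₀ n else 0 := by
  set X1 : N × Fin (n₀ + 1) := (X₀, ⟨n₀, by omega⟩) with hX1
  have himg : ∀ n, n₀ ≤ n → (fun l' : List (Σ r : R, List.Vector (Fin (n₀ + 1)) (S.rhs r).length) => l'.map Sigma.fst) ''
      {l' | CD (Th S n₀) [X1] l' n} = {l | CD S [X₀] l n} := by
    intro n hn
    ext l
    constructor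
    · rintro ⟨l', hl', rfl⟩
      exact (th_down hl').1
    · intro hl
      obtain ⟨w', l', h1, rfl, h3⟩ := th_up (n₀ := n₀) hl
      obtain ⟨x, rfl, hx⟩ := List.map_eq_singleton_iff.1 h1
      obtain ⟨X, i⟩ := x
      have hx' : X = X₀ := hx
      subst hx'
      have h4 := (th_down h3).2
      have h5 : i.val = n₀ := by
        have h6 := i.2
        simp only [List.map_cons, List.map_nil, List.sum_cons, List.sum_nil, add_zero] at h4
        omega
      have h6 : i = ⟨n₀, by omega⟩ := Fin.ext h5
      rw [h6] at h3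
      exact ⟨l', h3, rfl⟩
  have hinj : ∀ n, Set.InjOn (fun l' : List (Σ r : R, List.Vector (Fin (n₀ + 1)) (S.rhs r).length) => l'.map Sigma.fst)
      {l' | CD (Th S n₀) [X1] l' n} := by
    intro n l1 h1 l2 h2 h
    exact (th_inj h1 h2 rfl h).2
  have hlt : ∀ n, n < n₀ → {l' | CD (Th S n₀) [X1] l' n} = ∅ := by
    intro n hn
    rw [Set.eq_empty_iff_forall_notMem]
    intro l' h
    have h4 := (th_down h).2
    simp only [hX1, List.map_cons, List.map_nil, List.sum_cons, List.sum_nil, add_zero] at h4
    omega
  have hfin' : ∀ n, {l' | CD (Th S n₀) [X1] l' n}.Finite := by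
    intro n
    rcases lt_or_ge n n₀ with h | h
    · rw [hlt n h]
      exact Set.finite_empty
    · exact Set.Finite.of_finite_image (by rw [himg n h]; exact hfin n h) (hinj n)
  have key := cs_main (Th S n₀) X1 hfin'
  have he : cnt3 (Th S n₀) X1 = fun n => if n₀ ≤ n then cnt3 S X₀ n else 0 := by
    funext n
    split_ifs with h
    · unfold cnt3
      rw [← himg n h, (hinj n).ncard_image]
    · unfold cnt3
      rw [hlt n (by omega), Set.ncard_empty, Nat.cast_zero]
  rw [he] at key
  exact key

end Pool.Agent.Lib.IXD
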