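import Pool.Agent.Lib.IXD.Hf
import Pool.Agent.Lib.IXD.Fb
import Pool.Agent.Lib.IXD.Fc
import Pool.Agent.Lib.IXD.Tb
import Pool.Agent.Lib.IXD.NTf

/-!
# Infinitely many ambiguous words
-/

set_option autoImplicit false

namespace Pool.Agent.Lib.IXD

open Pool.Agent.Lib.IXB Pool.Agent.Lib.IXB.Fi

theorem lder_back {T : Type} {G : IG T} {F F' : Form G.V G.I T} {u : List T} (h : G.Step F F')
    (hl : ∃ l, G.LDer l F' (u.map Sum.inr)) : ∃ l, G.LDer l F (u.map Sum.inr) := by
  obtain ⟨p, hp, x, y, X, Z, rfl, ha, rfl⟩ := h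
  obtain ⟨l, hl⟩ := hl
  obtain ⟨l1, l2, v1, v2, rfl, rfl, h1, h2⟩ := lder_split G (F := x) (F' := Z ++ y) rfl hl
  obtain ⟨l3, l4, v3, v4, rfl, rfl, h3, h4⟩ := lder_split G (F := Z) (F' := y) rfl h2
  have h5 : G.LDer (p :: l3) [Sum.inl X] (v3.map Sum.inr) := by
    refine .cons ⟨hp, [], [], X, Z, rfl, ha, rfl⟩ ?_
    simp only [List.map_nil, List.nil_append, List.append_nil]
    exact h3
  have h6 := lder_append G h1 (lder_append G h5 h4)
  exact ⟨_, h6⟩

theorem lder_ex {T : Type} {G : IG T} {F : Form G.V G.I T} {u : List T}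
    (h : Relation.ReflTransGen G.Step F (u.map Sum.inr)) : ∃ l, G.LDer l F (u.map Sum.inr) := by
  induction h using Relation.ReflTransGen.head_induction_on with
  | refl => exact ⟨[], .nil _⟩
  | head h1 _ ih => exact lder_back h1 ih

theorem ig_card3 {G : IG Bool} {k n₀ : ℕ}
    (hw : ∀ (l : List (Rule G.V G.I Bool)) (u : List Bool), G.LDer l [Sum.inl (G.start, [])] (u.map Sum.inr) →
      ∃ s ∈ Acc G k u.length, PT G k [] [(G.start, [])] s u.length [] [l])
    (hL : ∀ u : List Bool, n₀ ≤ u.length → (u ∈ G.lang ↔ u ∈ LC))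
    (hu : ∀ (u : List Bool) (l l' : List (Rule G.V G.I Bool)), n₀ ≤ u.length →
      G.LDer l [Sum.inl (G.start, [])] (u.map Sum.inr) → G.LDer l' [Sum.inl (G.start, [])] (u.map Sum.inr) → l = l')
    {n : ℕ} (hn : n₀ ≤ n) : (Acc G k n).Finite ∧ (Acc G k n).ncard = Nice.cnt LC n := by
  have ex : ∀ u : {u : List Bool // u ∈ LC ∧ u.length = n}, ∃ s : Acc G k n, ∃ l,
      PT G k [] [(G.start, [])] s.1 n [] [l] ∧ G.LDer l [Sum.inl (G.start, [])] (u.1.map Sum.inr) := by
    rintro ⟨u, h1, rfl⟩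
    obtain ⟨l, hl⟩ := lder_ex (G := G) (u := u) ((hL u hn).2 h1)
    obtain ⟨s, h2, h3⟩ := hw l u hl
    exact ⟨⟨s, h2⟩, l, h3, hl⟩
  choose g hg using ex
  have hb : Function.Bijective g := by
    constructor
    · rintro ⟨u, h1, h2⟩ ⟨u', h1', h2'⟩ he
      obtain ⟨l, h3, h4⟩ := hg ⟨u, h1, h2⟩
      obtain ⟨l', h3', h4'⟩ := hg ⟨u', h1', h2'⟩
      rw [← he] at h3'
      have h5 := (List.cons.inj (pt_fun h3 h3')).1
      subst h5
      have h6 := lder_fun h4 h4'
      have h7 : u = u' := List.map_injective_iff.2 Sum.inr_injective h6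
      subst h7
      rfl
    · rintro ⟨s, hs⟩
      obtain ⟨l, u, h1, h2, h3⟩ := acc_word hs
      have hn' : n₀ ≤ u.length := by omega
      have h4 : u ∈ LC := (hL u hn').1 (LDer_step G h2)
      refine ⟨⟨u, h4, h3⟩, ?_⟩
      obtain ⟨l', h5, h6⟩ := hg ⟨u, h4, h3⟩
      have h8 : l' = l := hu u l' l hn' h6 h2
      subst h8
      have h9 : DL G [] (tg [(G.start, ([] : List G.V))]) [] 0 := DL.nil
      obtain ⟨-, h10, -⟩ := pt_inj h5 h1 rfl h9 h9 (fun e he => by cases he) (fun e he => by cases he)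
      exact Subtype.ext h10
  have hfin : Finite {u : List Bool // u ∈ LC ∧ u.length = n} := Nice.fin_sub (n := n) fun u hu => hu.2
  have h1 := Nat.card_congr (Equiv.ofBijective g hb)
  have h2 : Finite (Acc G k n) := Finite.of_surjective g hb.2
  refine ⟨Set.toFinite _, ?_⟩
  rw [← Nat.card_coe_set_eq]
  exact h1.symm

theorem len_bound {X : Set (List Bool)} (h : X.Finite) : ∃ n₀ : ℕ, ∀ u ∈ X, u.length < n₀ := by
  obtain ⟨n, hn⟩ := (h.image List.length).bddAbove
  exact ⟨n + 1, fun u hu => Nat.lt_succ_of_le (hn ⟨u, hu, rfl⟩)⟩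

/-- for the grammars of the class -/
theorem ig_main3 {G : IG Bool} {k : ℕ} (h : Index G k ∨ Copies G k) (hL : (symmDiff G.lang LC).Finite) :
    (Amb G).Infinite := by
  intro hA
  obtain ⟨n₁, h1⟩ := len_bound hL
  obtain ⟨n₂, h2⟩ := len_bound hA
  set n₀ := max n₁ n₂ with hn₀
  have hw : ∀ (l : List (Rule (red G).V (red G).I Bool)) (u : List Bool),
      (red G).LDer l [Sum.inl ((red G).start, [])] (u.map Sum.inr) →
      ∃ s ∈ Acc (red G) k u.length, PT (red G) k [] [((red G).start, [])] s u.length [] [l] := by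
    intro l u hl
    rcases h with hI | hC
    · exact word_acc (red_index hI) hl
    · exact word_acc2 (red_copies hC) hl
  have hL' : ∀ u : List Bool, n₀ ≤ u.length → (u ∈ (red G).lang ↔ u ∈ LC) := by
    intro u hu
    rw [red_lang]
    by_contra h3
    have h4 : u ∈ symmDiff G.lang LC := by
      rw [Set.mem_symmDiff]
      tauto
    have h5 := h1 u h4
    have := le_max_left n₁ n₂
    omega
  have hu' : ∀ (u : List Bool) (l l' : List (Rule (red G).V (red G).I Bool)), n₀ ≤ u.length →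
      (red G).LDer l [Sum.inl ((red G).start, [])] (u.map Sum.inr) →
      (red G).LDer l' [Sum.inl ((red G).start, [])] (u.map Sum.inr) → l = l' := by
    intro u l l' hu hl hl'
    by_contra hne
    have h3 := h2 u (amb_of_red hne hl hl')
    have := le_max_right n₁ n₂
    omega
  obtain ⟨N, R, hN, hR, S, X, φ, hφ, hS⟩ := fin_sys (red G) k (red G).start
  have hfin : ∀ n ≥ n₀, {l | CD S [X] l n}.Finite := fun n hn => by
    refine Set.Finite.of_finite_image (f := φ) ?_ hφ.injOn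
    rw [hS n]
    exact (ig_card3 hw hL' hu' hn).1
  have hc : ∀ n ≥ n₀, cnt3 S X n = ((Nice.cnt LC n : ℕ) : ZMod 3) := fun n hn => by
    unfold cnt3
    rw [← Set.ncard_image_of_injective _ hφ, hS n]
    exact congrArg Nat.cast (ig_card3 hw hL' hu' hn).2
  refine lc_not_finker2 (n₀ := n₀) ?_ (cs_main2 S X n₀ hfin)
  intro n hn
  show (if n₀ ≤ n then cnt3 S X n else 0) = _
  rw [if_pos hn]
  exact hc n hn

end Pool.Agent.Lib.IXD
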