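import Pool.Agent.Lib.IXB.FiA

/-!
# Every derivation of a word can be made leftmost
-/

set_option autoImplicit false

namespace Pool.Agent.Lib.IXD

open Pool.Agent.Lib.IXB Pool.Agent.Lib.IXB.Fi

variable {T : Type} {G : IG T}

private theorem lm_step {F F' : Form G.V G.I T} (hs : G.Step F F') {l : List (Rule G.V G.I T)} {u : List T}
    (h : G.LDer l F' (u.map Sum.inr)) : ∃ l' : List (Rule G.V G.I T), G.LDer l' F (u.map Sum.inr) := by
  obtain ⟨p, hp, x, y, X, Z, rfl, ha, rfl⟩ := hs
  obtain ⟨l1, l2, v1, v2, rfl, rfl, h1, h2⟩ := lder_split G rfl h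
  obtain ⟨l3, l4, v3, v4, rfl, rfl, h3, h4⟩ := lder_split G rfl h2
  have h5 : G.LDer (p :: l3) [Sum.inl X] (v3.map Sum.inr) :=
    .cons ⟨hp, [], [], X, Z, rfl, ha, by simp⟩ h3
  exact ⟨_, lder_append G h1 (lder_append G h5 h4)⟩

/-- a word which is derived has a leftmost derivation -/
theorem lder_of_steps {F : Form G.V G.I T} {u : List T} (h : Relation.ReflTransGen G.Step F (u.map Sum.inr)) :
    ∃ l : List (Rule G.V G.I T), G.LDer l F (u.map Sum.inr) := by
  induction h using Relation.ReflTransGen.head_induction_on with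
  | refl => exact ⟨[], .nil _⟩
  | head hs _ ih =>
    obtain ⟨l, hl⟩ := ih
    exact lm_step hs hl

theorem lder_of_lang {u : List T} (h : u ∈ G.lang) : ∃ l : List (Rule G.V G.I T),
    G.LDer l [Sum.inl (G.start, [])] (u.map Sum.inr) :=
  lder_of_steps h

end Pool.Agent.Lib.IXD
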