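import Pool.Agent.Lib.IXB.NumA
import Pool.Agent.Lib.IXD.Sys

/-!
# Row NTa: powers of two modulo 3

Words: 2 = -1 mod 3, and (q*d+1)/2 and (d+1)/2 have different parity if q = 3 mod 4 and d is odd.
-/

set_option autoImplicit false

namespace Pool.Agent.Lib.IXD

open Pool.Agent.Lib.IXB Pool.Agent.Lib.IXB.Nice

theorem pow_qd {q d : ℕ} (hq : q % 4 = 3) (hd : d % 2 = 1) :
    (2 : ZMod 3) ^ ((q * d + 1) / 2) + 2 ^ ((d + 1) / 2) = 0 := by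
  obtain ⟨k, rfl⟩ : ∃ k, q = 4 * k + 3 := ⟨q / 4, by omega⟩
  obtain ⟨m, rfl⟩ : ∃ m, d = 2 * m + 1 := ⟨d / 2, by omega⟩
  have e1 : ((4 * k + 3) * (2 * m + 1) + 1) / 2 = 2 * (2 * k * m + k + m + 1) + m := by
    have h : (4 * k + 3) * (2 * m + 1) + 1 = 2 * (2 * (2 * k * m + k + m + 1) + m) := by ring
    rw [h, Nat.mul_div_cancel_left _ two_pos]
  have e2 : (2 * m + 1 + 1) / 2 = m + 1 := by omega
  have h2 : (2 : ZMod 3) = -1 := by decide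
  rw [e1, e2, h2, pow_add, pow_mul, neg_one_sq, one_pow, one_mul, pow_succ]
  ring

theorem pal3 {n : ℕ} (hn : n % 2 = 1) : (cnt Pal n : ZMod 3) = 2 ^ ((n + 1) / 2) := by
  obtain ⟨m, rfl⟩ : ∃ m, n = 2 * m + 1 := ⟨n / 2, by omega⟩
  have e2 : (2 * m + 1 + 1) / 2 = m + 1 := by omega
  rw [pal_cnt, e2, pow_succ]
  push_cast
  ring

end Pool.Agent.Lib.IXD
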