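import Pool.Agent.Lib.IXD.NTa

/-!
# Row NTb: primitive palindromes modulo 3

Words: strong induction on d. `root_sum pal_pw` (Lib/IXB/NumA) gives for odd n: sum over e | n of pcnt Pal e = cnt Pal n
= 2 ^ ((n+1)/2) mod 3 (`pal3`). The divisors of q * d (q prime, q does not divide d) are the divisors e of d and the q * e.
So (sum over e | d of pcnt Pal e) + (sum over e | d of pcnt Pal (q e)) = 2 ^ ((qd+1)/2) = - 2 ^ ((d+1)/2) (`pow_qd`), hence the sum
over e | d of pcnt Pal (q e) is - 2 * 2 ^ ((d+1)/2) = 2 ^ ((d+1)/2) = sum over e | d of pcnt Pal e; by induction the terms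
with e < d agree, so the terms e = d agree. (All e are odd and not divisible by q.)
-/

set_option autoImplicit false

namespace Pool.Agent.Lib.IXD

open Pool.Agent.Lib.IXB Pool.Agent.Lib.IXB.Nice

/-- the divisors of `q * d` -/
theorem sum_div_qd {q d : ℕ} (hq : q.Prime) (hqd : ¬ q ∣ d) (f : ℕ → ZMod 3) :
    ∑ e ∈ (q * d).divisors, f e = ∑ e ∈ d.divisors, (f e + f (q * e)) := by
  classical
  have hd0 : d ≠ 0 := by
    rintro rfl
    exact hqd (dvd_zero q)
  have h1 : (q * d).divisors = d.divisors ∪ d.divisors.image (fun e => q * e) := by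
    ext e
    simp only [Nat.mem_divisors, Finset.mem_union, Finset.mem_image]
    constructor
    · rintro ⟨he, -⟩
      by_cases hqe : q ∣ e
      · obtain ⟨a, rfl⟩ := hqe
        exact Or.inr ⟨a, ⟨Nat.dvd_of_mul_dvd_mul_left hq.pos he, hd0⟩, rfl⟩
      · have hc : Nat.Coprime e q := ((Nat.Prime.coprime_iff_not_dvd hq).2 hqe).symm
        exact Or.inl ⟨hc.dvd_of_dvd_mul_left he, hd0⟩
    · rintro (⟨he, -⟩ | ⟨a, ⟨ha, -⟩, rfl⟩)
      · exact ⟨Dvd.dvd.mul_left he q, Nat.mul_ne_zero hq.ne_zero hd0⟩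
      · exact ⟨Nat.mul_dvd_mul_left q ha, Nat.mul_ne_zero hq.ne_zero hd0⟩
  have h2 : Disjoint d.divisors (d.divisors.image (fun e => q * e)) := by
    rw [Finset.disjoint_left]
    intro e he he'
    obtain ⟨a, -, rfl⟩ := Finset.mem_image.1 he'
    exact hqd ((Dvd.intro a rfl).trans (Nat.dvd_of_mem_divisors he))
  rw [h1, Finset.sum_union h2, Finset.sum_image, Finset.sum_add_distrib]
  intro a _ b _ hab
  exact Nat.eq_of_mul_eq_mul_left hq.pos hab

private theorem p_qd_aux {q : ℕ} (hq : q.Prime) (h4 : q % 4 = 3) (n : ℕ) :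
    ∀ d ≤ n, d % 2 = 1 → ¬ q ∣ d → (pcnt Pal (q * d) : ZMod 3) = pcnt Pal d := by
  induction n with
  | zero =>
    intro d hd h1 _
    omega
  | succ n ih =>
    intro d hdn hd hqd
    have hd0 : 0 < d := by omega
    have hodd : (q * d) % 2 = 1 := by
      rw [Nat.mul_mod, show q % 2 = 1 by omega, hd]
    have e1 : (cnt Pal (q * d) : ZMod 3) = ∑ e ∈ d.divisors, ((pcnt Pal e : ZMod 3) + pcnt Pal (q * e)) := by
      rw [root_sum pal_pw (Nat.mul_pos hq.pos hd0), Nat.cast_sum]
      exact sum_div_qd hq hqd fun e => (pcnt Pal e : ZMod 3)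
    have e2 : (cnt Pal d : ZMod 3) = ∑ e ∈ d.divisors, (pcnt Pal e : ZMod 3) := by
      rw [root_sum pal_pw hd0, Nat.cast_sum]
    have e3 := pow_qd h4 hd
    rw [← pal3 hodd, ← pal3 hd, e1, e2, Finset.sum_add_distrib] at e3
    have h3 : (3 : ZMod 3) = 0 := by decide
    have e4 : ∑ e ∈ d.divisors, ((pcnt Pal (q * e) : ZMod 3) - pcnt Pal e) = 0 := by
      rw [Finset.sum_sub_distrib]
      linear_combination e3 - (∑ e ∈ d.divisors, (pcnt Pal e : ZMod 3)) * h3
    have hmem : d ∈ d.divisors := Nat.mem_divisors_self d hd0.ne'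
    rw [← Finset.add_sum_erase _ _ hmem, Finset.sum_eq_zero, add_zero] at e4
    · exact sub_eq_zero.1 e4
    · intro e he
      obtain ⟨hne, he⟩ := Finset.mem_erase.1 he
      have hed := Nat.dvd_of_mem_divisors he
      have hle := Nat.le_of_dvd hd0 hed
      have hlt : e < d := lt_of_le_of_ne hle hne
      refine sub_eq_zero.2 (ih e (by omega) ?_ fun h => hqd (h.trans hed))
      obtain ⟨k, hk⟩ := hed
      by_contra h
      have h0 : e % 2 = 0 := by omega
      rw [hk, Nat.mul_mod, h0, Nat.zero_mul, Nat.zero_mod] at hd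
      exact absurd hd (by decide)

theorem p_qd {q d : ℕ} (hq : q.Prime) (h4 : q % 4 = 3) (hd : d % 2 = 1) (hqd : ¬ q ∣ d) :
    (pcnt Pal (q * d) : ZMod 3) = pcnt Pal d := p_qd_aux hq h4 d d le_rfl hd hqd

end Pool.Agent.Lib.IXD
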