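import Pool.Agent.Lib.IXD.NTb

/-!
# Row NTc: the number of words of L_C modulo 3

Words: for odd n, `root_sum lc_pw` and `odd_cnt` (Lib/IXB/NumA) give cnt LC n = sum over d | n of d * pcnt Pal d.
(a) n = q * m: by `sum_div_qd` and `p_qd` it is the sum over d | m of (1 + q) * d * pcnt Pal d, and 1 + q = 0 mod 3.
(b) n = q prime, q = 1 mod 4: 1 * pcnt Pal 1 + q * pcnt Pal q with pcnt Pal 1 = 2 and pcnt Pal 1 + pcnt Pal q =
2 ^ ((q+1)/2) = 2 mod 3 ((q+1)/2 is odd), so pcnt Pal q = 0 mod 3.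
-/

set_option autoImplicit false

namespace Pool.Agent.Lib.IXD

open Pool.Agent.Lib.IXB Pool.Agent.Lib.IXB.Nice

private theorem ntc_odd {d n : ℕ} (h1 : d ∣ n) (hn : n % 2 = 1) : d % 2 = 1 := by
  rcases Nat.mod_two_eq_zero_or_one d with h | h
  · exfalso
    have h3 : 2 ∣ n := (Nat.dvd_of_mod_eq_zero h).trans h1
    omega
  · exact h

private theorem ntc_three : (3 : ZMod 3) = 0 := by decide

private theorem lc_odd {n : ℕ} (hn : n % 2 = 1) :
    (cnt LC n : ZMod 3) = ∑ d ∈ n.divisors, (d : ZMod 3) * (pcnt Pal d : ZMod 3) := by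
  rw [root_sum lc_pw (by omega), Nat.cast_sum]
  refine Finset.sum_congr rfl fun d hd => ?_
  rw [odd_cnt (ntc_odd (Nat.dvd_of_mem_divisors hd) hn), Nat.cast_mul]

theorem a_qm {q m : ℕ} (hq : q.Prime) (h : q % 12 = 11) (hm : m % 2 = 1) (hqm : ¬ q ∣ m) :
    (cnt LC (q * m) : ZMod 3) = 0 := by
  have hq2 : q % 2 = 1 := by omega
  have hodd : (q * m) % 2 = 1 := by
    rw [Nat.mul_mod, hq2, hm]
  rw [lc_odd hodd, sum_div_qd hq hqm]
  refine Finset.sum_eq_zero fun d hd => ?_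
  have h1 : d ∣ m := Nat.dvd_of_mem_divisors hd
  have h2 : d % 2 = 1 := ntc_odd h1 hm
  have h3 : ¬ q ∣ d := fun h => hqm (h.trans h1)
  rw [p_qd hq (by omega) h2 h3]
  have h4 : (q : ZMod 3) = 2 := by
    have h5 : q % 3 = 2 % 3 := by omega
    exact_mod_cast (ZMod.natCast_eq_natCast_iff' q 2 3).2 h5
  push_cast
  rw [h4]
  linear_combination ((d : ZMod 3) * (pcnt Pal d : ZMod 3)) * ntc_three

theorem a_prime3 {q : ℕ} (hq : q.Prime) (h : q % 4 = 1) : (cnt LC q : ZMod 3) = 2 := by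
  have h1 : (pcnt Pal 1 : ZMod 3) = 2 := by
    have e1 : cnt Pal 1 = pcnt Pal 1 := by
      rw [root_sum pal_pw one_pos]
      simp
    have e2 : cnt Pal (2 * 0 + 1) = 2 * 2 ^ 0 := pal_cnt 0
    rw [← e1]
    have e3 : cnt Pal 1 = 2 := e2
    rw [e3]
    rfl
  have h2 : (cnt Pal q : ZMod 3) = 2 := by
    obtain ⟨k, hk⟩ : ∃ k, q = 2 * (2 * k) + 1 := ⟨q / 4, by omega⟩
    rw [hk, pal_cnt, pow_mul]
    push_cast
    have e4 : (4 : ZMod 3) = 1 := by decide
    rw [e4, one_pow, mul_one]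
  have h3 : (pcnt Pal q : ZMod 3) + 2 = 2 := by
    rw [root_sum pal_pw hq.pos, hq.sum_divisors, Nat.cast_add, h1] at h2
    exact h2
  have h4 : (pcnt Pal q : ZMod 3) = 0 := by
    linear_combination h3
  rw [lc_odd (by omega), hq.sum_divisors, h4, h1]
  simp

end Pool.Agent.Lib.IXD
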