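import Pool.Agent.Lib.IXD.Sys

/-!
# Systems with a threshold
-/

set_option autoImplicit false

namespace Pool.Agent.Lib.IXD

/-- the symbols of `S` with a number `i ≤ n₀`: `i` is the minimum of `n₀` and the weight which is derived -/
def Th {N R : Type} (S : Sys N R) (n₀ : ℕ) :
    Sys (N × Fin (n₀ + 1)) (Σ r : R, List.Vector (Fin (n₀ + 1)) (S.rhs r).length) where
  lhs x := (S.lhs x.1, ⟨min n₀ (S.wt x.1 + (x.2.toList.map Fin.val).sum), by omega⟩)
  wt x := S.wt x.1
  rhs x := List.zip (S.rhs x.1) x.2.toList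

end Pool.Agent.Lib.IXD
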