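import Pool.Agent.Lib.IXD.TDef
import Pool.Agent.Lib.IXD.CSa

/-!
# Row Ta: derivations of the system with a threshold

Words: (th_down) induction on CD; the second part says that the sum of the numbers agrees with the weight up to min n₀
(min n₀ (a + b) = min n₀ (min n₀ a + b)). (th_up) induction on CD S w l n: for r :: l the induction gives a lift of rhs r ++ w, split it
(the numbers of rhs r form the vector). (th_inj) induction on the first derivation: the first letters have the same r and, by
induction, the words rhs ++ rest agree, so the vectors agree.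
-/

set_option autoImplicit false

namespace Pool.Agent.Lib.IXD

variable {N R : Type} {S : Sys N R} {n₀ : ℕ}

private theorem zfst72 (r : Σ r : R, List.Vector (Fin (n₀ + 1)) (S.rhs r).length) :
    ((Th S n₀).rhs r).map Prod.fst = S.rhs r.1 := by
  show (List.zip (S.rhs r.1) r.2.toList).map Prod.fst = S.rhs r.1
  exact List.map_fst_zip (le_of_eq (List.Vector.toList_length r.2).symm)

private theorem zsnd72 (r : Σ r : R, List.Vector (Fin (n₀ + 1)) (S.rhs r).length) :
    ((Th S n₀).rhs r).map Prod.snd = r.2.toList := by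
  show (List.zip (S.rhs r.1) r.2.toList).map Prod.snd = r.2.toList
  exact List.map_snd_zip (le_of_eq (List.Vector.toList_length r.2))

theorem th_down {w : List (N × Fin (n₀ + 1))} {l : List (Σ r : R, List.Vector (Fin (n₀ + 1)) (S.rhs r).length)} {n : ℕ}
    (h : CD (Th S n₀) w l n) : CD S (w.map Prod.fst) (l.map Sigma.fst) n ∧
      min n₀ n = min n₀ ((w.map fun x => x.2.val).sum) := by
  induction h with
  | nil => exact ⟨CD.nil, by simp⟩
  | @cons r w l n _ ih =>
    obtain ⟨h1, h2⟩ := ih
    constructor
    · rw [List.map_append, zfst72] at h1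
      exact CD.cons h1
    · have h3 : (((Th S n₀).rhs r).map fun x => x.2.val) = r.2.toList.map Fin.val := by
        rw [← zsnd72 r, List.map_map]
        rfl
      rw [List.map_append, List.sum_append, h3] at h2
      show min n₀ (S.wt r.1 + n) = min n₀ (min n₀ (S.wt r.1 + (r.2.toList.map Fin.val).sum) +
        (w.map fun x => x.2.val).sum)
      omega

theorem th_up {w : List N} {l : List R} {n : ℕ} (h : CD S w l n) :
    ∃ (w' : List (N × Fin (n₀ + 1))) (l' : List (Σ r : R, List.Vector (Fin (n₀ + 1)) (S.rhs r).length)),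
      w'.map Prod.fst = w ∧ l'.map Sigma.fst = l ∧ CD (Th S n₀) w' l' n := by
  induction h with
  | nil => exact ⟨[], [], rfl, rfl, CD.nil⟩
  | @cons r w l n _ ih =>
    obtain ⟨w', l', h1, h2, h3⟩ := ih
    obtain ⟨w1, w2, rfl, h4, h5⟩ := List.map_eq_append_iff.1 h1
    have hlen : (w1.map Prod.snd).length = (S.rhs r).length := by
      rw [← h4, List.length_map, List.length_map]
    let r' : Σ r : R, List.Vector (Fin (n₀ + 1)) (S.rhs r).length := ⟨r, ⟨w1.map Prod.snd, hlen⟩⟩
    have hr : (Th S n₀).rhs r' = w1 := by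
      show List.zip (S.rhs r) (w1.map Prod.snd) = w1
      rw [← h4]
      exact (List.zip_of_prod rfl rfl).symm
    refine ⟨(Th S n₀).lhs r' :: w2, r' :: l', ?_, ?_, ?_⟩
    · rw [List.map_cons, h5]
      rfl
    · rw [List.map_cons, h2]
    · rw [← hr] at h3
      exact CD.cons h3

theorem th_inj {w w' : List (N × Fin (n₀ + 1))} {l l' : List (Σ r : R, List.Vector (Fin (n₀ + 1)) (S.rhs r).length)}
    {n n' : ℕ} (h : CD (Th S n₀) w l n) (h' : CD (Th S n₀) w' l' n') (hw : w.map Prod.fst = w'.map Prod.fst)
    (hl : l.map Sigma.fst = l'.map Sigma.fst) : w = w' ∧ l = l' := by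
  induction h generalizing w' l' n' with
  | nil =>
    have h1 : w' = [] := List.map_eq_nil_iff.1 hw.symm
    have h2 : l' = [] := List.map_eq_nil_iff.1 hl.symm
    exact ⟨h1.symm, h2.symm⟩
  | @cons r w l n _ ih =>
    cases h' with
    | nil => simp at hl
    | @cons r' w' l' n' h'' =>
      rw [List.map_cons, List.map_cons] at hl hw
      obtain ⟨e1, e2⟩ := List.cons.inj hl
      obtain ⟨_, e3⟩ := List.cons.inj hw
      obtain ⟨r, v⟩ := r
      obtain ⟨r', v'⟩ := r'
      have e1' : r = r' := e1
      subst e1'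
      obtain ⟨k1, k2⟩ := ih h'' (by
        rw [List.map_append, List.map_append, zfst72, zfst72, e3]) e2
      have hlen : ((Th S n₀).rhs ⟨r, v⟩).length = ((Th S n₀).rhs ⟨r, v'⟩).length := by
        have a1 := congrArg List.length (zfst72 (S := S) (n₀ := n₀) ⟨r, v⟩)
        have a2 := congrArg List.length (zfst72 (S := S) (n₀ := n₀) ⟨r, v'⟩)
        rw [List.length_map] at a1 a2
        rw [a1, a2]
      obtain ⟨k3, k4⟩ := List.append_inj k1 hlen
      have k5 : v.toList = v'.toList := by
        rw [← zsnd72 (S := S) (n₀ := n₀) ⟨r, v⟩, ← zsnd72 (S := S) (n₀ := n₀) ⟨r, v'⟩, k3]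
      have k6 : v = v' := List.Vector.toList_injective k5
      subst k6
      exact ⟨by rw [k4], by rw [k2]⟩

end Pool.Agent.Lib.IXD
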